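import Pool.Agent.TH800.DM.Mn

/-! Two-sided, scale-uniform large deviations of the normalised zero counting
(owner helper747). -/

set_option autoImplicit false

open Filter Topology Set

namespace Pool.Agent.Y747.Ld

open SG (ord NZ)
open Pool.Agent.TH800
open MS (dlt)
open LG.CU (del)

/-- normalised ordinates -/
noncomputable def gt (n : ℕ) : ℝ := ord n * Real.log (ord n) / (2 * Real.pi)

lemma sum_dlt (n k : ℕ) : ∑ i ∈ Finset.range k, dlt (n + i) = gt (n + k) - gt n := by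
  induction k with
  | zero => simp
  | succ k ih =>
    rw [Finset.sum_range_succ, ih]
    unfold dlt gt
    rw [show n + (k + 1) = n + k + 1 by ring]
    ring

/-- the exceptional set of windows -/
def E (ε : ℝ) (k N : ℕ) : Set ℕ :=
  {n : ℕ | 1 ≤ n ∧ n ≤ N ∧ ε * k ≤ |∑ i ∈ Finset.range k, dlt (n + i) - k|}

lemma E_fin (ε : ℝ) (k N : ℕ) : (E ε k N).Finite :=
  (Set.finite_Icc 1 N).subset fun _ hn => ⟨hn.1, hn.2.1⟩

/-- transfer from `del` to `dlt` for one index beyond `n0` -/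
lemma conv {ε : ℝ} (hε : 0 < ε) (hε1 : ε ≤ 1) {n0 : ℕ}
    (hcmp : ∀ k : ℕ, n0 ≤ k → 0 ≤ del k ∧ del k ≤ dlt k ∧ dlt k ≤ del k + ε / 4 * del k)
    {n m : ℕ} (hn : n0 ≤ n) (hm : 0 < m)
    (h : |∑ i ∈ Finset.range m, del (n + i) - m| < ε / 4 * m) :
    |∑ i ∈ Finset.range m, dlt (n + i) - m| < ε * m := by
  have hmp : (0 : ℝ) < m := by exact_mod_cast hm
  have hs1 : ∑ i ∈ Finset.range m, del (n + i) ≤ ∑ i ∈ Finset.range m, dlt (n + i) :=
    Finset.sum_le_sum fun i _ => (hcmp (n + i) (by omega)).2.1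
  have hs2 : ∑ i ∈ Finset.range m, dlt (n + i) ≤ ∑ i ∈ Finset.range m, del (n + i) +
      ε / 4 * ∑ i ∈ Finset.range m, del (n + i) := by
    rw [Finset.mul_sum, ← Finset.sum_add_distrib]
    exact Finset.sum_le_sum fun i _ => (hcmp (n + i) (by omega)).2.2
  obtain ⟨b1, b2⟩ := abs_lt.1 h
  have hs3 : ∑ i ∈ Finset.range m, del (n + i) ≤ 2 * m := by
    have : ε / 4 * m ≤ 1 * m := mul_le_mul_of_nonneg_right (by linarith) hmp.le
    linarith
  have hs4 : ε / 4 * ∑ i ∈ Finset.range m, del (n + i) ≤ ε / 4 * (2 * m) := by gcongr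
  have hεm : 0 < ε * m := by positivity
  rw [abs_lt]
  constructor <;> linarith

/-- windows of one fixed length -/
theorem base (RH : RiemannHypothesis) (ε : ℝ) (hε : 0 < ε) (hε1 : ε ≤ 1) :
    ∃ c : ℝ, 0 < c ∧ ∃ m0 : ℕ, 1 ≤ m0 ∧ ∀ N : ℕ, 1 ≤ N → ∀ m : ℕ, m0 ≤ m →
      ((E ε m N).ncard : ℝ) ≤ N * Real.exp (-c * (m * Real.log m)) := by
  obtain ⟨c, hc, m1, hm1, h⟩ := LD.main (MS.rhs_of RH) (ε / 8) (by positivity) (by linarith)
  obtain ⟨n0, hn0, hcmp0⟩ := DM.del_cmp RH (ε / 8) (by positivity)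
  have hcmp : ∀ k : ℕ, n0 ≤ k → 0 ≤ del k ∧ del k ≤ dlt k ∧ dlt k ≤ del k + ε / 4 * del k := by
    intro k hk
    obtain ⟨a1, a2, a3⟩ := hcmp0 k hk
    refine ⟨a1, a2, a3.trans ?_⟩
    have : ε / 8 * del k ≤ ε / 4 * del k := mul_le_mul_of_nonneg_right (by linarith) a1
    linarith
  -- no exception at the index n0 for long windows
  obtain ⟨m2, hm2⟩ : ∃ m2 : ℕ, ∀ m : ℕ, m2 ≤ m → (n0 : ℝ) * Real.exp (-c * (m * Real.log m)) < 1 := by
    have h1 : Tendsto (fun m : ℕ => c * ((m : ℝ) * Real.log m)) atTop atTop := by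
      apply Tendsto.const_mul_atTop hc
      exact (tendsto_natCast_atTop_atTop).atTop_mul_atTop₀
        (Real.tendsto_log_atTop.comp tendsto_natCast_atTop_atTop)
    obtain ⟨m2, hm2⟩ := (h1.eventually_gt_atTop (Real.log (n0 : ℝ))).exists_forall_of_atTop
    refine ⟨m2, fun m hm => ?_⟩
    have h2 := hm2 m hm
    have hn0p : (0 : ℝ) < n0 := by exact_mod_cast hn0
    have h3 : (n0 : ℝ) = Real.exp (Real.log n0) := (Real.exp_log hn0p).symm
    rw [h3, ← Real.exp_add, Real.exp_lt_one_iff]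
    linarith
  set M : ℝ := ∑ j ∈ Finset.range n0, |dlt j| with hM
  have hM0 : 0 ≤ M := Finset.sum_nonneg fun _ _ => abs_nonneg _
  obtain ⟨m3, hm3⟩ := exists_nat_ge (4 / ε * (M + n0))
  have hlong : ∀ m : ℕ, max m1 m2 ≤ m →
      |∑ i ∈ Finset.range m, dlt (n0 + i) - m| < ε / 2 * m := by
    intro m hm
    have hm1' : m1 ≤ m := (le_max_left _ _).trans hm
    have hmp : 0 < m := lt_of_lt_of_le hm1 hm1'
    have hb := h n0 hn0 m hm1'
    have hb2 := hm2 m ((le_max_right _ _).trans hm)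
    set S := {n : ℕ | 1 ≤ n ∧ n ≤ n0 ∧ ε / 8 * m ≤ |∑ i ∈ Finset.range m, del (n + i) - m|} with hS
    have hSf : S.Finite := (Set.finite_Icc 1 n0).subset fun n hn => ⟨hn.1, hn.2.1⟩
    have hS0 : (S.ncard : ℝ) < 1 := lt_of_le_of_lt hb hb2
    have hS1 : S.ncard = 0 := by
      have : S.ncard < 1 := by exact_mod_cast hS0
      omega
    have hS2 : S = ∅ := (Set.ncard_eq_zero hSf).1 hS1
    have hnot : n0 ∉ S := by rw [hS2]; exact Set.notMem_empty _
    have hlt : |∑ i ∈ Finset.range m, del (n0 + i) - m| < ε / 8 * m := by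
      by_contra hcon
      push Not at hcon
      exact hnot ⟨hn0, le_rfl, hcon⟩
    refine conv (ε := ε / 2) (by positivity) (by linarith) (n0 := n0) ?_ le_rfl hmp ?_
    · intro k hk
      obtain ⟨a1, a2, a3⟩ := hcmp0 k hk
      refine ⟨a1, a2, a3.trans (le_of_eq ?_)⟩
      ring
    · refine hlt.trans_le (le_of_eq ?_)
      ring
  refine ⟨c, hc, max m1 (max m2 m3) + max m1 m2 + n0, by omega, fun N hN m hm => ?_⟩
  have hmm1 : m1 ≤ m := by omega
  have hmp0 : 0 < m := lt_of_lt_of_le hm1 hmm1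
  have hmp : (0 : ℝ) < m := by exact_mod_cast hmp0
  have hsub : E ε m N ⊆
      {n : ℕ | 1 ≤ n ∧ n ≤ N ∧ ε / 8 * m ≤ |∑ i ∈ Finset.range m, del (n + i) - m|} := by
    rintro n ⟨a1, a2, a3⟩
    by_cases hn : n0 ≤ n
    · refine ⟨a1, a2, ?_⟩
      by_contra hcon
      push Not at hcon
      have h1 : |∑ i ∈ Finset.range m, del (n + i) - m| < ε / 4 * m := by
        refine hcon.trans_le ?_
        apply mul_le_mul_of_nonneg_right (by linarith) hmp.le
      have h2 := conv hε hε1 hcmp hn hmp0 h1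
      linarith
    · exfalso
      push Not at hn
      obtain ⟨r, hr⟩ : ∃ r, n0 = n + r := ⟨n0 - n, by omega⟩
      obtain ⟨m', hm'⟩ : ∃ m', m = r + m' := ⟨m - r, by omega⟩
      have hl := hlong m' (by omega)
      have e1 : ∑ i ∈ Finset.range m, dlt (n + i) =
          ∑ i ∈ Finset.range r, dlt (n + i) + ∑ i ∈ Finset.range m', dlt (n0 + i) := by
        rw [hm', Finset.sum_range_add]
        congr 1
        refine Finset.sum_congr rfl fun i _ => ?_
        rw [hr]
        congr 1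
        ring
      have e2 : |∑ i ∈ Finset.range r, dlt (n + i)| ≤ M := by
        refine (Finset.abs_sum_le_sum_abs _ _).trans ?_
        rw [hM]
        have h1 : ∑ i ∈ Finset.range r, |dlt (n + i)| = ∑ j ∈ Finset.Ico n n0, |dlt j| := by
          rw [Finset.sum_Ico_eq_sum_range, show n0 - n = r by omega]
        rw [h1]
        apply Finset.sum_le_sum_of_subset_of_nonneg
        · intro j hj
          rw [Finset.mem_Ico] at hj
          exact Finset.mem_range.2 hj.2
        · intro _ _ _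
          exact abs_nonneg _
      have hm3' : 4 / ε * (M + n0) ≤ m := by
        refine hm3.trans ?_
        exact_mod_cast (by omega : m3 ≤ m)
      have hm3'' : M + n0 ≤ ε / 4 * m := by
        have h1 : ε / 4 * (4 / ε * (M + n0)) ≤ ε / 4 * m :=
          mul_le_mul_of_nonneg_left hm3' (by positivity)
        have h2 : ε / 4 * (4 / ε * (M + n0)) = M + n0 := by field_simp
        linarith
      have hcast : (m : ℝ) = r + m' := by rw [hm']; push_cast; ring
      have hr' : (r : ℝ) ≤ n0 := by exact_mod_cast (by omega : r ≤ n0)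
      have hr0 : (0 : ℝ) ≤ r := Nat.cast_nonneg _
      have hm'' : (m' : ℝ) ≤ m := by linarith
      rw [e1] at a3
      obtain ⟨b1, b2⟩ := abs_lt.1 hl
      obtain ⟨b3, b4⟩ := abs_le.1 e2
      have hεm' : ε / 2 * m' ≤ ε / 2 * m := by gcongr
      have hεm : 0 < ε * m := by positivity
      have : |∑ i ∈ Finset.range r, dlt (n + i) + ∑ i ∈ Finset.range m', dlt (n0 + i) - m| <
          ε * m := by
        rw [abs_lt]
        constructor <;> linarith
      linarith
  have hfin : {n : ℕ | 1 ≤ n ∧ n ≤ N ∧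
      ε / 8 * m ≤ |∑ i ∈ Finset.range m, del (n + i) - m|}.Finite :=
    (Set.finite_Icc 1 N).subset fun n hn => ⟨hn.1, hn.2.1⟩
  have h1 : ((E ε m N).ncard : ℝ) ≤ ({n : ℕ | 1 ≤ n ∧ n ≤ N ∧
      ε / 8 * m ≤ |∑ i ∈ Finset.range m, del (n + i) - m|}.ncard : ℝ) := by
    exact_mod_cast Set.ncard_le_ncard hsub hfin
  exact h1.trans (h N hN m hmm1)

/-- all windows around a typical index, both directions, all lengths at least `m` -/
theorem full (RH : RiemannHypothesis) (ε : ℝ) (hε : 0 < ε) :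
    ∃ c : ℝ, 0 < c ∧ ∃ m0 : ℕ, 1 ≤ m0 ∧ ∀ N : ℕ, 1 ≤ N → ∀ m : ℕ, m0 ≤ m →
      ({n : ℕ | 1 ≤ n ∧ n ≤ N ∧ ∃ j : ℕ, 1 ≤ j ∧ (m : ℝ) ≤ |(j : ℝ) - n| ∧
        ε * |(j : ℝ) - n| ≤ |gt j - gt n - ((j : ℝ) - n)|}.ncard : ℝ) ≤
        N * Real.exp (-c * m * Real.log m) := by
  classical
  wlog hε1 : ε ≤ 1 generalizing ε
  · obtain ⟨c, hc, m0, hm0, h⟩ := this 1 one_pos le_rfl
    refine ⟨c, hc, m0, hm0, fun N hN m hm => le_trans ?_ (h N hN m hm)⟩
    have : {n : ℕ | 1 ≤ n ∧ n ≤ N ∧ ∃ j : ℕ, 1 ≤ j ∧ (m : ℝ) ≤ |(j : ℝ) - n| ∧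
        ε * |(j : ℝ) - n| ≤ |gt j - gt n - ((j : ℝ) - n)|}.ncard ≤
        {n : ℕ | 1 ≤ n ∧ n ≤ N ∧ ∃ j : ℕ, 1 ≤ j ∧ (m : ℝ) ≤ |(j : ℝ) - n| ∧
        1 * |(j : ℝ) - n| ≤ |gt j - gt n - ((j : ℝ) - n)|}.ncard := by
      apply Set.ncard_le_ncard
      · rintro n ⟨a1, a2, j, a3, a4, a5⟩
        refine ⟨a1, a2, j, a3, a4, le_trans ?_ a5⟩
        apply mul_le_mul_of_nonneg_right (by linarith) (abs_nonneg _)
      · exact (Set.finite_Icc 1 N).subset fun n hn => ⟨hn.1, hn.2.1⟩
    exact_mod_cast this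
  obtain ⟨c, hc, m1, hm1, h⟩ := base RH ε hε hε1
  -- choice of m0
  obtain ⟨m2, hm2⟩ : ∃ m2 : ℕ, ∀ m : ℕ, m2 ≤ m → Real.log 4 ≤ c / 2 * Real.log m := by
    have h1 : Tendsto (fun m : ℕ => c / 2 * Real.log m) atTop atTop := by
      apply Tendsto.const_mul_atTop (by positivity)
      exact Real.tendsto_log_atTop.comp tendsto_natCast_atTop_atTop
    exact (h1.eventually_ge_atTop _).exists_forall_of_atTop
  refine ⟨c / 2, by positivity, max m1 m2, by omega, fun N hN m hm => ?_⟩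
  have hmm1 : m1 ≤ m := (le_max_left _ _).trans hm
  have hmm2 : m2 ≤ m := (le_max_right _ _).trans hm
  have hmp0 : 0 < m := lt_of_lt_of_le hm1 hmm1
  have hmp : (1 : ℝ) ≤ m := by exact_mod_cast hmp0
  have hlog := hm2 m hmm2
  have hNp : (0 : ℝ) < N := by exact_mod_cast hN
  set q : ℝ := Real.exp (-c * Real.log m) with hq
  have hq0 : 0 ≤ q := (Real.exp_pos _).le
  have hq1 : q ≤ 1 / 2 := by
    have h1 : q ≤ Real.exp (-Real.log 2) := by
      apply Real.exp_le_exp.2
      have h2 : Real.log 2 ≤ Real.log 4 := Real.log_le_log (by norm_num) (by norm_num)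
      have h3 : 0 ≤ c / 2 * Real.log m := by
        have : 0 ≤ Real.log m := Real.log_nonneg hmp
        positivity
      linarith
    rw [Real.exp_neg, Real.exp_log (by norm_num)] at h1
    linarith
  -- a bound for each length
  have hk : ∀ k : ℕ, m ≤ k → ((E ε k N).ncard : ℝ) ≤ N * q ^ k := by
    intro k hmk
    refine (h N hN k (hmm1.trans hmk)).trans ?_
    apply mul_le_mul_of_nonneg_left _ hNp.le
    rw [hq, ← Real.exp_nat_mul]
    apply Real.exp_le_exp.2
    have h1 : Real.log m ≤ Real.log k :=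
      Real.log_le_log (by linarith) (by exact_mod_cast hmk)
    have h2 : c * (k * Real.log m) ≤ c * (k * Real.log k) := by gcongr
    linarith
  -- a cutoff for the lengths
  obtain ⟨K, hK⟩ : ∃ K : ℕ, (N : ℝ) * (1 / 2) ^ K < 1 := by
    obtain ⟨K, hK⟩ := exists_pow_lt_of_lt_one (show (0 : ℝ) < 1 / N by positivity)
      (show (1 : ℝ) / 2 < 1 by norm_num)
    refine ⟨K, ?_⟩
    rw [lt_div_iff₀ hNp] at hK
    linarith
  have hempty : ∀ k : ℕ, m ≤ k → K ≤ k → E ε k N = ∅ := by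
    intro k h1 h2
    have h3 := hk k h1
    have h4 : (N : ℝ) * q ^ k < 1 := by
      refine lt_of_le_of_lt ?_ hK
      apply mul_le_mul_of_nonneg_left _ hNp.le
      calc q ^ k ≤ (1 / 2 : ℝ) ^ k := pow_le_pow_left₀ hq0 hq1 k
        _ ≤ (1 / 2 : ℝ) ^ K := pow_le_pow_of_le_one (by norm_num) (by norm_num) h2
    have h5 : (E ε k N).ncard = 0 := by
      have h6 : ((E ε k N).ncard : ℝ) < 1 := lt_of_le_of_lt h3 h4
      have h7 : (E ε k N).ncard < 1 := by exact_mod_cast h6
      omega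
    exact (Set.ncard_eq_zero (E_fin _ _ _)).1 h5
  set S := {n : ℕ | 1 ≤ n ∧ n ≤ N ∧ ∃ j : ℕ, 1 ≤ j ∧ (m : ℝ) ≤ |(j : ℝ) - n| ∧
        ε * |(j : ℝ) - n| ≤ |gt j - gt n - ((j : ℝ) - n)|} with hS
  set F : ℕ → Finset ℕ := fun i => (E_fin ε (m + i) N).toFinset ∪
    ((E_fin ε (m + i) N).toFinset.image (fun x => x + (m + i))) with hF
  have hcover : S ⊆ ((Finset.range K).biUnion F : Finset ℕ) := by
    rintro n ⟨a1, a2, j, a3, a4, a5⟩
    rcases le_or_gt n j with hnj | hnj
    · obtain ⟨k, hkj⟩ : ∃ k, j = n + k := ⟨j - n, by omega⟩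
      have e1 : (j : ℝ) - n = k := by rw [hkj]; push_cast; ring
      rw [e1, abs_of_nonneg (Nat.cast_nonneg k)] at a4 a5
      have hmk : m ≤ k := by exact_mod_cast a4
      have hmem : n ∈ E ε k N := by
        refine ⟨a1, a2, ?_⟩
        rw [sum_dlt, ← hkj]
        exact a5
      have hkK : k < K := by
        by_contra hcon
        push Not at hcon
        rw [hempty k hmk hcon] at hmem
        exact hmem
      rw [Finset.mem_coe, Finset.mem_biUnion]
      refine ⟨k - m, Finset.mem_range.2 (by omega), ?_⟩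
      simp only [hF, Finset.mem_union, Set.Finite.mem_toFinset]
      left
      rw [show m + (k - m) = k by omega]
      exact hmem
    · obtain ⟨k, hkj⟩ : ∃ k, n = j + k := ⟨n - j, by omega⟩
      have e1 : (j : ℝ) - n = -(k : ℝ) := by rw [hkj]; push_cast; ring
      rw [e1, abs_neg, abs_of_nonneg (Nat.cast_nonneg k)] at a4 a5
      have hmk : m ≤ k := by exact_mod_cast a4
      have hmem : j ∈ E ε k N := by
        refine ⟨a3, by omega, ?_⟩
        rw [sum_dlt, ← hkj]
        have e2 : gt j - gt n - -(k : ℝ) = -(gt n - gt j - k) := by ring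
        rw [e2, abs_neg] at a5
        exact a5
      have hkK : k < K := by
        by_contra hcon
        push Not at hcon
        rw [hempty k hmk hcon] at hmem
        exact hmem
      rw [Finset.mem_coe, Finset.mem_biUnion]
      refine ⟨k - m, Finset.mem_range.2 (by omega), ?_⟩
      simp only [hF, Finset.mem_union, Set.Finite.mem_toFinset, Finset.mem_image]
      right
      rw [show m + (k - m) = k by omega]
      exact ⟨j, hmem, hkj.symm⟩
  have hcard : (S.ncard : ℝ) ≤ ∑ i ∈ Finset.range K, 2 * (N * q ^ (m + i)) := by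
    have h1 : S.ncard ≤ ((Finset.range K).biUnion F).card := by
      rw [← Set.ncard_coe_finset]
      exact Set.ncard_le_ncard hcover (Finset.finite_toSet _)
    have h2 : ((Finset.range K).biUnion F).card ≤ ∑ i ∈ Finset.range K, (F i).card :=
      Finset.card_biUnion_le
    have h3 : ((∑ i ∈ Finset.range K, (F i).card : ℕ) : ℝ) ≤
        ∑ i ∈ Finset.range K, 2 * (N * q ^ (m + i)) := by
      push_cast
      refine Finset.sum_le_sum fun i _ => ?_
      have h4 : (F i).card ≤ 2 * (E ε (m + i) N).ncard := by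
        have h5 : (E_fin ε (m + i) N).toFinset.card = (E ε (m + i) N).ncard :=
          (Set.ncard_eq_toFinset_card _ _).symm
        have h6 : (F i).card ≤ (E_fin ε (m + i) N).toFinset.card +
            ((E_fin ε (m + i) N).toFinset.image (fun x => x + (m + i))).card :=
          Finset.card_union_le _ _
        have h7 := Finset.card_image_le (s := (E_fin ε (m + i) N).toFinset)
          (f := fun x => x + (m + i))
        omega
      have h5 := hk (m + i) (by omega)
      have h6 : ((F i).card : ℝ) ≤ 2 * ((E ε (m + i) N).ncard : ℝ) := by exact_mod_cast h4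
      linarith
    have h4 : (S.ncard : ℝ) ≤ ((∑ i ∈ Finset.range K, (F i).card : ℕ) : ℝ) := by
      exact_mod_cast h1.trans h2
    exact h4.trans h3
  have hgeom : ∑ i ∈ Finset.range K, 2 * (N * q ^ (m + i)) ≤ 4 * (N * q ^ m) := by
    have h1 : ∑ i ∈ Finset.range K, 2 * ((N : ℝ) * q ^ (m + i)) =
        2 * (N * q ^ m) * ∑ i ∈ Finset.range K, q ^ i := by
      rw [Finset.mul_sum]
      refine Finset.sum_congr rfl fun i _ => ?_
      rw [pow_add]
      ring
    have h2 : ∑ i ∈ Finset.range K, q ^ i ≤ 2 :=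
      (Finset.sum_le_sum fun i _ => pow_le_pow_left₀ hq0 hq1 i).trans
        (sum_geometric_two_le K)
    rw [h1]
    have h3 : 0 ≤ 2 * ((N : ℝ) * q ^ m) := by positivity
    nlinarith
  refine (hcard.trans hgeom).trans ?_
  have h5 : 4 * q ^ m ≤ Real.exp (-(c / 2) * m * Real.log m) := by
    have e4 : (4 : ℝ) = Real.exp (Real.log 4) := (Real.exp_log (by norm_num)).symm
    rw [hq, ← Real.exp_nat_mul]
    nth_rewrite 1 [e4]
    rw [← Real.exp_add]
    apply Real.exp_le_exp.2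
    have h1 : Real.log 4 ≤ c / 2 * Real.log m * m := by
      refine hlog.trans ?_
      apply le_mul_of_one_le_right _ hmp
      have : 0 ≤ Real.log m := Real.log_nonneg hmp
      positivity
    linarith
  calc 4 * ((N : ℝ) * q ^ m) = N * (4 * q ^ m) := by ring
    _ ≤ _ := mul_le_mul_of_nonneg_left h5 hNp.le

end Pool.Agent.Y747.Ld
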