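import Pool.Agent.Y747.Piece

/-! A numerical certificate. -/

namespace Pool.Agent.Y747

open Pool.Agent.TH873.EW

lemma np_U01 (p : ℝ) (hp : 0 ≤ p) : 0 ≤ Np (1289 / 2500) (-2281 / 2500) (2019 / 5000) p := by
  have e : Np (1289 / 2500) (-2281 / 2500) (2019 / 5000) p = (2019 / 5000) * (p - (2281 / 2019)) ^ 2 + (2021 / 10095000) := by
    unfold Np
    ring
  rw [e]
  positivity

lemma pl_U01_0 (x : ℝ) (h0 : 0 ≤ x) (h1 : x ≤ (1 / 10)) :
    ((9989 / 10000) - 0 * x) * (1 - x ^ 2) ^ 2 ≤
      2 * (Np (1289 / 2500) (-2281 / 2500) (2019 / 5000) (x ^ 2) * Lp x ^ 2) := by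
  obtain ⟨u, hu⟩ : ∃ u, u = x - 0 := ⟨_, rfl⟩
  obtain ⟨v, hv⟩ : ∃ v, v = (1 / 10) - x := ⟨_, rfl⟩
  have hu0 : 0 ≤ u := by rw [hu]; linarith
  have hv0 : 0 ≤ v := by rw [hv]; linarith
  have e : 2 * (Np (1289 / 2500) (-2281 / 2500) (2019 / 5000) (x ^ 2) * Lp x ^ 2) -
      ((9989 / 10000) - 0 * x) * (1 - x ^ 2) ^ 2 =
      323000000000000 * v ^ 16 +
      5168000000000000 * u * v ^ 15 +
      38438045512000000 * u ^ 2 * v ^ 14 +
      176372637168000000 * u ^ 3 * v ^ 13 +
      558572418117446178 * u ^ 4 * v ^ 12 +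
      1293795884673354136 * u ^ 5 * v ^ 11 +
      (566246417786882952367 / 250) * u ^ 6 * v ^ 10 +
      (76320664504574994367 / 25) * u ^ 7 * v ^ 9 +
      (798815346673720788502843 / 250000) * u ^ 8 * v ^ 8 +
      (81196711511918705492843 / 31250) * u ^ 9 * v ^ 7 +
      (10182633949497333425089631 / 6250000) * u ^ 10 * v ^ 6 +
      (2420048894616666068088693 / 3125000) * u ^ 11 * v ^ 5 +
      (169151081909693542298003777 / 625000000) * u ^ 12 * v ^ 4 +
      (10302033561131792000452777 / 156250000) * u ^ 13 * v ^ 3 +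
      (158347723705242807145856511 / 15625000000) * u ^ 14 * v ^ 2 +
      (6114010292247554777198811 / 7812500000) * u ^ 15 * v +
      (17478168214198836361284459 / 1562500000000) * u ^ 16 := by
    rw [hu, hv]
    unfold Np Lp
    ring
  have h : 0 ≤ 323000000000000 * v ^ 16 +
      5168000000000000 * u * v ^ 15 +
      38438045512000000 * u ^ 2 * v ^ 14 +
      176372637168000000 * u ^ 3 * v ^ 13 +
      558572418117446178 * u ^ 4 * v ^ 12 +
      1293795884673354136 * u ^ 5 * v ^ 11 +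
      (566246417786882952367 / 250) * u ^ 6 * v ^ 10 +
      (76320664504574994367 / 25) * u ^ 7 * v ^ 9 +
      (798815346673720788502843 / 250000) * u ^ 8 * v ^ 8 +
      (81196711511918705492843 / 31250) * u ^ 9 * v ^ 7 +
      (10182633949497333425089631 / 6250000) * u ^ 10 * v ^ 6 +
      (2420048894616666068088693 / 3125000) * u ^ 11 * v ^ 5 +
      (169151081909693542298003777 / 625000000) * u ^ 12 * v ^ 4 +
      (10302033561131792000452777 / 156250000) * u ^ 13 * v ^ 3 +
      (158347723705242807145856511 / 15625000000) * u ^ 14 * v ^ 2 +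
      (6114010292247554777198811 / 7812500000) * u ^ 15 * v +
      (17478168214198836361284459 / 1562500000000) * u ^ 16 := by
    positivity
  rw [← e] at h
  linarith

lemma sg_U01_0 (x : ℝ) (h0 : 0 ≤ x) (h1 : x ≤ (1 / 10)) :
    (3029 / 2000) ≤ (1289 / 2500) + 2 * ct (gk (1289 / 2500) (-2281 / 2500) (2019 / 5000)) x + 0 * (x - 1) := by
  exact piece0 np_U01 (by linarith) (by linarith) (by
      have := pl_U01_0 x h0 h1
      norm_num at this ⊢
      linarith)

lemma sg_U01_1 (x : ℝ) (h0 : (1 / 10) ≤ x) :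
    (1029 / 2000) ≤ (1289 / 2500) + 2 * ct (gk (1289 / 2500) (-2281 / 2500) (2019 / 5000)) x + 0 * (x - 1) := by
  rcases le_total x (1 / 2) with g0 | g0
  · have hr := ct_gk_nonneg np_U01 x
    linarith
  rcases le_total x (8 / 5) with g1 | g1
  · have hr := ct_gk_nonneg np_U01 x
    linarith
  have hr := ct_gk_nonneg np_U01 x
  linarith

end Pool.Agent.Y747
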