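import Pool.Agent.Y747.Piece

/-! A numerical certificate. -/

namespace Pool.Agent.Y747

open Pool.Agent.TH873.EW

lemma np_U25 (p : ℝ) (hp : 0 ≤ p) : 0 ≤ Np (1511 / 2500) (-5111 / 5000) (1081 / 2500) p := by
  have e : Np (1511 / 2500) (-5111 / 5000) (1081 / 2500) p = (1081 / 2500) * (p - (5111 / 4324)) ^ 2 + (2387 / 8648000) := by
    unfold Np
    ring
  rw [e]
  positivity

lemma pl_U25_0 (x : ℝ) (h0 : 0 ≤ x) (h1 : x ≤ (1 / 4)) :
    ((9989 / 10000) - 0 * x) * (1 - x ^ 2) ^ 2 ≤
      2 * (Np (1511 / 2500) (-5111 / 5000) (1081 / 2500) (x ^ 2) * Lp x ^ 2) := by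
  obtain ⟨u, hu⟩ : ∃ u, u = x - 0 := ⟨_, rfl⟩
  obtain ⟨v, hv⟩ : ∃ v, v = (1 / 4) - x := ⟨_, rfl⟩
  have hu0 : 0 ≤ u := by rw [hu]; linarith
  have hv0 : 0 ≤ v := by rw [hv]; linarith
  have e : 2 * (Np (1511 / 2500) (-5111 / 5000) (1081 / 2500) (x ^ 2) * Lp x ^ 2) -
      ((9989 / 10000) - 0 * x) * (1 - x ^ 2) ^ 2 =
      (563446022144 / 625) * v ^ 16 +
      (9015136354304 / 625) * u * v ^ 15 +
      (41836564329791488 / 390625) * u ^ 2 * v ^ 14 +
      (191299685116280832 / 390625) * u ^ 3 * v ^ 13 +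
      (376628499937851072512 / 244140625) * u ^ 4 * v ^ 12 +
      (865981633730285830144 / 244140625) * u ^ 5 * v ^ 11 +
      (7508895661462165724416 / 1220703125) * u ^ 6 * v ^ 10 +
      (2000629316663449303552 / 244140625) * u ^ 7 * v ^ 9 +
      (51615139545996570045792 / 6103515625) * u ^ 8 * v ^ 8 +
      (41271021456349494868736 / 6103515625) * u ^ 9 * v ^ 7 +
      (25365806816520653155124 / 6103515625) * u ^ 10 * v ^ 6 +
      (470871950559439256056 / 244140625) * u ^ 11 * v ^ 5 +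
      (7989647529872453427469 / 12207031250) * u ^ 12 * v ^ 4 +
      (187339263558124952882 / 1220703125) * u ^ 13 * v ^ 3 +
      (2176512378517853902931 / 97656250000) * u ^ 14 * v ^ 2 +
      (74661361793023152819 / 48828125000) * u ^ 15 * v +
      (3495937891088304081 / 781250000000) * u ^ 16 := by
    rw [hu, hv]
    unfold Np Lp
    ring
  have h : 0 ≤ (563446022144 / 625) * v ^ 16 +
      (9015136354304 / 625) * u * v ^ 15 +
      (41836564329791488 / 390625) * u ^ 2 * v ^ 14 +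
      (191299685116280832 / 390625) * u ^ 3 * v ^ 13 +
      (376628499937851072512 / 244140625) * u ^ 4 * v ^ 12 +
      (865981633730285830144 / 244140625) * u ^ 5 * v ^ 11 +
      (7508895661462165724416 / 1220703125) * u ^ 6 * v ^ 10 +
      (2000629316663449303552 / 244140625) * u ^ 7 * v ^ 9 +
      (51615139545996570045792 / 6103515625) * u ^ 8 * v ^ 8 +
      (41271021456349494868736 / 6103515625) * u ^ 9 * v ^ 7 +
      (25365806816520653155124 / 6103515625) * u ^ 10 * v ^ 6 +
      (470871950559439256056 / 244140625) * u ^ 11 * v ^ 5 +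
      (7989647529872453427469 / 12207031250) * u ^ 12 * v ^ 4 +
      (187339263558124952882 / 1220703125) * u ^ 13 * v ^ 3 +
      (2176512378517853902931 / 97656250000) * u ^ 14 * v ^ 2 +
      (74661361793023152819 / 48828125000) * u ^ 15 * v +
      (3495937891088304081 / 781250000000) * u ^ 16 := by
    positivity
  rw [← e] at h
  linarith

lemma sg_U25_0 (x : ℝ) (h0 : 0 ≤ x) (h1 : x ≤ (1 / 4)) :
    (16033 / 10000) ≤ (1511 / 2500) + 2 * ct (gk (1511 / 2500) (-5111 / 5000) (1081 / 2500)) x + 0 * (x - 1) := by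
  exact piece0 np_U25 (by linarith) (by linarith) (by
      have := pl_U25_0 x h0 h1
      norm_num at this ⊢
      linarith)

lemma sg_U25_1 (x : ℝ) (h0 : (1 / 4) ≤ x) :
    (6033 / 10000) ≤ (1511 / 2500) + 2 * ct (gk (1511 / 2500) (-5111 / 5000) (1081 / 2500)) x + 0 * (x - 1) := by
  rcases le_total x (1 / 2) with g0 | g0
  · have hr := ct_gk_nonneg np_U25 x
    linarith
  rcases le_total x (8 / 5) with g1 | g1
  · have hr := ct_gk_nonneg np_U25 x
    linarith
  have hr := ct_gk_nonneg np_U25 x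
  linarith

end Pool.Agent.Y747
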