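import Pool.Agent.Y747.Piece

/-! A numerical certificate. -/

namespace Pool.Agent.Y747

open Pool.Agent.TH873.EW

lemma np_U5 (p : ℝ) (hp : 0 ≤ p) : 0 ≤ Np (10009 / 10000) (-3349 / 2500) (4483 / 10000) p := by
  have e : Np (10009 / 10000) (-3349 / 2500) (4483 / 10000) p = (4483 / 10000) * (p - (6698 / 4483)) ^ 2 + (7143 / 44830000) := by
    unfold Np
    ring
  rw [e]
  positivity

lemma pl_U5_0 (x : ℝ) (h0 : 0 ≤ x) (h1 : x ≤ (1 / 2)) :
    ((2497 / 2500) - 0 * x) * (1 - x ^ 2) ^ 2 ≤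
      2 * (Np (10009 / 10000) (-3349 / 2500) (4483 / 10000) (x ^ 2) * Lp x ^ 2) := by
  obtain ⟨u, hu⟩ : ∃ u, u = x - 0 := ⟨_, rfl⟩
  obtain ⟨v, hv⟩ : ∃ v, v = (1 / 2) - x := ⟨_, rfl⟩
  have hu0 : 0 ≤ u := by rw [hu]; linarith
  have hv0 : 0 ≤ v := by rw [hv]; linarith
  have e : 2 * (Np (10009 / 10000) (-3349 / 2500) (4483 / 10000) (x ^ 2) * Lp x ^ 2) -
      ((2497 / 2500) - 0 * x) * (1 - x ^ 2) ^ 2 =
      (8216576 / 125) * v ^ 16 +
      (131465216 / 125) * u * v ^ 15 +
      (3034705140352 / 390625) * u ^ 2 * v ^ 14 +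
      (13727855964928 / 390625) * u ^ 3 * v ^ 13 +
      (53158866862835809 / 488281250) * u ^ 4 * v ^ 12 +
      (59724986316854854 / 244140625) * u ^ 5 * v ^ 11 +
      (502779243407432904 / 1220703125) * u ^ 6 * v ^ 10 +
      (129164046838027828 / 244140625) * u ^ 7 * v ^ 9 +
      (102090872581125716479 / 195312500000) * u ^ 8 * v ^ 8 +
      (9697471821128359679 / 24414062500) * u ^ 9 * v ^ 7 +
      (1798913534887677093 / 7812500000) * u ^ 10 * v ^ 6 +
      (9765550619565570191 / 97656250000) * u ^ 11 * v ^ 5 +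
      (4921128465866553081 / 156250000000) * u ^ 12 * v ^ 4 +
      (1326652580271499989 / 195312500000) * u ^ 13 * v ^ 3 +
      (701105403206998253 / 781250000000) * u ^ 14 * v ^ 2 +
      (857934019893537 / 15625000000) * u ^ 15 * v +
      (177394395267 / 5000000000) * u ^ 16 := by
    rw [hu, hv]
    unfold Np Lp
    ring
  have h : 0 ≤ (8216576 / 125) * v ^ 16 +
      (131465216 / 125) * u * v ^ 15 +
      (3034705140352 / 390625) * u ^ 2 * v ^ 14 +
      (13727855964928 / 390625) * u ^ 3 * v ^ 13 +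
      (53158866862835809 / 488281250) * u ^ 4 * v ^ 12 +
      (59724986316854854 / 244140625) * u ^ 5 * v ^ 11 +
      (502779243407432904 / 1220703125) * u ^ 6 * v ^ 10 +
      (129164046838027828 / 244140625) * u ^ 7 * v ^ 9 +
      (102090872581125716479 / 195312500000) * u ^ 8 * v ^ 8 +
      (9697471821128359679 / 24414062500) * u ^ 9 * v ^ 7 +
      (1798913534887677093 / 7812500000) * u ^ 10 * v ^ 6 +
      (9765550619565570191 / 97656250000) * u ^ 11 * v ^ 5 +
      (4921128465866553081 / 156250000000) * u ^ 12 * v ^ 4 +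
      (1326652580271499989 / 195312500000) * u ^ 13 * v ^ 3 +
      (701105403206998253 / 781250000000) * u ^ 14 * v ^ 2 +
      (857934019893537 / 15625000000) * u ^ 15 * v +
      (177394395267 / 5000000000) * u ^ 16 := by
    positivity
  rw [← e] at h
  linarith

lemma sg_U5_0 (x : ℝ) (h0 : 0 ≤ x) (h1 : x ≤ (1 / 2)) :
    (19997 / 10000) ≤ (10009 / 10000) + 2 * ct (gk (10009 / 10000) (-3349 / 2500) (4483 / 10000)) x + 0 * (x - 1) := by
  exact piece0 np_U5 (by linarith) (by linarith) (by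
      have := pl_U5_0 x h0 h1
      norm_num at this ⊢
      linarith)

lemma sg_U5_1 (x : ℝ) (h0 : (1 / 2) ≤ x) :
    (9997 / 10000) ≤ (10009 / 10000) + 2 * ct (gk (10009 / 10000) (-3349 / 2500) (4483 / 10000)) x + 0 * (x - 1) := by
  rcases le_total x (8 / 5) with g0 | g0
  · have hr := ct_gk_nonneg np_U5 x
    linarith
  have hr := ct_gk_nonneg np_U5 x
  linarith

end Pool.Agent.Y747
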