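import Mathlib

/-! Taylor bounds for sine and cosine. -/

namespace Pool.Agent.Y747

lemma le_of_deriv_le {F G F' G' : ℝ → ℝ} (hF : ∀ x, HasDerivAt F (F' x) x)
    (hG : ∀ x, HasDerivAt G (G' x) x) (h0 : F 0 ≤ G 0) (h : ∀ x, 0 ≤ x → F' x ≤ G' x) (x : ℝ)
    (hx : 0 ≤ x) : F x ≤ G x := by
  have hm : MonotoneOn (fun x => G x - F x) (Set.Ici 0) := by
    apply monotoneOn_of_deriv_nonneg (convex_Ici 0)
    · exact fun x _ => ((hG x).fun_sub (hF x)).continuousAt.continuousWithinAt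
    · exact fun x _ => ((hG x).fun_sub (hF x)).differentiableAt.differentiableWithinAt
    · intro x hx
      rw [interior_Ici] at hx
      rw [((hG x).fun_sub (hF x)).deriv]
      have := h x (le_of_lt hx)
      linarith
  have := hm (Set.mem_Ici.2 le_rfl) (Set.mem_Ici.2 hx) hx
  simp only at this
  linarith

lemma hasDerivAt_pow' (n : ℕ) (c x : ℝ) : HasDerivAt (fun x : ℝ => c * x ^ (n + 1))
    (c * (n + 1) * x ^ n) x := by
  have := (hasDerivAt_pow (n + 1) x).const_mul c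
  refine this.congr_deriv ?_
  simp
  ring

lemma cos_ge2 (x : ℝ) : 1 - x ^ 2 / 2 ≤ Real.cos x := Real.one_sub_sq_div_two_le_cos

lemma sin_ge3 (x : ℝ) (hx : 0 ≤ x) : x - x ^ 3 / 6 ≤ Real.sin x := by
  refine le_of_deriv_le (F := fun x => x - x ^ 3 / 6) (F' := fun x => 1 - x ^ 2 / 2)
    (fun x => ?_) (fun x => Real.hasDerivAt_sin x) (by simp) (fun x _ => cos_ge2 x) x hx
  have := (hasDerivAt_id x).sub ((hasDerivAt_pow 3 x).div_const 6)
  refine this.congr_deriv ?_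
  simp
  ring

lemma cos_le4 (x : ℝ) (hx : 0 ≤ x) : Real.cos x ≤ 1 - x ^ 2 / 2 + x ^ 4 / 24 := by
  refine le_of_deriv_le (G := fun x => 1 - x ^ 2 / 2 + x ^ 4 / 24)
    (G' := fun x => -(x - x ^ 3 / 6)) (fun x => Real.hasDerivAt_cos x) (fun x => ?_) (by simp)
    (fun x hx => neg_le_neg (sin_ge3 x hx)) x hx
  have := (((hasDerivAt_pow 2 x).div_const 2).const_sub 1).add ((hasDerivAt_pow 4 x).div_const 24)
  refine this.congr_deriv ?_
  simp
  ring

lemma sin_le5 (x : ℝ) (hx : 0 ≤ x) : Real.sin x ≤ x - x ^ 3 / 6 + x ^ 5 / 120 := by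
  refine le_of_deriv_le (G := fun x => x - x ^ 3 / 6 + x ^ 5 / 120)
    (G' := fun x => 1 - x ^ 2 / 2 + x ^ 4 / 24) (fun x => Real.hasDerivAt_sin x)
    (fun x => ?_) (by simp) (fun x hx => cos_le4 x hx) x hx
  have := ((hasDerivAt_id x).sub ((hasDerivAt_pow 3 x).div_const 6)).add
    ((hasDerivAt_pow 5 x).div_const 120)
  refine this.congr_deriv ?_
  simp
  ring

lemma cos_ge6 (x : ℝ) (hx : 0 ≤ x) : 1 - x ^ 2 / 2 + x ^ 4 / 24 - x ^ 6 / 720 ≤ Real.cos x := by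
  refine le_of_deriv_le (F := fun x => 1 - x ^ 2 / 2 + x ^ 4 / 24 - x ^ 6 / 720)
    (F' := fun x => -(x - x ^ 3 / 6 + x ^ 5 / 120)) (fun x => ?_)
    (fun x => Real.hasDerivAt_cos x) (by simp)
    (fun x hx => neg_le_neg (sin_le5 x hx)) x hx
  have := ((((hasDerivAt_pow 2 x).div_const 2).const_sub 1).add
    ((hasDerivAt_pow 4 x).div_const 24)).sub ((hasDerivAt_pow 6 x).div_const 720)
  refine this.congr_deriv ?_
  simp
  ring

lemma sin_ge7 (x : ℝ) (hx : 0 ≤ x) :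
    x - x ^ 3 / 6 + x ^ 5 / 120 - x ^ 7 / 5040 ≤ Real.sin x := by
  refine le_of_deriv_le (F := fun x => x - x ^ 3 / 6 + x ^ 5 / 120 - x ^ 7 / 5040)
    (F' := fun x => 1 - x ^ 2 / 2 + x ^ 4 / 24 - x ^ 6 / 720) (fun x => ?_)
    (fun x => Real.hasDerivAt_sin x) (by simp) (fun x hx => cos_ge6 x hx) x hx
  have := (((hasDerivAt_id x).sub ((hasDerivAt_pow 3 x).div_const 6)).add
    ((hasDerivAt_pow 5 x).div_const 120)).sub ((hasDerivAt_pow 7 x).div_const 5040)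
  refine this.congr_deriv ?_
  simp
  ring

lemma cos_le8 (x : ℝ) (hx : 0 ≤ x) :
    Real.cos x ≤ 1 - x ^ 2 / 2 + x ^ 4 / 24 - x ^ 6 / 720 + x ^ 8 / 40320 := by
  refine le_of_deriv_le (G := fun x => 1 - x ^ 2 / 2 + x ^ 4 / 24 - x ^ 6 / 720 + x ^ 8 / 40320)
    (G' := fun x => -(x - x ^ 3 / 6 + x ^ 5 / 120 - x ^ 7 / 5040))
    (fun x => Real.hasDerivAt_cos x) (fun x => ?_) (by simp)
    (fun x hx => neg_le_neg (sin_ge7 x hx)) x hx
  have := (((((hasDerivAt_pow 2 x).div_const 2).const_sub 1).add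
    ((hasDerivAt_pow 4 x).div_const 24)).sub ((hasDerivAt_pow 6 x).div_const 720)).add
    ((hasDerivAt_pow 8 x).div_const 40320)
  refine this.congr_deriv ?_
  simp
  ring

lemma sin_le9 (x : ℝ) (hx : 0 ≤ x) :
    Real.sin x ≤ x - x ^ 3 / 6 + x ^ 5 / 120 - x ^ 7 / 5040 + x ^ 9 / 362880 := by
  refine le_of_deriv_le (G := fun x => x - x ^ 3 / 6 + x ^ 5 / 120 - x ^ 7 / 5040 + x ^ 9 / 362880)
    (G' := fun x => 1 - x ^ 2 / 2 + x ^ 4 / 24 - x ^ 6 / 720 + x ^ 8 / 40320)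
    (fun x => Real.hasDerivAt_sin x) (fun x => ?_) (by simp) (fun x hx => cos_le8 x hx) x hx
  have := ((((hasDerivAt_id x).sub ((hasDerivAt_pow 3 x).div_const 6)).add
    ((hasDerivAt_pow 5 x).div_const 120)).sub ((hasDerivAt_pow 7 x).div_const 5040)).add
    ((hasDerivAt_pow 9 x).div_const 362880)
  refine this.congr_deriv ?_
  simp
  ring

lemma cos_ge10 (x : ℝ) (hx : 0 ≤ x) :
    1 - x ^ 2 / 2 + x ^ 4 / 24 - x ^ 6 / 720 + x ^ 8 / 40320 - x ^ 10 / 3628800 ≤ Real.cos x := by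
  refine le_of_deriv_le
    (F := fun x => 1 - x ^ 2 / 2 + x ^ 4 / 24 - x ^ 6 / 720 + x ^ 8 / 40320 - x ^ 10 / 3628800)
    (F' := fun x => -(x - x ^ 3 / 6 + x ^ 5 / 120 - x ^ 7 / 5040 + x ^ 9 / 362880))
    (fun x => ?_) (fun x => Real.hasDerivAt_cos x) (by simp)
    (fun x hx => neg_le_neg (sin_le9 x hx)) x hx
  have := ((((((hasDerivAt_pow 2 x).div_const 2).const_sub 1).add
    ((hasDerivAt_pow 4 x).div_const 24)).sub ((hasDerivAt_pow 6 x).div_const 720)).add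
    ((hasDerivAt_pow 8 x).div_const 40320)).sub ((hasDerivAt_pow 10 x).div_const 3628800)
  refine this.congr_deriv ?_
  simp
  ring

lemma sin_ge11 (x : ℝ) (hx : 0 ≤ x) :
    x - x ^ 3 / 6 + x ^ 5 / 120 - x ^ 7 / 5040 + x ^ 9 / 362880 - x ^ 11 / 39916800 ≤
      Real.sin x := by
  refine le_of_deriv_le
    (F := fun x => x - x ^ 3 / 6 + x ^ 5 / 120 - x ^ 7 / 5040 + x ^ 9 / 362880 - x ^ 11 / 39916800)
    (F' := fun x => 1 - x ^ 2 / 2 + x ^ 4 / 24 - x ^ 6 / 720 + x ^ 8 / 40320 - x ^ 10 / 3628800)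
    (fun x => ?_) (fun x => Real.hasDerivAt_sin x) (by simp) (fun x hx => cos_ge10 x hx) x hx
  have := (((((hasDerivAt_id x).sub ((hasDerivAt_pow 3 x).div_const 6)).add
    ((hasDerivAt_pow 5 x).div_const 120)).sub ((hasDerivAt_pow 7 x).div_const 5040)).add
    ((hasDerivAt_pow 9 x).div_const 362880)).sub ((hasDerivAt_pow 11 x).div_const 39916800)
  refine this.congr_deriv ?_
  simp
  ring

end Pool.Agent.Y747
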