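import Pool.Agent.TH873.EW.One
import Pool.Agent.Y747.Sin

/-! The kernel `(c₀ + c₁ x² + c₂ x⁴) sin²(π x) / (π² x² (1 - x²)²)`. -/

open MeasureTheory Filter Topology

namespace Pool.Agent.Y747

open Pool.Agent.TH873.EW

lemma hi1 : HI 1 := ⟨2, by norm_num, by norm_num⟩

/-- the function on `[0,1]` -/
noncomputable def gk (c0 c1 c2 t : ℝ) : ℝ :=
  (c0 / Real.pi ^ 2 * g0 t + 0 * g0 t) +
    ((c0 + c1 + c2) / Real.pi ^ 2 * g2 1 t + (c0 - c2) / Real.pi ^ 2 * g1 1 t)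

lemma cd_gk (c0 c1 c2 : ℝ) : ContDiff ℝ 1 (gk c0 c1 c2) := by
  unfold gk g0 g1 g2
  fun_prop

lemma gk_one (c0 c1 c2 : ℝ) : gk c0 c1 c2 1 = 0 := by
  unfold gk
  rw [g1_one hi1, g2_one hi1]
  unfold g0
  ring

/-- the functional -/
noncomputable def Vf (c0 c1 c2 : ℝ) : ℝ :=
  4 / 3 * c0 + (c0 + c1 + c2) / 2 - (2 * (c0 - c2) + 3 * (c0 + c1 + c2)) / (4 * Real.pi ^ 2)

lemma mom_gk (c0 c1 c2 : ℝ) : mom (gk c0 c1 c2) = Vf c0 c1 c2 := by
  unfold gk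
  rw [mom_lin4 cont_g0 cont_g0 (cont_g2 1) (cont_g1 1), mom_g0, mom_g2 hi1, mom_g1 hi1]
  unfold Vf
  have h : Real.cos (2 * Real.pi * 1) = 1 := by rw [mul_one, Real.cos_two_pi]
  rw [h]
  have := Real.pi_pos
  field_simp
  ring

/-- the polynomial -/
noncomputable def Np (c0 c1 c2 p : ℝ) : ℝ := c0 + c1 * p + c2 * p ^ 2

lemma SS_one (x : ℝ) : SS 1 x = Real.sin (Real.pi * x) ^ 2 := by
  unfold SS
  rw [show Real.pi * (1 - x) = Real.pi - Real.pi * x by ring, Real.sin_pi_sub]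

lemma ct_gk {c0 c1 c2 x : ℝ} (hx : x ≠ 0) (hx1 : 1 - x ^ 2 ≠ 0) : ct (gk c0 c1 c2) x =
    Np c0 c1 c2 (x ^ 2) * Real.sin (Real.pi * x) ^ 2 /
      (Real.pi ^ 2 * x ^ 2 * (1 - x ^ 2) ^ 2) := by
  have h11 : (1 : ℝ) ^ 2 - x ^ 2 ≠ 0 := by rw [one_pow]; exact hx1
  unfold gk
  rw [ct_lin4 cont_g0 cont_g0 (cont_g2 1) (cont_g1 1), ct_g0 hx, ct_g2 hi1 h11, ct_g1 hi1 h11,
    SS_one, one_pow]
  unfold Np
  have := Real.pi_pos
  have hp : x ^ 2 ≠ 0 := pow_ne_zero 2 hx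
  obtain ⟨p, hp'⟩ : ∃ p, p = x ^ 2 := ⟨_, rfl⟩
  rw [← hp'] at hp hx1 ⊢
  field_simp
  ring

lemma ct_gk_cont (c0 c1 c2 : ℝ) : Continuous (ct (gk c0 c1 c2)) :=
  ct_cont (cd_gk c0 c1 c2).continuous

/-- two functions continuous at a point which agree near it agree at it -/
lemma eq_of_punctured {f h : ℝ → ℝ} {a : ℝ} (hf : ContinuousAt f a) (hh : ContinuousAt h a)
    (he : ∀ᶠ x in 𝓝[≠] a, f x = h x) : f a = h a := by
  have h1 : Tendsto f (𝓝[≠] a) (𝓝 (f a)) := hf.tendsto.mono_left nhdsWithin_le_nhds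
  have h2 : Tendsto h (𝓝[≠] a) (𝓝 (h a)) := hh.tendsto.mono_left nhdsWithin_le_nhds
  exact tendsto_nhds_unique (h1.congr' he) h2

/-- formula near `0` -/
lemma ct_gk_zero_form {c0 c1 c2 x : ℝ} (hx : |x| < 1) : ct (gk c0 c1 c2) x =
    Np c0 c1 c2 (x ^ 2) * Real.sinc (Real.pi * x) ^ 2 / (1 - x ^ 2) ^ 2 := by
  have hxsq : x ^ 2 < 1 := by
    rw [← sq_abs]
    have := abs_nonneg x
    nlinarith
  by_cases h0 : x = 0
  · subst h0
    have hc : ContinuousAt (fun x : ℝ => Np c0 c1 c2 (x ^ 2) * Real.sinc (Real.pi * x) ^ 2 /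
        (1 - x ^ 2) ^ 2) 0 := by
      apply ContinuousAt.div
      · unfold Np
        have : Continuous (fun x : ℝ => Real.sinc (Real.pi * x)) :=
          Real.continuous_sinc.comp (by fun_prop)
        fun_prop
      · fun_prop
      · norm_num
    apply eq_of_punctured (h := fun x : ℝ => Np c0 c1 c2 (x ^ 2) * Real.sinc (Real.pi * x) ^ 2 /
        (1 - x ^ 2) ^ 2) (ct_gk_cont c0 c1 c2).continuousAt hc
    have h1 : ∀ᶠ y in 𝓝[≠] (0 : ℝ), y ≠ 0 := self_mem_nhdsWithin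
    have h2 : ∀ᶠ y in 𝓝[≠] (0 : ℝ), |y| < 1 := by
      apply nhdsWithin_le_nhds
      have : ContinuousAt (fun y : ℝ => |y|) 0 := by fun_prop
      exact this.eventually_lt continuousAt_const (by simp)
    filter_upwards [h1, h2] with y hy0 hy1
    have hysq : y ^ 2 < 1 := by
      rw [← sq_abs]
      have := abs_nonneg y
      nlinarith
    rw [ct_gk hy0 (by linarith)]
    have hpi := Real.pi_pos
    rw [Real.sinc_of_ne_zero (by positivity)]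
    have : (1 - y ^ 2) ≠ 0 := by linarith
    field_simp
  · rw [ct_gk h0 (by linarith)]
    have hpi := Real.pi_pos
    rw [Real.sinc_of_ne_zero (mul_ne_zero hpi.ne' h0)]
    have : (1 - x ^ 2) ≠ 0 := by linarith
    field_simp

/-- formula near `1` -/
lemma ct_gk_one_form {c0 c1 c2 x : ℝ} (hx : 0 < x) : ct (gk c0 c1 c2) x =
    Np c0 c1 c2 (x ^ 2) * Real.sinc (Real.pi * (x - 1)) ^ 2 / (x ^ 2 * (1 + x) ^ 2) := by
  have hgen : ∀ y : ℝ, 0 < y → y ≠ 1 → ct (gk c0 c1 c2) y =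
    Np c0 c1 c2 (y ^ 2) * Real.sinc (Real.pi * (y - 1)) ^ 2 / (y ^ 2 * (1 + y) ^ 2) := by
    intro y hy hy1
    have h1 : 1 - y ^ 2 ≠ 0 := by
      have : 1 - y ^ 2 = (1 - y) * (1 + y) := by ring
      rw [this]
      exact mul_ne_zero (sub_ne_zero.2 hy1.symm) (by linarith)
    have hpi := Real.pi_pos
    rw [ct_gk hy.ne' h1, Real.sinc_of_ne_zero (mul_ne_zero hpi.ne' (sub_ne_zero.2 hy1))]
    have h2 : Real.sin (Real.pi * (y - 1)) = -Real.sin (Real.pi * y) := by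
      rw [mul_sub, mul_one, Real.sin_sub_pi]
    rw [h2]
    have h3 : y - 1 ≠ 0 := sub_ne_zero.2 hy1
    have h4 : 1 + y ≠ 0 := by linarith
    have h5 : 1 - y ^ 2 = -((y - 1) * (1 + y)) := by ring
    rw [h5]
    field_simp
  by_cases h1 : x = 1
  · subst h1
    have hc : ContinuousAt (fun x : ℝ => Np c0 c1 c2 (x ^ 2) *
        Real.sinc (Real.pi * (x - 1)) ^ 2 / (x ^ 2 * (1 + x) ^ 2)) 1 := by
      apply ContinuousAt.div
      · unfold Np
        have : Continuous (fun x : ℝ => Real.sinc (Real.pi * (x - 1))) :=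
          Real.continuous_sinc.comp (by fun_prop)
        fun_prop
      · fun_prop
      · norm_num
    apply eq_of_punctured (h := fun x : ℝ => Np c0 c1 c2 (x ^ 2) *
        Real.sinc (Real.pi * (x - 1)) ^ 2 / (x ^ 2 * (1 + x) ^ 2))
        (ct_gk_cont c0 c1 c2).continuousAt hc
    have h2 : ∀ᶠ y in 𝓝[≠] (1 : ℝ), y ≠ 1 := self_mem_nhdsWithin
    have h3 : ∀ᶠ y in 𝓝[≠] (1 : ℝ), 0 < y := nhdsWithin_le_nhds (lt_mem_nhds one_pos)
    filter_upwards [h2, h3] with y hy1 hy0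
    exact hgen y hy0 hy1
  · exact hgen x hx h1

lemma ct_gk_nonneg {c0 c1 c2 : ℝ} (hN : ∀ p : ℝ, 0 ≤ p → 0 ≤ Np c0 c1 c2 p) (x : ℝ) :
    0 ≤ ct (gk c0 c1 c2) x := by
  have key : ∀ y : ℝ, 0 ≤ y → 0 ≤ ct (gk c0 c1 c2) y := by
    intro y hy
    rcases lt_or_ge y 1 with h | h
    · rw [ct_gk_zero_form (by rw [abs_of_nonneg hy]; exact h)]
      have := hN (y ^ 2) (sq_nonneg y)
      positivity
    · rw [ct_gk_one_form (by linarith)]
      have := hN (y ^ 2) (sq_nonneg y)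
      positivity
  rcases le_total 0 x with h | h
  · exact key x h
  · have h2 := key (-x) (by linarith)
    have : ct (gk c0 c1 c2) (-x) = ct (gk c0 c1 c2) x := by
      unfold ct
      congr 1
      apply intervalIntegral.integral_congr
      intro t _
      simp only
      rw [show 2 * Real.pi * -x * t = -(2 * Real.pi * x * t) by ring, Real.cos_neg]
    rwa [this] at h2

lemma ct_gk_zero (c0 c1 c2 : ℝ) : ct (gk c0 c1 c2) 0 = c0 := by
  rw [ct_gk_zero_form (by simp)]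
  simp [Np]

/-- lower bound of `sinc (π x)` -/
noncomputable def Lp (x : ℝ) : ℝ :=
  1 - 164495 / 100000 * x ^ 2 + 81174 / 100000 * x ^ 4 - 19076 / 100000 * x ^ 6

lemma pi_sq_bounds : 9.8696 < Real.pi ^ 2 ∧ Real.pi ^ 2 < 9.8697 := by
  have h1 := Real.pi_gt_d6
  have h2 := Real.pi_lt_d6
  constructor <;> nlinarith

lemma Lp_le (x : ℝ) : Lp x ≤ Real.sinc (Real.pi * x) := by
  have key : ∀ y : ℝ, 0 < y → Lp y ≤ Real.sinc (Real.pi * y) := by
    intro y hy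
    have hpi := Real.pi_pos
    have hz : 0 < Real.pi * y := by positivity
    rw [Real.sinc_of_ne_zero hz.ne', le_div_iff₀ hz]
    refine le_trans ?_ (sin_ge7 _ hz.le)
    obtain ⟨p1, p2⟩ := pi_sq_bounds
    have p4 : (97.4088 : ℝ) ≤ Real.pi ^ 4 := by
      have : Real.pi ^ 4 = (Real.pi ^ 2) ^ 2 := by ring
      rw [this]; nlinarith
    have p6 : Real.pi ^ 6 ≤ 961.4304 := by
      have e : Real.pi ^ 6 = (Real.pi ^ 2) ^ 3 := by ring
      rw [e]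
      have h3 : Real.pi ^ 2 < 9.86965 := by
        have h1 := Real.pi_gt_d6
        have h2 := Real.pi_lt_d6
        nlinarith
      calc (Real.pi ^ 2) ^ 3 ≤ 9.86965 ^ 3 := by gcongr
        _ ≤ 961.4304 := by norm_num
    have hfac : Real.pi * y - (Real.pi * y) ^ 3 / 6 + (Real.pi * y) ^ 5 / 120 -
        (Real.pi * y) ^ 7 / 5040 = (1 - Real.pi ^ 2 / 6 * y ^ 2 + Real.pi ^ 4 / 120 * y ^ 4 -
          Real.pi ^ 6 / 5040 * y ^ 6) * (Real.pi * y) := by ring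
    rw [hfac]
    apply mul_le_mul_of_nonneg_right _ hz.le
    unfold Lp
    have a1 : Real.pi ^ 2 / 6 * y ^ 2 ≤ 164495 / 100000 * y ^ 2 :=
      mul_le_mul_of_nonneg_right (by linarith) (by positivity)
    have a2 : 81174 / 100000 * y ^ 4 ≤ Real.pi ^ 4 / 120 * y ^ 4 :=
      mul_le_mul_of_nonneg_right (by linarith) (by positivity)
    have a3 : Real.pi ^ 6 / 5040 * y ^ 6 ≤ 19076 / 100000 * y ^ 6 :=
      mul_le_mul_of_nonneg_right (by linarith) (by positivity)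
    linarith
  rcases lt_trichotomy x 0 with h | h | h
  · have := key (-x) (by linarith)
    have e1 : Lp (-x) = Lp x := by unfold Lp; ring
    rw [e1, mul_neg, Real.sinc_neg] at this
    exact this
  · subst h
    simp [Lp]
  · exact key x h

/-- lower bound on `[0, 1)` -/
lemma lb_zero {c0 c1 c2 x h : ℝ} (hN : ∀ p : ℝ, 0 ≤ p → 0 ≤ Np c0 c1 c2 p) (hx : 0 ≤ x)
    (hx1 : x < 1) (hL : 0 ≤ Lp x)
    (hh : h * (1 - x ^ 2) ^ 2 ≤ 2 * (Np c0 c1 c2 (x ^ 2) * Lp x ^ 2)) :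
    h ≤ 2 * ct (gk c0 c1 c2) x := by
  rw [ct_gk_zero_form (by rw [abs_of_nonneg hx]; exact hx1)]
  have hp : 0 < (1 - x ^ 2) ^ 2 := by
    have : 0 < 1 - x ^ 2 := by nlinarith
    positivity
  rw [← mul_div_assoc, le_div_iff₀ hp]
  refine hh.trans ?_
  have h1 := hN (x ^ 2) (sq_nonneg x)
  have h2 := Lp_le x
  gcongr

/-- lower bound on `(0, ∞)` -/
lemma lb_one {c0 c1 c2 x h : ℝ} (hN : ∀ p : ℝ, 0 ≤ p → 0 ≤ Np c0 c1 c2 p) (hx : 0 < x)
    (hL : 0 ≤ Lp (x - 1))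
    (hh : h * (x ^ 2 * (1 + x) ^ 2) ≤ 2 * (Np c0 c1 c2 (x ^ 2) * Lp (x - 1) ^ 2)) :
    h ≤ 2 * ct (gk c0 c1 c2) x := by
  rw [ct_gk_one_form hx]
  have hp : 0 < x ^ 2 * (1 + x) ^ 2 := by positivity
  rw [← mul_div_assoc, le_div_iff₀ hp]
  refine hh.trans ?_
  have h1 := hN (x ^ 2) (sq_nonneg x)
  have h2 := Lp_le (x - 1)
  gcongr

lemma Lp_nonneg {x : ℝ} (hx : |x| ≤ 13 / 20) : 0 ≤ Lp x := by
  have h1 : x ^ 2 ≤ (13 / 20) ^ 2 := by
    rw [← sq_abs]; gcongr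
  have h2 : 0 ≤ x ^ 2 := sq_nonneg x
  unfold Lp
  have e4 : x ^ 4 = (x ^ 2) ^ 2 := by ring
  have e6 : x ^ 6 = (x ^ 2) ^ 3 := by ring
  rw [e4, e6]
  set p := x ^ 2
  have h3 : p ≤ 169 / 400 := by norm_num at h1 ⊢; exact h1
  nlinarith [mul_nonneg h2 (sub_nonneg.2 h3), mul_nonneg (mul_nonneg h2 h2) (sub_nonneg.2 h3)]

end Pool.Agent.Y747
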