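import Pool.Agent.Y747.Glob
import Pool.Agent.Y747.Kern

/-! Averages of functions of the normalised gaps. -/

open Filter Topology Set

namespace Pool.Agent.Y747

open SG (ord NZ zmult ZS)
open W200.HW (Ix mem_Ix)
open Pool.Agent.TH873.EW (ct mom XV)

/-- the mean of the normalised gaps is at most `1` -/
lemma sum_dl_le (ε : ℝ) (hε : 0 < ε) :
    ∀ᶠ N : ℕ in atTop, ∑ n ∈ Finset.Icc 1 N, dl n ≤ (1 + ε) * N := by
  wlog hε1 : ε ≤ 1 generalizing ε with H
  · filter_upwards [H 1 one_pos le_rfl] with N hN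
    refine hN.trans ?_
    gcongr
    linarith
  have hpi := Real.pi_gt_three
  have hlim : Tendsto (fun N : ℕ => ord (N + 1)) atTop atTop :=
    SG.ord_tendsto.comp (tendsto_add_atTop_nat 1)
  filter_upwards [W249.TCF.T_le ε hε hε1, hlim.eventually_ge_atTop 10] with N h1 h2
  set T := ord (N + 1) with hT
  have hlog : 0 < Real.log T := Real.log_pos (by linarith)
  have hterm : ∀ n ∈ Finset.Icc 1 N, dl n ≤ (ord (n + 1) - ord n) * (Real.log T / (2 * Real.pi)) := by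
    intro n hn
    rw [Finset.mem_Icc] at hn
    have hp := SG.ord_pos hn.1
    have hd : 0 ≤ ord (n + 1) - ord n := sub_nonneg.2 (SG.ord_mono hn.1 (by omega))
    have hle : ord n ≤ T := SG.ord_mono hn.1 (by omega)
    have hl : Real.log (ord n / (2 * Real.pi)) ≤ Real.log T := by
      apply Real.log_le_log (by positivity)
      refine (div_le_self hp.le (by linarith)).trans hle
    unfold dl
    calc (ord (n + 1) - ord n) / (2 * Real.pi) * Real.log (ord n / (2 * Real.pi)) ≤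
        (ord (n + 1) - ord n) / (2 * Real.pi) * Real.log T := by gcongr
      _ = _ := by ring
  have htel : ∀ M : ℕ, ∑ n ∈ Finset.Icc 1 M, (ord (n + 1) - ord n) = ord (M + 1) - ord 1 := by
    intro M
    induction M with
    | zero => simp
    | succ M ih =>
      rw [Finset.sum_Icc_succ_top (by omega), ih]
      ring
  refine (Finset.sum_le_sum hterm).trans ?_
  rw [← Finset.sum_mul, htel]
  refine le_trans ?_ h1
  have h3 : 0 < ord 1 := SG.ord_pos le_rfl
  have h4 : (T - ord 1) * (Real.log T / (2 * Real.pi)) ≤ T * (Real.log T / (2 * Real.pi)) := by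
    apply mul_le_mul_of_nonneg_right _ (by positivity)
    linarith
  refine h4.trans (le_of_eq ?_)
  ring

lemma dl_nonneg : ∃ n0 : ℕ, ∀ n : ℕ, n0 ≤ n → 0 ≤ dl n := by
  have hpi := Real.pi_gt_three
  obtain ⟨n0, h⟩ := (SG.ord_tendsto.eventually_ge_atTop (2 * Real.pi)).exists_forall_of_atTop
  refine ⟨max 1 n0, fun n hn => ?_⟩
  have h1 := h n ((le_max_right _ _).trans hn)
  have h2 : 1 ≤ n := (le_max_left _ _).trans hn
  unfold dl
  apply mul_nonneg
  · apply div_nonneg _ (by positivity)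
    exact sub_nonneg.2 (SG.ord_mono h2 (by omega))
  · apply Real.log_nonneg
    rw [le_div_iff₀ (by positivity)]
    linarith

/-- averages of a function below `r(0) + 2 r(x) + lam (x - 1)` -/
theorem avg (hRH : RiemannHypothesis) {g : ℝ → ℝ} (hg : ContDiff ℝ 1 g) (h1 : g 1 = 0)
    (hpos : ∀ x, 0 ≤ ct g x) {lam : ℝ} (hlam : 0 ≤ lam) {φ : ℝ → ℝ}
    (hφ : ∀ x, 0 ≤ x → φ x ≤ ct g 0 + 2 * ct g x + lam * (x - 1)) (ε : ℝ) (hε : 0 < ε) :
    ∀ᶠ N : ℕ in atTop, ∑ n ∈ Finset.Icc 1 N, φ (dl n) ≤ (mom g + ε) * N := by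
  obtain ⟨n0, hn0⟩ := dl_nonneg
  set D : ℕ → ℝ := fun n => φ (dl n) - (ct g 0 + 2 * ct g (dl n) + lam * (dl n - 1)) with hD
  set K : ℝ := ∑ n ∈ Finset.range n0, |D n| with hK
  have hKD : ∀ N : ℕ, ∑ n ∈ Finset.Icc 1 N, D n ≤ K := by
    intro N
    have h2 : ∀ n ∈ Finset.Icc 1 N, D n ≤ if n ∈ Finset.range n0 then |D n| else 0 := by
      intro n _
      split_ifs with h
      · exact le_abs_self _
      · rw [Finset.mem_range, not_lt] at h
        simp only [hD]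
        have := hφ (dl n) (hn0 n h)
        linarith
    refine (Finset.sum_le_sum h2).trans ?_
    rw [← Finset.sum_filter]
    apply Finset.sum_le_sum_of_subset_of_nonneg
    · intro n hn
      exact (Finset.mem_filter.1 hn).2
    · intro n _ _
      exact abs_nonneg _
  have ev : ∀ᶠ N : ℕ in atTop, K / (ε / 3) ≤ (N : ℝ) :=
    tendsto_natCast_atTop_atTop.eventually_ge_atTop _
  filter_upwards [main hRH hg h1 hpos (ε / 3) (by positivity),
    sum_dl_le (ε / (3 * (lam + 1))) (by positivity), ev] with N h2 h3 h4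
  have h5 := hKD N
  rw [div_le_iff₀ (by positivity)] at h4
  have e1 : ∑ n ∈ Finset.Icc 1 N, φ (dl n) = ∑ n ∈ Finset.Icc 1 N, D n +
      (∑ n ∈ Finset.Icc 1 N, (ct g 0 + 2 * ct g (dl n)) +
        lam * (∑ n ∈ Finset.Icc 1 N, dl n - N)) := by
    have e2 : (N : ℝ) = ∑ n ∈ Finset.Icc 1 N, (1 : ℝ) := by simp
    rw [e2, ← Finset.sum_sub_distrib, Finset.mul_sum, ← Finset.sum_add_distrib,
      ← Finset.sum_add_distrib]
    apply Finset.sum_congr rfl
    intro n _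
    simp only [hD]
    ring
  rw [e1]
  have h6 : lam * (∑ n ∈ Finset.Icc 1 N, dl n - N) ≤ ε / 3 * N := by
    have h7 : ∑ n ∈ Finset.Icc 1 N, dl n - N ≤ ε / (3 * (lam + 1)) * N := by linarith
    calc lam * (∑ n ∈ Finset.Icc 1 N, dl n - N) ≤ lam * (ε / (3 * (lam + 1)) * N) := by gcongr
      _ = (lam / (lam + 1)) * (ε / 3 * N) := by field_simp
      _ ≤ 1 * (ε / 3 * N) := by
        apply mul_le_mul_of_nonneg_right _ (by positivity)
        rw [div_le_one (by positivity)]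
        linarith
      _ = _ := one_mul _
  linarith

/-- lower bounds for proportions -/
theorem prop_ge (hRH : RiemannHypothesis) {c0 c1 c2 lam κ : ℝ}
    (hN : ∀ p : ℝ, 0 ≤ p → 0 ≤ Np c0 c1 c2 p) (hlam : 0 ≤ lam) (I : Set ℝ)
    (h1 : ∀ x, 0 ≤ x → κ - 1 ≤ c0 + 2 * ct (gk c0 c1 c2) x + lam * (x - 1))
    (h2 : ∀ x, 0 ≤ x → x ∉ I → κ ≤ c0 + 2 * ct (gk c0 c1 c2) x + lam * (x - 1))
    {θ : ℝ} (hθ : θ < κ - Vf c0 c1 c2) :
    ∀ᶠ N : ℕ in atTop, θ * N ≤ ({n : ℕ | 1 ≤ n ∧ n ≤ N ∧ dl n ∈ I}.ncard : ℝ) := by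
  classical
  have h := avg hRH (cd_gk c0 c1 c2) (gk_one c0 c1 c2) (ct_gk_nonneg hN) hlam
    (φ := fun x => κ - if x ∈ I then 1 else 0) (fun x hx => by
      rw [ct_gk_zero]
      split_ifs with hI
      · exact h1 x hx
      · rw [sub_zero]; exact h2 x hx hI) (κ - Vf c0 c1 c2 - θ) (by linarith)
  rw [mom_gk] at h
  filter_upwards [h] with N hN
  rw [Finset.sum_sub_distrib, Finset.sum_const, Nat.card_Icc, Nat.add_sub_cancel, nsmul_eq_mul,
    ← Finset.sum_filter, Finset.sum_const, nsmul_eq_mul, mul_one] at hN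
  have e : ({n : ℕ | 1 ≤ n ∧ n ≤ N ∧ dl n ∈ I}.ncard : ℝ) =
      (((Finset.Icc 1 N).filter (fun n => dl n ∈ I)).card : ℝ) := by
    rw [← Set.ncard_coe_finset]
    congr 2
    ext n
    simp [and_assoc]
  rw [e]
  linarith

/-- upper bounds for proportions -/
theorem prop_le (hRH : RiemannHypothesis) {c0 c1 c2 lam κ : ℝ}
    (hN : ∀ p : ℝ, 0 ≤ p → 0 ≤ Np c0 c1 c2 p) (hlam : 0 ≤ lam) (I : Set ℝ)
    (h1 : ∀ x, 0 ≤ x → κ ≤ c0 + 2 * ct (gk c0 c1 c2) x + lam * (x - 1))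
    (h2 : ∀ x, 0 ≤ x → x ∈ I → κ + 1 ≤ c0 + 2 * ct (gk c0 c1 c2) x + lam * (x - 1))
    {θ : ℝ} (hθ : Vf c0 c1 c2 - κ < θ) :
    ∀ᶠ N : ℕ in atTop, ({n : ℕ | 1 ≤ n ∧ n ≤ N ∧ dl n ∈ I}.ncard : ℝ) ≤ θ * N := by
  classical
  have h := avg hRH (cd_gk c0 c1 c2) (gk_one c0 c1 c2) (ct_gk_nonneg hN) hlam
    (φ := fun x => κ + if x ∈ I then 1 else 0) (fun x hx => by
      rw [ct_gk_zero]
      split_ifs with hI
      · exact h2 x hx hI
      · rw [add_zero]; exact h1 x hx) (θ - (Vf c0 c1 c2 - κ)) (by linarith)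
  rw [mom_gk] at h
  filter_upwards [h] with N hN
  rw [Finset.sum_add_distrib, Finset.sum_const, Nat.card_Icc, Nat.add_sub_cancel, nsmul_eq_mul,
    ← Finset.sum_filter, Finset.sum_const, nsmul_eq_mul, mul_one] at hN
  have e : ({n : ℕ | 1 ≤ n ∧ n ≤ N ∧ dl n ∈ I}.ncard : ℝ) =
      (((Finset.Icc 1 N).filter (fun n => dl n ∈ I)).card : ℝ) := by
    rw [← Set.ncard_coe_finset]
    congr 2
    ext n
    simp [and_assoc]
  rw [e]
  linarith

end Pool.Agent.Y747
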