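import Pool.Agent.Y747.Sh
import Pool.Agent.H382P.Mert

/-! Arithmetic of the coefficients. -/

open Complex Filter Topology Set MeasureTheory

namespace Pool.Agent.Y747

open TC

/-- the coefficients supported on the primes -/
noncomputable def al (F : ℝ → ℝ) (L : ℝ) (n : ℕ) : ℝ :=
  if n.Prime then lam n / L * F (Real.log n / L) else 0

lemma al_nonneg {F : ℝ → ℝ} (hF : ∀ u, 0 ≤ F u) {L : ℝ} (hL : 0 < L) (n : ℕ) : 0 ≤ al F L n := by
  unfold al
  split_ifs
  · exact mul_nonneg (div_nonneg (lam_nonneg n) hL.le) (hF _)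
  · exact le_rfl

lemma al_abs {F : ℝ → ℝ} (hF : ∀ u, 0 ≤ F u) {k : ℝ} (hk : ∀ u, F u ≤ k) {L : ℝ} (hL : 0 < L)
    (n : ℕ) : |al F L n| ≤ 2 * k / (2 * L) * lam n := by
  have hk0 : 0 ≤ k := (hF 0).trans (hk 0)
  rw [abs_of_nonneg (al_nonneg hF hL n)]
  have e : 2 * k / (2 * L) * lam n = lam n / L * k := by
    field_simp
  rw [e]
  unfold al
  split_ifs
  · exact mul_le_mul_of_nonneg_left (hk _) (div_nonneg (lam_nonneg n) hL.le)
  · exact mul_nonneg (div_nonneg (lam_nonneg n) hL.le) hk0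

lemma lam_prime {p : ℕ} (hp : p.Prime) : lam p ^ 2 = Real.log p ^ 2 / p := by
  rw [lam_sq, ArithmeticFunction.vonMangoldt_apply_prime hp]

/-- reduction of sums over the support to sums over all primes -/
lemma sum_reduce {b T : ℝ} (hb : 0 < b) (hb1 : b ≤ 1 / 2) (hT : 10 ≤ T) {G : ℕ → ℝ}
    (hG : ∀ n : ℕ, ¬ n.Prime → G n = 0) (hG2 : ∀ n : ℕ, b ≤ Real.log n / Real.log T → G n = 0) :
    ∑ n ∈ Finset.Icc 2 ⌊T ^ b⌋₊, G n =
      ∑ p ∈ (Finset.Icc 1 ⌊T⌋₊).filter Nat.Prime, G p := by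
  have hT0 : 0 < T := by linarith
  have hL : 0 < Real.log T := Real.log_pos (by linarith)
  have hsub : Finset.Icc 2 ⌊T ^ b⌋₊ ⊆ Finset.Icc 1 ⌊T⌋₊ := by
    intro n hn
    rw [Finset.mem_Icc] at hn ⊢
    refine ⟨by omega, hn.2.trans (Nat.floor_le_floor ?_)⟩
    conv_rhs => rw [← Real.rpow_one T]
    exact Real.rpow_le_rpow_of_exponent_le (by linarith) (by linarith)
  rw [Finset.sum_filter]
  rw [← Finset.sum_subset hsub (f := fun n => if n.Prime then G n else 0)]
  · apply Finset.sum_congr rfl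
    intro n _
    split_ifs with h
    · rfl
    · exact hG n h
  · intro n hn hn2
    split_ifs with h
    · apply hG2
      rw [Finset.mem_Icc] at hn hn2
      have h2 : 2 ≤ n := h.two_le
      have h3 : ⌊T ^ b⌋₊ < n := by
        by_contra hc
        exact hn2 ⟨h2, not_lt.1 hc⟩
      have h4 : T ^ b < n := (Nat.floor_lt (by positivity)).1 h3
      have h5 := Real.log_le_log (by positivity) h4.le
      rw [Real.log_rpow hT0] at h5
      rwa [le_div_iff₀ hL]
    · rfl

/-- the variance of the polynomial -/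
lemma al_sq {F : ℝ → ℝ} {b : ℝ} (hb : 0 < b) (hb1 : b ≤ 1 / 2) (hFs : ∀ u, b ≤ u → F u = 0)
    {K : NNReal} (hK : LipschitzWith K (fun u : ℝ => ((u * F u ^ 2 : ℝ) : ℂ))) (η : ℝ)
    (hη : 0 < η) : ∃ T1 : ℝ, ∀ T : ℝ, T1 ≤ T →
    |(∑ n ∈ Finset.Icc 2 ⌊T ^ b⌋₊, (al F (Real.log T) n) ^ 2) - ∫ u in (0 : ℝ)..1, u * F u ^ 2| ≤
      η := by
  obtain ⟨C, hC, h⟩ := SP.mert (fun u : ℝ => ((u * F u ^ 2 : ℝ) : ℂ)) K hK (fun u hu => by
    rw [hFs u (by linarith)]; simp)
  have ev : ∀ᶠ T : ℝ in atTop, C / η ≤ Real.log T := Real.tendsto_log_atTop.eventually_ge_atTop _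
  obtain ⟨T1, hT1⟩ := eventually_atTop.1 (ev.and (eventually_ge_atTop 10))
  refine ⟨T1, fun T hT => ?_⟩
  obtain ⟨h1, h2⟩ := hT1 T hT
  have hL : 0 < Real.log T := Real.log_pos (by linarith)
  have h3 := h T h2
  rw [sum_reduce hb hb1 h2 (G := fun n => (al F (Real.log T) n) ^ 2)
    (fun n hn => by simp [al, hn]) (fun n hn => by
      unfold al
      rw [hFs _ hn]
      simp)]
  have e1 : ∑ p ∈ (Finset.Icc 1 ⌊T⌋₊).filter Nat.Prime, (al F (Real.log T) p) ^ 2 =
      (1 / Real.log T) * ∑ p ∈ (Finset.Icc 1 ⌊T⌋₊).filter Nat.Prime,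
        (Real.log p / p) * (Real.log p / Real.log T * F (Real.log p / Real.log T) ^ 2) := by
    rw [Finset.mul_sum]
    apply Finset.sum_congr rfl
    intro p hp
    have hpp := (Finset.mem_filter.1 hp).2
    unfold al
    rw [if_pos hpp, mul_pow, div_pow, lam_prime hpp]
    have : (p : ℝ) ≠ 0 := by exact_mod_cast hpp.ne_zero
    field_simp
  have e2 : ((1 / Real.log T : ℝ) : ℂ) * ∑ p ∈ (Finset.Icc 1 ⌊T⌋₊).filter Nat.Prime,
      ((Real.log p / p : ℝ) : ℂ) * ((Real.log p / Real.log T * F (Real.log p / Real.log T) ^ 2 : ℝ) : ℂ) -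
        ∫ u in (0 : ℝ)..1, ((u * F u ^ 2 : ℝ) : ℂ) =
      (((∑ p ∈ (Finset.Icc 1 ⌊T⌋₊).filter Nat.Prime, (al F (Real.log T) p) ^ 2) -
        ∫ u in (0 : ℝ)..1, u * F u ^ 2 : ℝ) : ℂ) := by
    rw [e1, intervalIntegral.integral_ofReal]
    push_cast
    rfl
  rw [e2, Complex.norm_real, Real.norm_eq_abs] at h3
  refine h3.trans ?_
  rw [div_le_iff₀ hL]
  rw [div_le_iff₀ hη] at h1
  linarith

/-- the correlation with the zeros -/
lemma al_cor {F : ℝ → ℝ} {b k : ℝ} (hb : 0 < b) (hb1 : b ≤ 1 / 2) (hF : ∀ u, 0 ≤ F u)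
    (hk : ∀ u, F u ≤ k) (hFs : ∀ u, b ≤ u → F u = 0)
    {K : NNReal} (hK : LipschitzWith K (fun u : ℝ => ((F u * Real.sin (Real.pi * u) : ℝ) : ℂ)))
    (η : ℝ) (hη : 0 < η) : ∃ T1 : ℝ, ∀ T : ℝ, T1 ≤ T →
    (∫ u in (0 : ℝ)..1, F u * Real.sin (Real.pi * u)) - η ≤
      Rq (al F (Real.log T)) ⌊T ^ b⌋₊ (Real.log T) (Real.pi / Real.log T) := by
  obtain ⟨C, hC, h⟩ := SP.mert (fun u : ℝ => ((F u * Real.sin (Real.pi * u) : ℝ) : ℂ)) K hK
    (fun u hu => by rw [hFs u (by linarith)]; simp)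
  set K1 := ∑' n : ℕ, lam n ^ 2 * Real.exp (-(Real.log n) ^ 2 / 2) with hK1
  have hK10 : 0 ≤ K1 := tsum_nonneg fun n => by positivity
  have hk0 : 0 ≤ k := (hF 0).trans (hk 0)
  have hpi := Real.pi_pos
  have ev : ∀ᶠ T : ℝ in atTop, max 1 ((C + 2 * k * Real.pi * K1) / η) ≤ Real.log T :=
    Real.tendsto_log_atTop.eventually_ge_atTop _
  obtain ⟨T1, hT1⟩ := eventually_atTop.1 (ev.and (eventually_ge_atTop 10))
  refine ⟨T1, fun T hT => ?_⟩
  obtain ⟨h1, h2⟩ := hT1 T hT
  have hL1 : 1 ≤ Real.log T := (le_max_left _ _).trans h1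
  have h1' := (le_max_right _ _).trans h1
  have hL : 0 < Real.log T := by linarith
  set L := Real.log T with hLdef
  have h3 := h T h2
  have e0 : Rq (al F L) ⌊T ^ b⌋₊ L (Real.pi / L) =
      ∑ p ∈ (Finset.Icc 1 ⌊T⌋₊).filter Nat.Prime,
        al F L p * qf L p * (Real.sin (Real.pi / L * Real.log p) / Real.log p) := by
    unfold Rq
    exact sum_reduce hb hb1 h2 (G := fun n => al F L n * qf L n *
      (Real.sin (Real.pi / L * Real.log n) / Real.log n))
      (fun n hn => by simp [al, hn]) (fun n hn => by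
        unfold al
        rw [hFs _ hn]
        simp)
  rw [e0]
  have e1 : ∀ p ∈ (Finset.Icc 1 ⌊T⌋₊).filter Nat.Prime,
      (1 / L) * ((Real.log p / p) * (F (Real.log p / L) * Real.sin (Real.pi * (Real.log p / L)))) -
      2 * k * Real.pi / L ^ 2 * (lam p ^ 2 * Real.exp (-(Real.log p) ^ 2 / 2)) ≤
      al F L p * qf L p * (Real.sin (Real.pi / L * Real.log p) / Real.log p) := by
    intro p hp
    have hpp := (Finset.mem_filter.1 hp).2
    have hp2 : (2 : ℝ) ≤ p := by exact_mod_cast hpp.two_le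
    have hlp : 0 < Real.log p := Real.log_pos (by linarith)
    have hp0 : (p : ℝ) ≠ 0 := by linarith
    by_cases hbig : b ≤ Real.log p / L
    · unfold al
      rw [hFs _ hbig]
      simp only [zero_mul, mul_zero, ite_self, zero_sub]
      have : 0 ≤ 2 * k * Real.pi / L ^ 2 * (lam p ^ 2 * Real.exp (-(Real.log p) ^ 2 / 2)) := by
        positivity
      linarith
    · rw [not_le] at hbig
      have hlpL : Real.log p ≤ L / 2 := by
        rw [div_lt_iff₀ hL] at hbig
        have : b * L ≤ 1 / 2 * L := by gcongr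
        linarith
      have hW := Sum2.W_tail (L := Real.log p) (ℓ := L) hlp.le (by linarith)
      have hQ1 := gs_int_le_one (a := 0) (b := L) hL.le (Real.log p)
      set Q := ∫ u in (0 : ℝ)..L, gs (u - Real.log p) with hQ
      have hexp : Real.exp (-(L - Real.log p) ^ 2 / 2) ≤ Real.exp (-(Real.log p) ^ 2 / 2) := by
        apply Real.exp_le_exp.2
        have : (Real.log p) ^ 2 ≤ (L - Real.log p) ^ 2 :=
          pow_le_pow_left₀ hlp.le (by linarith) 2
        linarith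
      set E := Real.exp (-(Real.log p) ^ 2 / 2) with hE
      have hE0 : 0 < E := Real.exp_pos _
      have hQE : 1 - 2 * E ≤ Q := by linarith
      have hal : al F L p = lam p / L * F (Real.log p / L) := by
        unfold al
        rw [if_pos hpp]
      have hqf : qf L p = lam p * Q := rfl
      have hx : Real.pi / L * Real.log p = Real.pi * (Real.log p / L) := by ring
      rw [hal, hqf, hx]
      set u := Real.log p / L with hu
      have hu0 : 0 ≤ u := by positivity
      have hu1 : u ≤ 1 := by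
        rw [hu, div_le_one hL]
        linarith
      have hsin0 : 0 ≤ Real.sin (Real.pi * u) := by
        apply Real.sin_nonneg_of_nonneg_of_le_pi (by positivity)
        calc Real.pi * u ≤ Real.pi * 1 := by gcongr
          _ = Real.pi := mul_one _
      have hsin1 : Real.sin (Real.pi * u) ≤ Real.pi * u := Real.sin_le (by positivity)
      have hFu := hF u
      have hlam := lam_prime hpp
      have e2 : lam p / L * F u * (lam p * Q) * (Real.sin (Real.pi * u) / Real.log p) =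
          (1 / L) * ((Real.log p / p) * (F u * Real.sin (Real.pi * u))) * Q := by
        have : lam p / L * F u * (lam p * Q) * (Real.sin (Real.pi * u) / Real.log p) =
          lam p ^ 2 / L * F u * Q * (Real.sin (Real.pi * u) / Real.log p) := by ring
        rw [this, hlam]
        field_simp
      rw [e2]
      set M := (1 / L) * ((Real.log p / p) * (F u * Real.sin (Real.pi * u))) with hM
      have hM0 : 0 ≤ M := by
        rw [hM]
        have : 0 ≤ F u * Real.sin (Real.pi * u) := mul_nonneg hFu hsin0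
        positivity
      have hM1 : M ≤ k * Real.pi / L ^ 2 * lam p ^ 2 := by
        rw [hM, hlam]
        have h5 : F u * Real.sin (Real.pi * u) ≤ k * (Real.pi * u) :=
          mul_le_mul (hk u) hsin1 hsin0 hk0
        calc (1 / L) * ((Real.log p / p) * (F u * Real.sin (Real.pi * u))) ≤
            (1 / L) * ((Real.log p / p) * (k * (Real.pi * u))) := by gcongr
          _ = k * Real.pi / L ^ 2 * (Real.log p ^ 2 / p) := by
            rw [hu]
            field_simp
      have h6 : M * (1 - 2 * E) ≤ M * Q := mul_le_mul_of_nonneg_left hQE hM0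
      have h7 : 2 * E * M ≤ 2 * E * (k * Real.pi / L ^ 2 * lam p ^ 2) := by gcongr
      have h8 : 2 * k * Real.pi / L ^ 2 * (lam p ^ 2 * E) =
          2 * E * (k * Real.pi / L ^ 2 * lam p ^ 2) := by ring
      rw [h8]
      linarith
  have h4 := Finset.sum_le_sum e1
  rw [Finset.sum_sub_distrib, ← Finset.mul_sum, ← Finset.mul_sum] at h4
  have h5 : ∑ p ∈ (Finset.Icc 1 ⌊T⌋₊).filter Nat.Prime,
      (lam p ^ 2 * Real.exp (-(Real.log p) ^ 2 / 2)) ≤ K1 :=
    Sum2.K1_summable.sum_le_tsum _ (fun n _ => by positivity)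
  have e2 : ((1 / L : ℝ) : ℂ) * ∑ p ∈ (Finset.Icc 1 ⌊T⌋₊).filter Nat.Prime,
      ((Real.log p / p : ℝ) : ℂ) * ((F (Real.log p / L) * Real.sin (Real.pi * (Real.log p / L)) : ℝ) : ℂ) -
        ∫ u in (0 : ℝ)..1, ((F u * Real.sin (Real.pi * u) : ℝ) : ℂ) =
      (((1 / L) * (∑ p ∈ (Finset.Icc 1 ⌊T⌋₊).filter Nat.Prime,
        (Real.log p / p) * (F (Real.log p / L) * Real.sin (Real.pi * (Real.log p / L)))) -
        ∫ u in (0 : ℝ)..1, F u * Real.sin (Real.pi * u) : ℝ) : ℂ) := by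
    rw [intervalIntegral.integral_ofReal]
    push_cast
    rfl
  rw [e2, Complex.norm_real, Real.norm_eq_abs] at h3
  have h6 := (abs_le.1 h3).1
  have h7 : 2 * k * Real.pi / L ^ 2 * (∑ p ∈ (Finset.Icc 1 ⌊T⌋₊).filter Nat.Prime,
      (lam p ^ 2 * Real.exp (-(Real.log p) ^ 2 / 2))) ≤ 2 * k * Real.pi * K1 / L := by
    calc 2 * k * Real.pi / L ^ 2 * (∑ p ∈ (Finset.Icc 1 ⌊T⌋₊).filter Nat.Prime,
      (lam p ^ 2 * Real.exp (-(Real.log p) ^ 2 / 2))) ≤ 2 * k * Real.pi / L ^ 2 * K1 := by gcongr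
      _ ≤ 2 * k * Real.pi / L * K1 := by
        apply mul_le_mul_of_nonneg_right _ hK10
        apply div_le_div_of_nonneg_left (by positivity) hL
        nlinarith
      _ = _ := by ring
  have h8 : C / L + 2 * k * Real.pi * K1 / L ≤ η := by
    rw [← add_div, div_le_iff₀ hL]
    rw [div_le_iff₀ hη] at h1'
    linarith
  linarith

end Pool.Agent.Y747
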