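import Pool.Agent.TH873.EW.Fam

/-! Decay and scaling of the cosine transform of a `C¹` function on `[0,1]`. -/

open MeasureTheory Filter Topology

namespace Pool.Agent.Y747

open Pool.Agent.TH873.EW

lemma ct_decay {g : ℝ → ℝ} (hg : ContDiff ℝ 1 g) (h1 : g 1 = 0) :
    ∃ C : ℝ, 0 < C ∧ ∀ x : ℝ, 0 < x → |ct g x| ≤ C / x := by
  have hd : Continuous (deriv g) := hg.continuous_deriv le_rfl
  obtain ⟨M, hM⟩ := isCompact_Icc.exists_bound_of_continuousOn (s := Set.Icc (0 : ℝ) 1)
    hd.continuousOn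
  refine ⟨|M| + 1, by positivity, fun x hx => ?_⟩
  have hpi := Real.pi_gt_three
  have hc : 0 < 2 * Real.pi * x := by positivity
  have hu : ∀ t ∈ Set.uIcc (0 : ℝ) 1, HasDerivAt g (deriv g t) t := fun t _ =>
    (hg.differentiable one_ne_zero t).hasDerivAt
  have hv : ∀ t ∈ Set.uIcc (0 : ℝ) 1,
      HasDerivAt (fun t => Real.sin (2 * Real.pi * x * t) / (2 * Real.pi * x))
      (Real.cos (2 * Real.pi * x * t)) t := by
    intro t _
    have h1 : HasDerivAt (fun t : ℝ => 2 * Real.pi * x * t) (2 * Real.pi * x) t := by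
      simpa using (hasDerivAt_id t).const_mul (2 * Real.pi * x)
    have h2 := h1.sin.div_const (2 * Real.pi * x)
    refine h2.congr_deriv ?_
    field_simp
  have hcos : Continuous fun t : ℝ => Real.cos (2 * Real.pi * x * t) := by fun_prop
  have hparts := intervalIntegral.integral_mul_deriv_eq_deriv_mul hu hv
    (hd.intervalIntegrable _ _) (hcos.intervalIntegrable _ _)
  have hb : ‖∫ t in (0 : ℝ)..1, deriv g t * (Real.sin (2 * Real.pi * x * t) / (2 * Real.pi * x))‖ ≤
      (|M| / (2 * Real.pi * x)) * |1 - 0| := by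
    apply intervalIntegral.norm_integral_le_of_norm_le_const
    intro t ht
    rw [Set.uIoc_of_le zero_le_one] at ht
    rw [norm_mul, norm_div, Real.norm_of_nonneg hc.le]
    have h2 := (hM t ⟨ht.1.le, ht.2⟩).trans (le_abs_self M)
    have h3 : ‖Real.sin (2 * Real.pi * x * t)‖ ≤ 1 := by
      rw [Real.norm_eq_abs]; exact Real.abs_sin_le_one _
    rw [div_eq_mul_one_div |M|]
    gcongr
  unfold ct
  rw [hparts, h1]
  simp only [zero_mul, mul_zero, Real.sin_zero, zero_div, sub_zero, zero_sub]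
  rw [abs_mul, abs_neg, abs_of_pos (two_pos : (0 : ℝ) < 2)]
  rw [Real.norm_eq_abs, sub_zero, abs_one, mul_one] at hb
  calc 2 * _ ≤ 2 * (|M| / (2 * Real.pi * x)) := by gcongr
    _ = |M| / (Real.pi * x) := by field_simp
    _ ≤ |M| / x := by
      apply div_le_div_of_nonneg_left (abs_nonneg _) hx
      nlinarith
    _ ≤ (|M| + 1) / x := by gcongr; linarith

lemma ct_bound {g : ℝ → ℝ} (hg : Continuous g) : ∃ C : ℝ, 0 < C ∧ ∀ x : ℝ, |ct g x| ≤ C := by
  obtain ⟨M, hM⟩ := isCompact_Icc.exists_bound_of_continuousOn (s := Set.Icc (0 : ℝ) 1)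
    hg.continuousOn
  refine ⟨2 * |M| + 1, by positivity, fun x => ?_⟩
  unfold ct
  have h2 : ‖∫ t in (0 : ℝ)..1, g t * Real.cos (2 * Real.pi * x * t)‖ ≤ |M| * |1 - 0| := by
    apply intervalIntegral.norm_integral_le_of_norm_le_const
    intro t ht
    rw [Set.uIoc_of_le zero_le_one] at ht
    rw [norm_mul]
    have h3 := (hM t ⟨ht.1.le, ht.2⟩).trans (le_abs_self M)
    have h4 : ‖Real.cos (2 * Real.pi * x * t)‖ ≤ 1 := by
      rw [Real.norm_eq_abs]; exact Real.abs_cos_le_one _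
    calc ‖g t‖ * ‖Real.cos (2 * Real.pi * x * t)‖ ≤ |M| * 1 := by gcongr
      _ = |M| := mul_one _
  rw [sub_zero, abs_one, mul_one, Real.norm_eq_abs] at h2
  rw [abs_mul, abs_of_pos (two_pos : (0 : ℝ) < 2)]
  linarith

/-- scaling by a factor close to `1` -/
lemma ct_scale {g : ℝ → ℝ} (hg : ContDiff ℝ 1 g) (h1 : g 1 = 0) (hpos : ∀ x, 0 ≤ ct g x)
    {η : ℝ} (hη : 0 < η) : ∃ μ : ℝ, 0 < μ ∧ μ < 1 ∧ ∀ c : ℝ, μ ≤ c → c ≤ 1 → ∀ x : ℝ, 0 ≤ x →
      ct g x ≤ ct g (c * x) + η := by
  obtain ⟨C, hC, hdec⟩ := ct_decay hg h1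
  have hcont : Continuous (ct g) := ct_cont hg.continuous
  have huc : UniformContinuousOn (ct g) (Set.Icc 0 (C / η)) :=
    isCompact_Icc.uniformContinuousOn_of_continuous hcont.continuousOn
  rw [Metric.uniformContinuousOn_iff] at huc
  obtain ⟨δ, hδ, h⟩ := huc η hη
  have hX : 0 < C / η := by positivity
  -- choose `μ` with `(1 - μ) (C / η) < δ`
  refine ⟨max (1 / 2) (1 - δ / (2 * (C / η))), by positivity, ?_, ?_⟩
  · rw [max_lt_iff]
    refine ⟨by norm_num, ?_⟩
    have : 0 < δ / (2 * (C / η)) := by positivity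
    linarith
  · intro c hc hc1 x hx
    have hc0 : 0 ≤ c := by
      have := (le_max_left (1 / 2 : ℝ) (1 - δ / (2 * (C / η)))).trans hc
      linarith
    rcases le_total x (C / η) with h2 | h2
    · have hcx : c * x ≤ x := mul_le_of_le_one_left hx hc1
      have h3 := h x ⟨hx, h2⟩ (c * x) ⟨by positivity, hcx.trans h2⟩ (by
        rw [Real.dist_eq, abs_of_nonneg (by linarith)]
        have h4 : 1 - c ≤ δ / (2 * (C / η)) := by
          have := (le_max_right (1 / 2 : ℝ) (1 - δ / (2 * (C / η)))).trans hc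
          linarith
        calc x - c * x = (1 - c) * x := by ring
          _ ≤ (δ / (2 * (C / η))) * (C / η) := by
            apply mul_le_mul h4 h2 hx (by positivity)
          _ = δ / 2 := by field_simp
          _ < δ := by linarith)
      rw [Real.dist_eq] at h3
      have := (abs_lt.1 h3).2
      linarith
    · have hx0 : 0 < x := hX.trans_le h2
      have h3 := (le_abs_self _).trans (hdec x hx0)
      have h4 : C / x ≤ η := by
        rw [div_le_iff₀ hx0]
        rw [div_le_iff₀ hη] at h2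
        linarith
      have h5 := hpos (c * x)
      linarith

/-- removing the Gaussian weight -/
lemma ct_gauss {g : ℝ → ℝ} (hg : ContDiff ℝ 1 g) (h1 : g 1 = 0) (hpos : ∀ x, 0 ≤ ct g x)
    {η : ℝ} (hη : 0 < η) : ∃ K : ℝ, 0 < K ∧ ∀ k : ℝ, K ≤ k → ∀ d : ℝ, 0 ≤ d →
      ct g (k * d) ≤ Real.exp (-d ^ 2 / 4) * ct g (k * d) + η := by
  obtain ⟨C, hC, hdec⟩ := ct_decay hg h1
  obtain ⟨B, hB, hbd⟩ := ct_bound hg.continuous
  -- choose `d0`
  have hcont : ContinuousAt (fun d : ℝ => (1 - Real.exp (-d ^ 2 / 4)) * B) 0 := by fun_prop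
  have hev : ∀ᶠ d in 𝓝 (0 : ℝ), (1 - Real.exp (-d ^ 2 / 4)) * B < η := by
    apply hcont.eventually_lt continuousAt_const
    simpa using hη
  obtain ⟨d0, hd0, hd⟩ := Metric.eventually_nhds_iff.1 hev
  refine ⟨2 * C / (η * d0), by positivity, fun k hk d hd' => ?_⟩
  have hk0 : 0 < k := lt_of_lt_of_le (by positivity) hk
  have he : 0 ≤ Real.exp (-d ^ 2 / 4) := (Real.exp_pos _).le
  rcases lt_or_ge d d0 with h2 | h2
  · have h3 := hd (show dist d 0 < d0 by rw [Real.dist_eq, sub_zero, abs_of_nonneg hd']; exact h2)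
    have h4 : (1 - Real.exp (-d ^ 2 / 4)) * ct g (k * d) ≤ (1 - Real.exp (-d ^ 2 / 4)) * B := by
      apply mul_le_mul_of_nonneg_left ((le_abs_self _).trans (hbd _))
      rw [sub_nonneg, Real.exp_le_one_iff]
      have := sq_nonneg d
      linarith
    linarith
  · have hdp : 0 < d := hd0.trans_le h2
    have h3 := (le_abs_self _).trans (hdec (k * d) (by positivity))
    have h4 : C / (k * d) ≤ η := by
      rw [div_le_iff₀ (by positivity)]
      rw [div_le_iff₀ (by positivity)] at hk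
      have h5 : η * (k * d0) ≤ η * (k * d) := by gcongr
      nlinarith
    have h5 : 0 ≤ Real.exp (-d ^ 2 / 4) * ct g (k * d) := mul_nonneg he (hpos _)
    linarith

end Pool.Agent.Y747
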