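import Pool.Agent.Y747.Zx
import Pool.Agent.Y747.Dec

/-! The block inequality for the averages over consecutive ordinates. -/

open Complex Filter Topology Set MeasureTheory

namespace Pool.Agent.Y747

open SG (ord NZ zmult ZS)
open W200.HW (Ix mem_Ix)
open Pool.Agent.TH873.EW (ZV ct mom XV JN JN_cos pair_int psi_two lip_cont)

/-- the pair sum of a block -/
lemma blk_pair (hRH : RiemannHypothesis) {g : ℝ → ℝ} (hg : ContDiff ℝ 1 g) (h1 : g 1 = 0)
    {μ ε : ℝ} (hμ : 0 < μ) (hμ1 : μ < 1) (hε : 0 < ε) :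
    ∃ V0 : ℝ, 10 ≤ V0 ∧ ∀ V : ℝ, V0 ≤ V → |((Bx V).card : ℝ) - XV V| ≤ ε * XV V ∧
      |∑ n ∈ Bx V, ∑ m ∈ Bx V, Real.exp (-(ord n - ord m) ^ 2 / 4) *
        ct g (μ * Real.log V / (2 * Real.pi) * (ord n - ord m)) -
        XV V * (g 0 / μ + 2 * μ * ∫ t in (0 : ℝ)..1, t * g t)| ≤ ε * XV V := by
  have hgc : Continuous g := hg.continuous
  obtain ⟨K, hK⟩ := (hg.locallyLipschitz.locallyLipschitzOn
    (s := Set.Icc (0 : ℝ) 1)).exists_lipschitzOnWith_of_compact isCompact_Icc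
  set ρ : ℝ → ℝ := fun ξ => g (min 1 |ξ|) with hρ
  have hmem : ∀ x : ℝ, min 1 |x| ∈ Set.Icc (0 : ℝ) 1 := fun x =>
    ⟨le_min zero_le_one (abs_nonneg x), min_le_left _ _⟩
  have hρ01 : ∀ x, 0 ≤ x → x ≤ 1 → ρ x = g x := by
    intro x h0 hx1
    simp only [hρ]
    rw [abs_of_nonneg h0, min_eq_right hx1]
  have hz : ∀ x, 1 ≤ |x| → ρ x = 0 := by
    intro x hx1
    simp only [hρ]
    rw [min_eq_left hx1, h1]
  have hlip : ∀ x y, |ρ x - ρ y| ≤ (K : ℝ) * |x - y| := by
    intro x y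
    have h2 := hK.dist_le_mul _ (hmem x) _ (hmem y)
    rw [Real.dist_eq, Real.dist_eq] at h2
    refine h2.trans ?_
    apply mul_le_mul_of_nonneg_left _ K.2
    have h3 := abs_min_sub_min_le_max 1 |x| 1 |y|
    rw [sub_self, abs_zero] at h3
    refine h3.trans ?_
    apply max_le (abs_nonneg _)
    exact abs_abs_sub_abs_le_abs_sub x y
  have heven : ∀ x, ρ (-x) = ρ x := by
    intro x
    simp only [hρ, abs_neg]
  have hρc : Continuous ρ := lip_cont hlip
  obtain ⟨V0, hV0, h⟩ := psi_two hRH K.2 hlip heven hz hμ hμ1 hε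
  refine ⟨V0, hV0, fun V hV => ?_⟩
  have hV10 : 10 ≤ V := hV0.trans hV
  obtain ⟨a1, a2⟩ := h V hV
  rw [card_Bx hRH hV10]
  refine ⟨a1, ?_⟩
  have hcR : H295SI.cR ρ μ = g 0 / μ + 2 * μ * ∫ t in (0 : ℝ)..1, t * g t := by
    unfold H295SI.cR
    rw [hρ01 0 le_rfl zero_le_one]
    congr 2
    apply intervalIntegral.integral_congr
    intro t ht
    rw [Set.uIcc_of_le zero_le_one] at ht
    simp only
    rw [hρ01 t ht.1 ht.2]
  rw [hcR] at a2
  have hPS : H370.A2.PS ρ riemannZeta (V + 1) (2 * V - 1) (μ * Real.log V) =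
      ∑ n ∈ Bx V, ∑ m ∈ Bx V, Real.exp (-(ord n - ord m) ^ 2 / 4) *
        ct g (μ * Real.log V / (2 * Real.pi) * (ord n - ord m)) := by
    have e1 : H370.A2.PS ρ riemannZeta (V + 1) (2 * V - 1) (μ * Real.log V) =
        2 * ∫ ξ in (0 : ℝ)..1, ρ ξ * JN V (μ * Real.log V * ξ) := by
      unfold H370.A2.PS
      have e2 : ∀ α : ℝ, ρ α * H370.JJ riemannZeta (V + 1) (2 * V - 1) (μ * Real.log V * α) =
          Real.sqrt Real.pi * (ρ α * JN V (μ * Real.log V * α)) := by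
        intro α
        unfold Pool.Agent.TH873.EW.JN H332B.Jb
        have : 0 < Real.sqrt Real.pi := Real.sqrt_pos.2 Real.pi_pos
        field_simp
      simp_rw [e2]
      rw [intervalIntegral.integral_const_mul]
      have : 0 < Real.sqrt Real.pi := Real.sqrt_pos.2 Real.pi_pos
      field_simp
    rw [e1, pair_int hRH (by linarith) hρc 1 (μ * Real.log V)]
    rw [← sum_ZV2 hRH hV10 (fun x y => Real.exp (-(x - y) ^ 2 / 4) *
        ct g (μ * Real.log V / (2 * Real.pi) * (x - y)))]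
    apply Finset.sum_congr rfl
    intro s _
    apply Finset.sum_congr rfl
    intro s' _
    congr 2
    unfold Pool.Agent.TH873.EW.ct
    congr 1
    apply intervalIntegral.integral_congr
    intro t ht
    rw [Set.uIcc_of_le zero_le_one] at ht
    have hpi0 : Real.pi ≠ 0 := Real.pi_pos.ne'
    have e7 : 2 * Real.pi * (μ * Real.log V / (2 * Real.pi) * (s.im - s'.im)) * t =
        μ * Real.log V * (s.im - s'.im) * t := by
      field_simp
    beta_reduce
    rw [hρ01 t ht.1 ht.2, e7]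
  rw [hPS] at a2
  exact a2

/-- the normalised gap -/
noncomputable def dl (n : ℕ) : ℝ :=
  (ord (n + 1) - ord n) / (2 * Real.pi) * Real.log (ord n / (2 * Real.pi))

/-- the summand -/
noncomputable def Fs (g : ℝ → ℝ) (n : ℕ) : ℝ := ct g 0 + 2 * ct g (dl n)

/-- comparison of `r(δ_n)` with the term of the pair sum -/
lemma compare {g : ℝ → ℝ} (hg : ContDiff ℝ 1 g) (h1 : g 1 = 0) (hpos : ∀ x, 0 ≤ ct g x)
    {η : ℝ} (hη : 0 < η) : ∃ μ0 : ℝ, 0 < μ0 ∧ μ0 < 1 ∧ ∀ μ : ℝ, μ0 ≤ μ → μ < 1 →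
      ∃ V0 : ℝ, 10 ≤ V0 ∧ ∀ V : ℝ, V0 ≤ V → ∀ n ∈ Bx V,
        ct g (dl n) ≤ Real.exp (-(ord (n + 1) - ord n) ^ 2 / 4) *
          ct g (μ * Real.log V / (2 * Real.pi) * (ord (n + 1) - ord n)) + 2 * η := by
  obtain ⟨μ0, hμ0, hμ01, hs⟩ := ct_scale hg h1 hpos hη
  obtain ⟨K, hK, hk⟩ := ct_gauss hg h1 hpos hη
  refine ⟨μ0, hμ0, hμ01, fun μ hμ hμ1 => ?_⟩
  have hμpos : 0 < μ := hμ0.trans_le hμ
  have hpi := Real.pi_gt_three
  have hlim : Tendsto (fun V : ℝ => μ * Real.log V / (2 * Real.pi)) atTop atTop :=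
    (Real.tendsto_log_atTop.const_mul_atTop hμpos).atTop_div_const (by positivity)
  have ev : ∀ᶠ V : ℝ in atTop, K ≤ μ * Real.log V / (2 * Real.pi) ∧
      Real.log (2 * Real.pi) / (1 - μ) ≤ Real.log V :=
    (hlim.eventually_ge_atTop K).and (Real.tendsto_log_atTop.eventually_ge_atTop _)
  obtain ⟨V1, hV1⟩ := ev.exists_forall_of_atTop
  refine ⟨max 10 V1, le_max_left _ _, fun V hV n hn => ?_⟩
  have hV10 : 10 ≤ V := (le_max_left _ _).trans hV
  obtain ⟨e1, e2⟩ := hV1 V ((le_max_right _ _).trans hV)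
  rw [mem_Bx] at hn
  obtain ⟨hn1, hn2, hn3⟩ := hn
  have hd : 0 ≤ ord (n + 1) - ord n := sub_nonneg.2 (SG.ord_mono hn1 (by omega))
  set d := ord (n + 1) - ord n with hdd
  have hVpos : 0 < V := by linarith
  have hlogV : 0 < Real.log V := Real.log_pos (by linarith)
  have hon : 0 < ord n := by linarith
  -- bounds for the logarithm
  have hl1 : Real.log (ord n / (2 * Real.pi)) ≤ Real.log V := by
    apply Real.log_le_log (by positivity)
    rw [div_le_iff₀ (by positivity)]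
    nlinarith
  have hl2 : μ * Real.log V ≤ Real.log (ord n / (2 * Real.pi)) := by
    have h3 : Real.log (V / (2 * Real.pi)) ≤ Real.log (ord n / (2 * Real.pi)) := by
      apply Real.log_le_log (by positivity)
      gcongr
      linarith
    rw [Real.log_div hVpos.ne' (by positivity)] at h3
    rw [div_le_iff₀ (by linarith)] at e2
    linarith
  have hl0 : 0 < Real.log (ord n / (2 * Real.pi)) := lt_of_lt_of_le (by positivity) hl2
  set ℓ := Real.log (ord n / (2 * Real.pi)) with hℓ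
  have hdl : dl n = d / (2 * Real.pi) * ℓ := rfl
  have hdl0 : 0 ≤ dl n := by rw [hdl]; positivity
  have h3 := hs (μ * Real.log V / ℓ) (by
      rw [le_div_iff₀ hl0]
      calc μ0 * ℓ ≤ μ * Real.log V := by gcongr) (by
      rw [div_le_one hl0]; exact hl2) (dl n) hdl0
  have e3 : μ * Real.log V / ℓ * dl n = μ * Real.log V / (2 * Real.pi) * d := by
    rw [hdl]
    field_simp
  rw [e3] at h3
  have h4 := hk (μ * Real.log V / (2 * Real.pi)) e1 d hd
  linarith

end Pool.Agent.Y747
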