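import Pool.Agent.W198.TC.All

/-! Discrete mean over the zeros for general coefficients. -/

open Complex Filter Topology Set MeasureTheory

namespace Pool.Agent.Y747

open TC

lemma sum_abs_le {α : ℕ → ℝ} {A : ℝ} (hA0 : 0 ≤ A) (hA : ∀ n, |α n| ≤ A * lam n) (N : ℕ) :
    ∑ n ∈ Finset.Icc 2 N, |α n| ≤ 2 * A * N := by
  have h1 : ∀ n ∈ Finset.Icc 2 N, |α n| ≤ 2 * A := by
    intro n _
    refine (hA n).trans ?_
    have h2 := lam_le_two n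
    have h3 := lam_nonneg n
    nlinarith
  refine (Finset.sum_le_card_nsmul _ _ _ h1).trans ?_
  rw [nsmul_eq_mul, Nat.card_Icc, mul_comm]
  apply mul_le_mul_of_nonneg_left _ (by positivity)
  have : N + 1 - 2 ≤ N := by omega
  exact_mod_cast this

/-- final elementary inequality -/
lemma dmg_final {W ℓ C V c A1 Bq e1 e2 e3 e4 η I1 I2 : ℝ} (hW : 0 < W) (hℓ : 0 < ℓ)
    (hC : 0 < C) (hη : 0 < η) (hA : A1 ≤ V)
    (hI1 : I1 ≤ W * (A1 + e1)) (he1 : e1 ≤ η) (hI2 : W * (c * Bq) - W * e2 ≤ I2) (he2 : e2 ≤ η)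
    (he3 : e3 ≤ W * η) (he4 : e4 ≤ W * η) (he0 : 0 ≤ e1)
    (hbig : 2 * C * (V + η) + 7 * η ≤ ℓ * η) :
    1 / Real.pi * ((ℓ / 2 + 2 * C) * I1 - I2 + e3) + e4 ≤
      W * (1 / Real.pi) * (ℓ / 2 * A1 - c * Bq + 2 * η * ℓ) := by
  have hpi := Real.pi_pos
  have hpi4 := Real.pi_le_four
  have hk : 0 < ℓ / 2 + 2 * C := by linarith
  have key : (ℓ / 2 + 2 * C) * I1 - I2 + e3 + Real.pi * e4 ≤
      W * ((ℓ / 2 + 2 * C) * (A1 + η) - c * Bq + η + η + 4 * η) := by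
    have k0 : I1 ≤ W * (A1 + η) := hI1.trans (by gcongr)
    have k1 := mul_le_mul_of_nonneg_left k0 hk.le
    have k3 : W * e2 ≤ W * η := mul_le_mul_of_nonneg_left he2 hW.le
    have k4 : Real.pi * e4 ≤ 4 * (W * η) := by
      have : Real.pi * e4 ≤ Real.pi * (W * η) := mul_le_mul_of_nonneg_left he4 hpi.le
      have k5 : Real.pi * (W * η) ≤ 4 * (W * η) :=
        mul_le_mul_of_nonneg_right hpi4 (by positivity)
      linarith
    nlinarith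
  have key2 : (ℓ / 2 + 2 * C) * (A1 + η) - c * Bq + η + η + 4 * η ≤
      ℓ / 2 * A1 - c * Bq + 2 * η * ℓ := by
    nlinarith
  have key3 := mul_le_mul_of_nonneg_left key2 hW.le
  have e : 1 / Real.pi * ((ℓ / 2 + 2 * C) * I1 - I2 + e3) + e4 =
      ((ℓ / 2 + 2 * C) * I1 - I2 + e3 + Real.pi * e4) / Real.pi := by
    field_simp
  rw [e, div_le_iff₀ hpi]
  refine (key.trans key3).trans (le_of_eq ?_)
  field_simp

/-- discrete mean over the zeros for general coefficients -/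
theorem dmg (C ε A V c η : ℝ) (hC : 0 < C) (hε : 0 < ε) (hε1 : ε ≤ 1 / 10) (hA0 : 0 ≤ A)
    (hη : 0 < η) :
    ∃ T1 : ℝ, ∀ T τ : ℝ, T1 ≤ T → ∀ (Z : Finset ℝ) (m : ℝ → ℕ), EFD C T Z m →
    T + T ^ (1 - ε / 16) ≤ τ → τ ≤ 2 * T - T ^ (1 - ε / 16) →
    ∀ (α β : ℕ → ℝ) (P : ℕ), 1 ≤ P → (P : ℝ) * P ≤ T ^ (1 - 3 * ε / 4) →
    (∀ n, |α n| ≤ A / Real.log T * lam n) → (∀ n, |β n| ≤ A / Real.log T * lam n) →
    (∑ n ∈ Finset.Icc 2 P, (α n) ^ 2) + (∑ n ∈ Finset.Icc 2 P, (β n) ^ 2) + c ^ 2 ≤ V →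
    ∑ g ∈ Z, (m g : ℝ) * (om τ (T ^ (1 - ε / 8)) g * ‖DD α β P P c g‖ ^ 2) ≤
      Real.sqrt (2 * Real.pi) * T ^ (1 - ε / 8) * (1 / Real.pi) *
        (Real.log T / 2 * ((∑ n ∈ Finset.Icc 2 P, (α n) ^ 2) +
          (∑ n ∈ Finset.Icc 2 P, (β n) ^ 2) + c ^ 2) -
          c * ((∑ n ∈ Finset.Icc 2 P, α n * qf (Real.log T) n) +
            (∑ n ∈ Finset.Icc 2 P, β n * qf (Real.log T) n)) + 2 * η * Real.log T) := by
  obtain ⟨C0, hC0, h2⟩ := tri2 c0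
  obtain ⟨CR, hCR, h3⟩ := rk
  set K := 4 * A + |c| with hK
  have hK0 : 0 ≤ K := by positivity
  -- eventual facts
  have ev1 : ∀ᶠ T : ℝ in atTop, max 4 (max ((2 * C * (V + η) + 7 * η) / η)
      (A * (C0 + 1) / (η / 2) + A)) ≤ Real.log T := Real.tendsto_log_atTop.eventually_ge_atTop _
  have ev3 := ev_exp (K ^ 2 * 2) 5 (5 * ε / 4) (1 / 8) (η / 2) (by positivity) (by norm_num)
    (by positivity)
  have ev4 := ev_exp (2 * (C + 2) * K ^ 2) 5 (ε / 8) (1 / 16) η (by positivity) (by norm_num) hη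
  have ev5 := ev_log (CR * C * K ^ 2) 4 (9 * ε ^ 2 / 128) η (by positivity) hη
  have ev6 : ∀ᶠ T : ℝ in atTop, 2 * Real.log T ≤ T ^ (1 - ε / 16) := by
    have h := (isLittleO_log_rpow_atTop (r := 1 - ε / 16) (by linarith)).bound
      (show (0 : ℝ) < 1 / 2 by norm_num)
    filter_upwards [h, eventually_ge_atTop 1] with T hT hT1
    rw [Real.norm_eq_abs, Real.norm_of_nonneg (by positivity),
      abs_of_nonneg (Real.log_nonneg hT1)] at hT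
    linarith
  have ev := ((((ev1.and ev3).and ev4).and ev5).and ev6).and (eventually_ge_atTop (1 : ℝ))
  obtain ⟨T1, hT1⟩ := eventually_atTop.1 ev
  refine ⟨T1, fun T τ hT Z m hE hτ1 hτ2 α β P hP hPP hα hβ hV => ?_⟩
  obtain ⟨⟨⟨⟨⟨f1, f3⟩, f4⟩, f5⟩, f6⟩, f7⟩ := hT1 T hT
  have hT0 : 0 < T := by linarith
  set ℓ := Real.log T with hℓ
  have hℓ4 : 4 ≤ ℓ := (le_max_left _ _).trans f1
  have hℓ0 : 0 < ℓ := by linarith
  have hℓT : ℓ ≤ T := by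
    have := Real.log_le_sub_one_of_pos hT0
    linarith
  have f1' := (le_max_right _ _).trans f1
  have hℓ1 : (2 * C * (V + η) + 7 * η) / η ≤ ℓ := (le_max_left _ _).trans f1'
  have hℓ2 : A * (C0 + 1) / (η / 2) + A ≤ ℓ := (le_max_right _ _).trans f1'
  have hAℓ : 0 ≤ A / ℓ := by positivity
  have hAℓA : A / ℓ ≤ A := div_le_self hA0 (by linarith)
  obtain ⟨n7, n8, n9⟩ := floor_facts f7 (show (0 : ℝ) ≤ 3 by norm_num)
  set X := ⌊T ^ (3 : ℝ)⌋₊ with hX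
  set H := T ^ (1 - ε / 8) with hH
  have hH1 : 1 ≤ H := Real.one_le_rpow f7 (by linarith)
  have hH0 : 0 < H := by linarith
  have hP1 : (1 : ℝ) ≤ P := by exact_mod_cast hP
  have hPT : (P : ℝ) ≤ T := by
    have h5 : (P : ℝ) ≤ P * P := le_mul_of_one_le_right (by linarith) hP1
    have h6 : T ^ (1 - 3 * ε / 4) ≤ T := by
      conv_rhs => rw [← Real.rpow_one T]
      exact Real.rpow_le_rpow_of_exponent_le f7 (by linarith)
    linarith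
  have hPX : P ≤ X := by
    apply Nat.le_floor
    have : T ≤ T ^ (3 : ℝ) := by
      conv_lhs => rw [← Real.rpow_one T]
      exact Real.rpow_le_rpow_of_exponent_le f7 (by norm_num)
    linarith
  have hXT : (X : ℝ) ≤ T ^ 3 := by
    refine n8.trans (le_of_eq ?_)
    norm_cast
  have hNN1 : (1 : ℝ) ≤ (P : ℝ) * P := ax4 hP1 hP1
  set G := 3 * ε / 4 * ℓ with hG
  have hRKc : Real.log ((P : ℝ) * P) + G ≤ ℓ := by
    have := Real.log_le_log (by linarith) hPP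
    rw [Real.log_rpow hT0, ← hℓ] at this
    rw [hG]
    linarith
  have hexp : Real.exp (-(H ^ 2) / (8 * ((P : ℝ) * P) ^ 2)) ≤
      Real.exp (-(1 / 8 * T ^ (5 * ε / 4))) := by
    apply Real.exp_le_exp.2
    have e1 : H ^ 2 / (T ^ (1 - 3 * ε / 4)) ^ 2 = T ^ (5 * ε / 4) := by
      rw [hH, ← Real.rpow_natCast, ← Real.rpow_natCast, ← Real.rpow_mul hT0.le,
        ← Real.rpow_mul hT0.le, ← Real.rpow_sub hT0]
      congr 1
      push_cast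
      ring
    have e2 : H ^ 2 / (T ^ (1 - 3 * ε / 4)) ^ 2 ≤ H ^ 2 / ((P : ℝ) * P) ^ 2 := by
      gcongr
    rw [e1] at e2
    have e3 : -(H ^ 2) / (8 * ((P : ℝ) * P) ^ 2) = -(1 / 8 * (H ^ 2 / ((P : ℝ) * P) ^ 2)) := by
      have : ((P : ℝ) * P) ^ 2 ≠ 0 := by positivity
      field_simp
    rw [e3]
    linarith
  set Sz := sz α β P P c with hSz
  have hSz0 : 0 ≤ Sz := sz_nonneg _ _ _ _ _
  have hSzT : Sz ≤ K * T := by
    have s1 := sum_abs_le hAℓ hα P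
    have s2 := sum_abs_le hAℓ hβ P
    have s3 : 2 * (A / ℓ) * (P : ℝ) ≤ 2 * A * P := by gcongr
    exact ax15 hA0 (s1.trans s3) (s2.trans s3) hPT hPT f7
  have hSz2 : Sz ^ 2 ≤ K ^ 2 * T ^ 2 := by
    rw [← mul_pow]
    exact pow_le_pow_left₀ hSz0 hSzT 2
  set Qs := ∑ n ∈ Finset.Icc 2 X, |qf ℓ n| with hQs
  have hQs0 : 0 ≤ Qs := Finset.sum_nonneg fun _ _ => abs_nonneg _
  have hQsT : Qs ≤ 2 * T ^ 3 := by
    exact ax5 (sum_qf_abs hℓ0.le X) hXT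
  have hT25 : T ^ 2 ≤ T ^ 5 := pow_le_pow_right₀ f7 (by norm_num)
  set e := Real.exp (-(H ^ 2) / (8 * ((P : ℝ) * P) ^ 2)) with he
  have he0 : 0 < e := Real.exp_pos _
  have he1 : Sz ^ 2 * e ≤ η / 2 := by
    calc Sz ^ 2 * e ≤ (K ^ 2 * T ^ 2) * Real.exp (-(1 / 8 * T ^ (5 * ε / 4))) := by gcongr
      _ ≤ K ^ 2 * 2 * T ^ 5 * Real.exp (-(1 / 8 * T ^ (5 * ε / 4))) := by
          exact mul_le_mul_of_nonneg_right (ax6 hT25) (Real.exp_pos _).le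
      _ ≤ η / 2 := f3
  have he2 : Sz ^ 2 * Qs * e ≤ η / 2 := by
    calc Sz ^ 2 * Qs * e ≤ (K ^ 2 * T ^ 2) * (2 * T ^ 3) *
        Real.exp (-(1 / 8 * T ^ (5 * ε / 4))) := by gcongr
      _ = K ^ 2 * 2 * T ^ 5 * Real.exp (-(1 / 8 * T ^ (5 * ε / 4))) := by ring
      _ ≤ η / 2 := f3
  have hAA : C0 * (A / ℓ) ^ 2 ≤ η / 2 := ax7 hC0 hA0 (by positivity) hℓ0 hℓ2
  -- the tail term
  set dd := T ^ (1 - ε / 16) / 2 with hdd
  have hdd0 : 0 < dd := by positivity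
  have hκ : Real.exp (-(dd ^ 2) / (4 * H ^ 2)) ≤ Real.exp (-(1 / 16 * T ^ (ε / 8))) := by
    apply Real.exp_le_exp.2
    have e1 : dd ^ 2 / (4 * H ^ 2) = 1 / 16 * T ^ (ε / 8) := by
      have e2 : (T ^ (1 - ε / 16)) ^ 2 / H ^ 2 = T ^ (ε / 8) := by
        rw [hH, ← Real.rpow_natCast, ← Real.rpow_natCast, ← Real.rpow_mul hT0.le,
          ← Real.rpow_mul hT0.le, ← Real.rpow_sub hT0]
        congr 1
        push_cast
        ring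
      rw [← e2, hdd]
      field_simp
      ring
    rw [neg_div, e1]
  set W := Real.sqrt (2 * Real.pi) * H with hW
  have hs1 := sqrt_two_pi_ge_one
  have hW1 : 1 ≤ W := ax4 hs1 hH1
  have hW0 : 0 < W := by linarith
  have he3 : (C * ℓ ^ 2 + Qs) * Sz ^ 2 * Real.exp (-(dd ^ 2) / (4 * H ^ 2)) *
        (Real.sqrt (2 * Real.pi) * (Real.sqrt 2 * H)) ≤ W * η := by
    have k1 : Real.sqrt 2 ≤ 2 := by
      rw [Real.sqrt_le_left (by norm_num)]; norm_num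
    have k2 : C * ℓ ^ 2 + Qs ≤ (C + 2) * T ^ 3 := by
      have : ℓ ^ 2 ≤ T ^ 3 := by
        calc ℓ ^ 2 ≤ T ^ 2 := pow_le_pow_left₀ hℓ0.le hℓT 2
          _ ≤ T ^ 3 := pow_le_pow_right₀ f7 (by norm_num)
      exact ax8 hC this hQsT
    have k3 : (C * ℓ ^ 2 + Qs) * Sz ^ 2 * Real.exp (-(dd ^ 2) / (4 * H ^ 2)) * Real.sqrt 2 ≤ η := by
      calc (C * ℓ ^ 2 + Qs) * Sz ^ 2 * Real.exp (-(dd ^ 2) / (4 * H ^ 2)) * Real.sqrt 2 ≤
          ((C + 2) * T ^ 3) * (K ^ 2 * T ^ 2) * Real.exp (-(1 / 16 * T ^ (ε / 8))) * 2 := by gcongr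
        _ = 2 * (C + 2) * K ^ 2 * T ^ 5 * Real.exp (-(1 / 16 * T ^ (ε / 8))) := by ring
        _ ≤ η := f4
    calc _ = W * ((C * ℓ ^ 2 + Qs) * Sz ^ 2 * Real.exp (-(dd ^ 2) / (4 * H ^ 2)) *
        Real.sqrt 2) := by rw [hW]; ring
      _ ≤ W * η := mul_le_mul_of_nonneg_left k3 hW0.le
  have he4 : CR * (∑ g ∈ Z, (m g : ℝ)) * Sz ^ 2 * Real.exp (-(G ^ 2) / 8) ≤ W * η := by
    have k1 : ∑ g ∈ Z, (m g : ℝ) ≤ C * T ^ 2 := ax9 hC hT0 hE.tot hℓT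
    have k0 : 0 ≤ ∑ g ∈ Z, (m g : ℝ) := Finset.sum_nonneg fun _ _ => Nat.cast_nonneg _
    have k2 : -(G ^ 2) / 8 = -(9 * ε ^ 2 / 128 * ℓ ^ 2) := by rw [hG]; ring
    have k3 : CR * (∑ g ∈ Z, (m g : ℝ)) * Sz ^ 2 * Real.exp (-(G ^ 2) / 8) ≤ η := by
      rw [k2]
      calc CR * (∑ g ∈ Z, (m g : ℝ)) * Sz ^ 2 * Real.exp (-(9 * ε ^ 2 / 128 * ℓ ^ 2)) ≤
          CR * (C * T ^ 2) * (K ^ 2 * T ^ 2) * Real.exp (-(9 * ε ^ 2 / 128 * ℓ ^ 2)) := by gcongr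
        _ = CR * C * K ^ 2 * T ^ 4 * Real.exp (-(9 * ε ^ 2 / 128 * ℓ ^ 2)) := by ring
        _ ≤ η := f5
    exact ax10 k3 hη hW1
  -- main inequalities
  have r1 := h3 Z m α β P P c τ H ℓ G hH1 (by rw [hG]; positivity) hP hP hRKc
  have r2 := tri1 α β P P c τ H hH0 hP hP
  have r3 := h2 α β (qf ℓ) P P X c τ H (A / ℓ) hH0 hP hP hPX hPX hα hβ
    (fun n => qf_abs hℓ0.le n)
  have hℓd : ℓ ≤ dd := by rw [hdd]; linarith
  have r4 := dm_core hE hC (by linarith) α β P P c τ H dd hH0 hdd0.le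
    (by rw [← hℓ, hdd]; rw [hdd] at hℓd; linarith)
    (by rw [← hℓ, hdd]; rw [hdd] at hℓd; linarith) X
    (by rw [← hℓ]; linarith)
  rw [← hℓ] at r4
  have r1' := (abs_le.1 r1).2
  have r2' := (abs_le.1 r2).2
  have r3' := (abs_le.1 r3).1
  set I1 := ∫ t, om τ H t * ‖DD α β P P c t‖ ^ 2 with hI1
  set I2 := ∫ t, om τ H t * ‖DD α β P P c t‖ ^ 2 * (DP (qf ℓ) X t).re with hI2
  set Bq := (∑ n ∈ Finset.Icc 2 P, α n * qf ℓ n) + ∑ n ∈ Finset.Icc 2 P, β n * qf ℓ n with hBq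
  set A1 := (∑ n ∈ Finset.Icc 2 P, α n ^ 2) + (∑ n ∈ Finset.Icc 2 P, β n ^ 2) + c ^ 2 with hA1
  have hfin := dmg_final (W := W) (ℓ := ℓ) (C := C) (V := V) (c := c) (A1 := A1)
    (Bq := Bq) (e1 := Sz ^ 2 * e) (e2 := C0 * (A / ℓ) ^ 2 + Sz ^ 2 * Qs * e)
    (e3 := (C * ℓ ^ 2 + Qs) * Sz ^ 2 * Real.exp (-(dd ^ 2) / (4 * H ^ 2)) *
        (Real.sqrt (2 * Real.pi) * (Real.sqrt 2 * H)))
    (e4 := CR * (∑ g ∈ Z, (m g : ℝ)) * Sz ^ 2 * Real.exp (-(G ^ 2) / 8)) (η := η)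
    (I1 := I1) (I2 := I2) hW0 hℓ0 hC hη hV
    (by linarith) (by linarith) (by linarith) (by linarith) he3 he4 (by positivity) (by
      rw [div_le_iff₀ hη] at hℓ1
      linarith)
  have r9 : 1 / Real.pi * ∫ t, om τ H t * ‖DD α β P P c t‖ ^ 2 *
      (∫ u in (0 : ℝ)..ℓ, (FF Z m u t).re) ≤ 1 / Real.pi * ((ℓ / 2 + 2 * C) * I1 - I2 +
        (C * ℓ ^ 2 + Qs) * Sz ^ 2 * Real.exp (-(dd ^ 2) / (4 * H ^ 2)) *
        (Real.sqrt (2 * Real.pi) * (Real.sqrt 2 * H))) := by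
    apply mul_le_mul_of_nonneg_left _ (by positivity)
    exact r4
  calc _ ≤ 1 / Real.pi * (∫ t, om τ H t * ‖DD α β P P c t‖ ^ 2 *
      (∫ u in (0 : ℝ)..ℓ, (FF Z m u t).re)) +
      CR * (∑ g ∈ Z, (m g : ℝ)) * Sz ^ 2 * Real.exp (-(G ^ 2) / 8) := by linarith
    _ ≤ _ := (add_le_add r9 le_rfl).trans hfin

end Pool.Agent.Y747
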