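import Pool.Agent.Y747.Vd

/-! The concrete weight function and the certificate. -/

open Complex Filter Topology Set MeasureTheory

namespace Pool.Agent.Y747

open TC

/-- trapezoid -/
noncomputable def tr (s b u : ℝ) : ℝ := max 0 (min 1 ((b - |u|) / (b - s)))

lemma tr_nonneg (s b u : ℝ) : 0 ≤ tr s b u := le_max_left _ _

lemma tr_le (s b u : ℝ) : tr s b u ≤ 1 := max_le zero_le_one (min_le_left _ _)

lemma tr_one {s b u : ℝ} (h : s < b) (hu : |u| ≤ s) : tr s b u = 1 := by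
  unfold tr
  have h1 : 1 ≤ (b - |u|) / (b - s) := by
    rw [one_le_div (by linarith)]
    linarith
  rw [min_eq_left h1, max_eq_right zero_le_one]

lemma tr_zero {s b u : ℝ} (h : s < b) (hu : b ≤ |u|) : tr s b u = 0 := by
  unfold tr
  have h1 : (b - |u|) / (b - s) ≤ 0 := div_nonpos_of_nonpos_of_nonneg (by linarith) (by linarith)
  rw [min_eq_right (h1.trans zero_le_one), max_eq_left h1]

lemma tr_lip {s b : ℝ} (h : s < b) (x y : ℝ) : |tr s b x - tr s b y| ≤ 1 / (b - s) * |x - y| := by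
  unfold tr
  have h0 : 0 < b - s := by linarith
  have h1 := (abs_max_sub_max_le_max 0 (min 1 ((b - |x|) / (b - s))) 0
    (min 1 ((b - |y|) / (b - s)))).trans (max_le (by simp) le_rfl)
  have h2 := (abs_min_sub_min_le_max 1 ((b - |x|) / (b - s)) 1 ((b - |y|) / (b - s))).trans
    (max_le (by simp) le_rfl)
  refine (h1.trans h2).trans ?_
  rw [← sub_div, abs_div, abs_of_pos h0, div_mul_eq_mul_div, one_mul]
  apply div_le_div_of_nonneg_right _ h0.le
  rw [show b - |x| - (b - |y|) = -(|x| - |y|) by ring, abs_neg]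
  exact abs_abs_sub_abs_le_abs_sub x y

lemma lip_mul {f τ : ℝ → ℝ} (hf : ContDiff ℝ 1 f) (h0 : ∀ x, 0 ≤ τ x) (h1 : ∀ x, τ x ≤ 1)
    {K : ℝ} (hK : 0 ≤ K) (hτ : ∀ x y, |τ x - τ y| ≤ K * |x - y|) (hz : ∀ x, 1 ≤ |x| → τ x = 0) :
    ∃ K' : NNReal, LipschitzWith K' (fun x : ℝ => ((f x * τ x : ℝ) : ℂ)) := by
  obtain ⟨K0, hK0⟩ := (hf.locallyLipschitz.locallyLipschitzOn
    (s := Set.Icc (-1 : ℝ) 1)).exists_lipschitzOnWith_of_compact isCompact_Icc
  obtain ⟨M, hM⟩ := isCompact_Icc.exists_bound_of_continuousOn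
    (s := Set.Icc (-1 : ℝ) 1) hf.continuous.continuousOn
  have hM0 : 0 ≤ M := (norm_nonneg _).trans (hM 0 (by constructor <;> norm_num))
  have hmem : ∀ {x : ℝ}, |x| < 1 → x ∈ Set.Icc (-1 : ℝ) 1 := fun h =>
    ⟨(abs_lt.1 h).1.le, (abs_lt.1 h).2.le⟩
  have key : ∀ x y : ℝ, |x| < 1 → |f x * τ x - f y * τ y| ≤ ((K0 : ℝ) + M * K) * |x - y| := by
    intro x y hx
    have hfx : |f x| ≤ M := hM x (hmem hx)
    rcases lt_or_ge |y| 1 with hy | hy
    · have e : f x * τ x - f y * τ y = (f x - f y) * τ y + f x * (τ x - τ y) := by ring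
      have h2 := hK0.dist_le_mul x (hmem hx) y (hmem hy)
      rw [Real.dist_eq, Real.dist_eq] at h2
      rw [e]
      refine (abs_add_le _ _).trans ?_
      rw [abs_mul, abs_mul, abs_of_nonneg (h0 y)]
      have h3 : |f x - f y| * τ y ≤ ((K0 : ℝ) * |x - y|) * 1 :=
        mul_le_mul h2 (h1 y) (h0 y) (by positivity)
      have h4 : |f x| * |τ x - τ y| ≤ M * (K * |x - y|) :=
        mul_le_mul hfx (hτ x y) (abs_nonneg _) hM0
      linarith
    · have e : f x * τ x - f y * τ y = f x * (τ x - τ y) := by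
        rw [hz y hy]; ring
      rw [e, abs_mul]
      have h4 : |f x| * |τ x - τ y| ≤ M * (K * |x - y|) :=
        mul_le_mul hfx (hτ x y) (abs_nonneg _) hM0
      have h5 : 0 ≤ (K0 : ℝ) * |x - y| := by positivity
      linarith
  refine ⟨⟨(K0 : ℝ) + M * K, by positivity⟩, LipschitzWith.of_dist_le_mul fun x y => ?_⟩
  rw [dist_eq_norm, ← Complex.ofReal_sub, Complex.norm_real, Real.norm_eq_abs, Real.dist_eq]
  show |f x * τ x - f y * τ y| ≤ ((K0 : ℝ) + M * K) * |x - y|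
  rcases lt_or_ge |x| 1 with hx | hx
  · exact key x y hx
  · rcases lt_or_ge |y| 1 with hy | hy
    · rw [abs_sub_comm, abs_sub_comm x y]
      exact key y x hy
    · rw [hz x hx, hz y hy]
      simp
      positivity

/-- the concrete weight -/
noncomputable def Fq (u : ℝ) : ℝ :=
  (61 / 25) * (1 - 3 / 2 * u ^ 2) * tr (4998 / 10000) (4999 / 10000) u

lemma sb : (4998 / 10000 : ℝ) < 4999 / 10000 := by norm_num

lemma Fq_zero {u : ℝ} (hu : 4999 / 10000 ≤ |u|) : Fq u = 0 := by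
  unfold Fq
  rw [tr_zero sb hu, mul_zero]

lemma Fq_nonneg (u : ℝ) : 0 ≤ Fq u := by
  rcases lt_or_ge |u| (4999 / 10000) with h | h
  · unfold Fq
    apply mul_nonneg _ (tr_nonneg _ _ _)
    apply mul_nonneg (by norm_num)
    have : u ^ 2 ≤ 1 / 4 := by
      rw [← sq_abs]
      nlinarith [abs_nonneg u]
    linarith
  · rw [Fq_zero h]

lemma Fq_le (u : ℝ) : Fq u ≤ 61 / 25 := by
  have h1 := tr_nonneg (4998 / 10000) (4999 / 10000) u
  have h2 := tr_le (4998 / 10000) (4999 / 10000) u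
  unfold Fq
  have h3 : (61 / 25 : ℝ) * (1 - 3 / 2 * u ^ 2) ≤ 61 / 25 := by nlinarith [sq_nonneg u]
  calc (61 / 25 : ℝ) * (1 - 3 / 2 * u ^ 2) * tr (4998 / 10000) (4999 / 10000) u ≤
      61 / 25 * tr (4998 / 10000) (4999 / 10000) u := mul_le_mul_of_nonneg_right h3 h1
    _ ≤ 61 / 25 * 1 := by gcongr
    _ = _ := mul_one _

lemma Fq_supp (u : ℝ) (hu : 4999 / 10000 ≤ u) : Fq u = 0 :=
  Fq_zero (hu.trans (le_abs_self u))

lemma Fq_lip1 : ∃ K : NNReal, LipschitzWith K (fun u : ℝ => ((u * Fq u ^ 2 : ℝ) : ℂ)) := by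
  have h := lip_mul (f := fun u => u * ((61 / 25) * (1 - 3 / 2 * u ^ 2)) ^ 2)
    (τ := fun u => (tr (4998 / 10000) (4999 / 10000) u) ^ 2) (by fun_prop)
    (fun x => sq_nonneg _) (fun x => pow_le_one₀ (tr_nonneg _ _ _) (tr_le _ _ _))
    (K := 2 * (1 / (4999 / 10000 - 4998 / 10000))) (by norm_num) (fun x y => by
      have h1 := tr_lip sb x y
      have h2 := tr_nonneg (4998 / 10000) (4999 / 10000) x
      have h3 := tr_nonneg (4998 / 10000) (4999 / 10000) y
      have h4 := tr_le (4998 / 10000) (4999 / 10000) x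
      have h5 := tr_le (4998 / 10000) (4999 / 10000) y
      have e : tr (4998 / 10000) (4999 / 10000) x ^ 2 - tr (4998 / 10000) (4999 / 10000) y ^ 2 =
        (tr (4998 / 10000) (4999 / 10000) x + tr (4998 / 10000) (4999 / 10000) y) *
        (tr (4998 / 10000) (4999 / 10000) x - tr (4998 / 10000) (4999 / 10000) y) := by ring
      rw [e, abs_mul, abs_of_nonneg (by linarith)]
      calc _ ≤ 2 * (1 / (4999 / 10000 - 4998 / 10000) * |x - y|) :=
            mul_le_mul (by linarith) h1 (abs_nonneg _) (by norm_num)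
        _ = _ := by ring) (fun x hx => by
      rw [tr_zero sb (by linarith)]
      norm_num)
  obtain ⟨K, hK⟩ := h
  refine ⟨K, ?_⟩
  have e : (fun u : ℝ => ((u * Fq u ^ 2 : ℝ) : ℂ)) = fun u : ℝ =>
      ((u * ((61 / 25) * (1 - 3 / 2 * u ^ 2)) ^ 2 * (tr (4998 / 10000) (4999 / 10000) u) ^ 2 : ℝ) : ℂ) := by
    funext u
    unfold Fq
    congr 1
    ring
  rw [e]
  exact hK

lemma Fq_lip2 : ∃ K : NNReal, LipschitzWith K (fun u : ℝ => ((Fq u * Real.sin (Real.pi * u) : ℝ) : ℂ)) := by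
  have h := lip_mul (f := fun u => (61 / 25) * (1 - 3 / 2 * u ^ 2) * Real.sin (Real.pi * u))
    (τ := fun u => tr (4998 / 10000) (4999 / 10000) u) (by fun_prop)
    (fun x => tr_nonneg _ _ _) (fun x => tr_le _ _ _)
    (K := 1 / (4999 / 10000 - 4998 / 10000)) (by norm_num) (fun x y => tr_lip sb x y)
    (fun x hx => tr_zero sb (by linarith))
  obtain ⟨K, hK⟩ := h
  refine ⟨K, ?_⟩
  have e : (fun u : ℝ => ((Fq u * Real.sin (Real.pi * u) : ℝ) : ℂ)) = fun u : ℝ =>
      (((61 / 25) * (1 - 3 / 2 * u ^ 2) * Real.sin (Real.pi * u) *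
        tr (4998 / 10000) (4999 / 10000) u : ℝ) : ℂ) := by
    funext u
    unfold Fq
    congr 1
    ring
  rw [e]
  exact hK

lemma tr_cont (s b : ℝ) : Continuous (tr s b) := by
  unfold tr
  fun_prop

lemma Fq_cont : Continuous Fq := by
  unfold Fq
  exact (by fun_prop : Continuous fun u : ℝ => (61 / 25) * (1 - 3 / 2 * u ^ 2)).mul (tr_cont _ _)

/-- upper bound for the variance integral -/
lemma I1_le : ∫ u in (0 : ℝ)..1, u * Fq u ^ 2 ≤ 50001 / 100000 := by
  have hc : Continuous fun u : ℝ => u * Fq u ^ 2 := continuous_id.mul (Fq_cont.pow 2)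
  have h1 : ∫ u in (0 : ℝ)..1, u * Fq u ^ 2 = (∫ u in (0 : ℝ)..(1 / 2), u * Fq u ^ 2) +
      ∫ u in (1 / 2 : ℝ)..1, u * Fq u ^ 2 :=
    (intervalIntegral.integral_add_adjacent_intervals (hc.intervalIntegrable _ _)
      (hc.intervalIntegrable _ _)).symm
  have h2 : ∫ u in (1 / 2 : ℝ)..1, u * Fq u ^ 2 = 0 := by
    rw [← intervalIntegral.integral_zero (a := (1 / 2 : ℝ)) (b := 1) (μ := volume)]
    apply intervalIntegral.integral_congr
    intro u hu
    rw [Set.uIcc_of_le (by norm_num)] at hu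
    have : Fq u = 0 := Fq_supp u (by linarith [hu.1])
    simp [this]
  have h3 : ∫ u in (0 : ℝ)..(1 / 2), u * Fq u ^ 2 ≤
      ∫ u in (0 : ℝ)..(1 / 2), (3721 / 625 * u - 11163 / 625 * u ^ 3 + 33489 / 2500 * u ^ 5) := by
    apply intervalIntegral.integral_mono_on (by norm_num) (hc.intervalIntegrable _ _)
      ((by fun_prop : Continuous fun u : ℝ => (3721 / 625 * u - 11163 / 625 * u ^ 3 +
        33489 / 2500 * u ^ 5)).intervalIntegrable _ _)
    intro u hu
    have h4 := tr_nonneg (4998 / 10000) (4999 / 10000) u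
    have h5 := tr_le (4998 / 10000) (4999 / 10000) u
    have h6 : tr (4998 / 10000) (4999 / 10000) u ^ 2 ≤ 1 := pow_le_one₀ h4 h5
    have e : u * Fq u ^ 2 = (3721 / 625 * u - 11163 / 625 * u ^ 3 + 33489 / 2500 * u ^ 5) *
        tr (4998 / 10000) (4999 / 10000) u ^ 2 := by
      unfold Fq
      ring
    rw [e]
    have h7 : 0 ≤ 3721 / 625 * u - 11163 / 625 * u ^ 3 + 33489 / 2500 * u ^ 5 := by
      have : 3721 / 625 * u - 11163 / 625 * u ^ 3 + 33489 / 2500 * u ^ 5 =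
          u * (61 / 25 * (1 - 3 / 2 * u ^ 2)) ^ 2 := by ring
      rw [this]
      exact mul_nonneg hu.1 (sq_nonneg _)
    exact mul_le_of_le_one_right h7 h6
  have h4 : ∫ u in (0 : ℝ)..(1 / 2), (3721 / 625 * u - 11163 / 625 * u ^ 3 + 33489 / 2500 * u ^ 5) =
      3721 / 625 * (1 / 8) - 11163 / 625 * (1 / 64) + 33489 / 2500 * (1 / 384) := by
    have hd : ∀ x ∈ Set.uIcc (0 : ℝ) (1 / 2), HasDerivAt (fun u : ℝ => 3721 / 625 * (u ^ 2 / 2) -
        11163 / 625 * (u ^ 4 / 4) + 33489 / 2500 * (u ^ 6 / 6))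
        (3721 / 625 * x - 11163 / 625 * x ^ 3 + 33489 / 2500 * x ^ 5) x := by
      intro x _
      have d2 := ((hasDerivAt_pow 2 x).div_const 2).const_mul (3721 / 625 : ℝ)
      have d4 := ((hasDerivAt_pow 4 x).div_const 4).const_mul (11163 / 625 : ℝ)
      have d6 := ((hasDerivAt_pow 6 x).div_const 6).const_mul (33489 / 2500 : ℝ)
      have d := (d2.sub d4).add d6
      refine d.congr_deriv ?_
      norm_num
    rw [intervalIntegral.integral_eq_sub_of_hasDerivAt hd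
      ((by fun_prop : Continuous fun u : ℝ => (3721 / 625 * u - 11163 / 625 * u ^ 3 +
        33489 / 2500 * u ^ 5)).intervalIntegrable _ _)]
    norm_num
  rw [h1, h2, add_zero]
  refine h3.trans ?_
  rw [h4]
  norm_num

lemma I1_nonneg : 0 ≤ ∫ u in (0 : ℝ)..1, u * Fq u ^ 2 := by
  apply intervalIntegral.integral_nonneg zero_le_one
  intro u hu
  exact mul_nonneg hu.1 (sq_nonneg _)

/-- the elementary integral -/
lemma J_eq : ∫ u in (0 : ℝ)..(1 / 2), (61 / 25) * (1 - 3 / 2 * u ^ 2) * Real.sin (Real.pi * u) =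
    61 / 25 * (1 / Real.pi - 3 / 2 / Real.pi ^ 2 + 3 / Real.pi ^ 3) := by
  have hpi : Real.pi ≠ 0 := Real.pi_pos.ne'
  have hd : ∀ x ∈ Set.uIcc (0 : ℝ) (1 / 2), HasDerivAt (fun u : ℝ => 61 / 25 *
      (-(Real.cos (Real.pi * u) / Real.pi) + 3 / 2 * (u ^ 2 * Real.cos (Real.pi * u) / Real.pi -
        2 * u * Real.sin (Real.pi * u) / Real.pi ^ 2 - 2 * Real.cos (Real.pi * u) / Real.pi ^ 3)))
      ((61 / 25) * (1 - 3 / 2 * x ^ 2) * Real.sin (Real.pi * x)) x := by
    intro x _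
    have hl : HasDerivAt (fun u : ℝ => Real.pi * u) Real.pi x := by
      simpa using (hasDerivAt_id x).const_mul Real.pi
    have hc := hl.cos
    have hs := hl.sin
    have d1 := (hc.div_const Real.pi).neg
    have d2 := ((hasDerivAt_pow 2 x).mul hc).div_const Real.pi
    have d3 := (((hasDerivAt_id x).const_mul 2).mul hs).div_const (Real.pi ^ 2)
    have d4 := (hc.const_mul 2).div_const (Real.pi ^ 3)
    have d := (d1.add (((d2.sub d3).sub d4).const_mul (3 / 2))).const_mul (61 / 25 : ℝ)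
    refine d.congr_deriv ?_
    simp only [id]
    field_simp
    norm_num
    ring
  rw [intervalIntegral.integral_eq_sub_of_hasDerivAt hd
    ((by fun_prop : Continuous fun u : ℝ => (61 / 25) * (1 - 3 / 2 * u ^ 2) *
      Real.sin (Real.pi * u)).intervalIntegrable _ _)]
  have e : Real.pi * (1 / 2) = Real.pi / 2 := by ring
  have e0 : Real.pi * 0 = 0 := mul_zero _
  rw [e, e0, Real.cos_pi_div_two, Real.sin_pi_div_two, Real.cos_zero, Real.sin_zero]
  field_simp
  ring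

/-- lower bound for the correlation integral -/
lemma I2_ge : 61 / 25 * (1 / Real.pi - 3 / 2 / Real.pi ^ 2 + 3 / Real.pi ^ 3) - 5 / 10000 ≤
    ∫ u in (0 : ℝ)..1, Fq u * Real.sin (Real.pi * u) := by
  have hpi := Real.pi_pos
  have hc : Continuous fun u : ℝ => Fq u * Real.sin (Real.pi * u) := Fq_cont.mul (by fun_prop)
  have hg : Continuous fun u : ℝ => (61 / 25) * (1 - 3 / 2 * u ^ 2) * Real.sin (Real.pi * u) := by
    fun_prop
  have hsin : ∀ u : ℝ, 0 ≤ u → u ≤ 1 → 0 ≤ Real.sin (Real.pi * u) := by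
    intro u h0 h1
    apply Real.sin_nonneg_of_nonneg_of_le_pi (by positivity)
    calc Real.pi * u ≤ Real.pi * 1 := by gcongr
      _ = Real.pi := mul_one _
  have h1 : ∫ u in (0 : ℝ)..1, Fq u * Real.sin (Real.pi * u) =
      (∫ u in (0 : ℝ)..(4998 / 10000), Fq u * Real.sin (Real.pi * u)) +
      ∫ u in (4998 / 10000 : ℝ)..1, Fq u * Real.sin (Real.pi * u) :=
    (intervalIntegral.integral_add_adjacent_intervals (hc.intervalIntegrable _ _)
      (hc.intervalIntegrable _ _)).symm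
  have h2 : 0 ≤ ∫ u in (4998 / 10000 : ℝ)..1, Fq u * Real.sin (Real.pi * u) := by
    apply intervalIntegral.integral_nonneg (by norm_num)
    intro u hu
    exact mul_nonneg (Fq_nonneg u) (hsin u (by linarith [hu.1]) hu.2)
  have h3 : ∫ u in (0 : ℝ)..(4998 / 10000), Fq u * Real.sin (Real.pi * u) =
      ∫ u in (0 : ℝ)..(4998 / 10000), (61 / 25) * (1 - 3 / 2 * u ^ 2) * Real.sin (Real.pi * u) := by
    apply intervalIntegral.integral_congr
    intro u hu
    rw [Set.uIcc_of_le (by norm_num)] at hu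
    have : |u| ≤ 4998 / 10000 := by
      rw [abs_of_nonneg hu.1]; exact hu.2
    show Fq u * Real.sin (Real.pi * u) = _
    unfold Fq
    rw [tr_one sb this, mul_one]
  have h4 : ∫ u in (0 : ℝ)..(1 / 2), (61 / 25) * (1 - 3 / 2 * u ^ 2) * Real.sin (Real.pi * u) =
      (∫ u in (0 : ℝ)..(4998 / 10000), (61 / 25) * (1 - 3 / 2 * u ^ 2) * Real.sin (Real.pi * u)) +
      ∫ u in (4998 / 10000 : ℝ)..(1 / 2), (61 / 25) * (1 - 3 / 2 * u ^ 2) * Real.sin (Real.pi * u) :=
    (intervalIntegral.integral_add_adjacent_intervals (hg.intervalIntegrable _ _)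
      (hg.intervalIntegrable _ _)).symm
  have h5 : ∫ u in (4998 / 10000 : ℝ)..(1 / 2), (61 / 25) * (1 - 3 / 2 * u ^ 2) *
      Real.sin (Real.pi * u) ≤ ∫ u in (4998 / 10000 : ℝ)..(1 / 2), (61 / 25 : ℝ) := by
    apply intervalIntegral.integral_mono_on (by norm_num) (hg.intervalIntegrable _ _)
      (continuous_const.intervalIntegrable _ _)
    intro u hu
    have h6 := hsin u (by linarith [hu.1]) (by linarith [hu.2])
    have h7 := Real.sin_le_one (Real.pi * u)
    have h8 : 0 ≤ 1 - 3 / 2 * u ^ 2 := by nlinarith [hu.1, hu.2]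
    have h9 : 1 - 3 / 2 * u ^ 2 ≤ 1 := by nlinarith [sq_nonneg u]
    nlinarith
  rw [intervalIntegral.integral_const, smul_eq_mul] at h5
  rw [J_eq] at h4
  rw [h1, h3]
  have h6 : ((1 / 2 : ℝ) - 4998 / 10000) * (61 / 25) ≤ 5 / 10000 := by norm_num
  linarith

/-- the certificate polynomial -/
lemma cert1 (w : ℝ) : AA (3529 / 10000) (3594 / 10000) (764 / 10000) (-(267 / 10000))
    (-(103 / 10000)) w ≤ 1 := by
  unfold AA
  nlinarith [sq_nonneg (w ^ 2 + 267 / 206 * w - 6714 / 1000),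
    sq_nonneg (w - 2019 / 1000)]

lemma cert2 (w : ℝ) : AA (3529 / 10000) (3594 / 10000) (764 / 10000) (-(267 / 10000))
    (-(103 / 10000)) w ≤ 864 / 10000 * (w + 2025 / 1000) ^ 2 := by
  unfold AA
  nlinarith [sq_nonneg (w ^ 2 + 267 / 206 * w - 358 / 1000),
    sq_nonneg (w + 5486 / 10000)]

/-- the value of the certificate -/
lemma vl_gt : (10055 / 100000 : ℝ) < vl (3529 / 10000) (764 / 10000) (-(103 / 10000))
    (864 / 10000) (2025 / 1000) (∫ u in (0 : ℝ)..1, u * Fq u ^ 2)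
    (∫ u in (0 : ℝ)..1, Fq u * Real.sin (Real.pi * u)) 0 := by
  have h1 := I1_le
  have h0 := I1_nonneg
  have h2 := I2_ge
  set I1 := ∫ u in (0 : ℝ)..1, u * Fq u ^ 2 with hI1
  set I2 := ∫ u in (0 : ℝ)..1, Fq u * Real.sin (Real.pi * u) with hI2
  have hpi := Real.pi_pos
  have p1 := Real.pi_gt_d6
  have p2 := Real.pi_lt_d6
  -- the inverse of `π`
  set y := 1 / Real.pi with hy
  have y1 : 0.318309 < y := by
    rw [hy, lt_div_iff₀ hpi]; nlinarith
  have y2 : y < 0.31831 := by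
    rw [hy, div_lt_iff₀ hpi]; nlinarith
  have e2 : 61 / 25 * (1 / Real.pi - 3 / 2 / Real.pi ^ 2 + 3 / Real.pi ^ 3) =
      61 / 25 * (y - 3 / 2 * y ^ 2 + 3 * y ^ 3) := by
    rw [hy]
    field_simp
  rw [e2] at h2
  have y3 : y ^ 2 < 0.1013213 := by nlinarith
  have y3' : 0.10132 < y ^ 2 := by nlinarith
  have y4 : 0.0322510 < y ^ 3 := by nlinarith
  have h3 : (0.6410 : ℝ) < I2 := by
    refine lt_of_lt_of_le ?_ h2
    nlinarith
  unfold vl
  have e3 : 4 * (2025 / 1000) / Real.pi * (I2 - 0) = 81 / 10 * (y * I2) := by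
    rw [hy]
    field_simp
    ring
  rw [e3]
  have h4 : (0.2040360 : ℝ) < y * I2 := by nlinarith
  have h5 : I1 ^ 2 ≤ (50001 / 100000) ^ 2 := pow_le_pow_left₀ h0 h1 2
  nlinarith

/-- **the void set of a block has density at least `0.1005`** -/
theorem void_block {C : ℝ} (hC : 0 < C) :
    ∃ T1 : ℝ, ∀ T : ℝ, T1 ≤ T → ∀ (Z : Finset ℝ) (m : ℝ → ℕ), EFD C T Z m →
      10055 / 100000 * T ≤
        (volume (UU Z (Real.pi / Real.log T) ∩ Ioc (T + 3) (2 * T - 3))).toReal := by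
  obtain ⟨K1, hK1⟩ := Fq_lip1
  obtain ⟨K2, hK2⟩ := Fq_lip2
  exact void_meas (F := Fq) (b := 4999 / 10000) (k := 61 / 25) (by norm_num) (by norm_num)
    Fq_nonneg Fq_le Fq_supp hK1 hK2 (by norm_num) (by norm_num) (by norm_num) (by norm_num)
    cert1 cert2 hC vl_gt

end Pool.Agent.Y747
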