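import Pool.Agent.Y747.Blk

/-! From blocks to all indices. -/

open Complex Filter Topology Set MeasureTheory

namespace Pool.Agent.Y747

open SG (ord NZ zmult ZS)
open W200.HW (Ix mem_Ix)
open Pool.Agent.TH873.EW (ZV ct mom XV)

lemma ct_even (g : ℝ → ℝ) (x : ℝ) : ct g (-x) = ct g x := by
  unfold Pool.Agent.TH873.EW.ct
  congr 1
  apply intervalIntegral.integral_congr
  intro t _
  simp only
  rw [show 2 * Real.pi * -x * t = -(2 * Real.pi * x * t) by ring, Real.cos_neg]

/-- diagonal and neighbouring terms of a double sum -/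
lemma double_ge (S : Finset ℕ) (w : ℕ → ℕ → ℝ) (hw : ∀ n m, 0 ≤ w n m)
    (hs : ∀ n m, w n m = w m n) :
    ∑ n ∈ S, w n n + 2 * ∑ n ∈ S.filter (fun n => n + 1 ∈ S), w n (n + 1) ≤
      ∑ n ∈ S, ∑ m ∈ S, w n m := by
  classical
  set S' := S.filter (fun n => n + 1 ∈ S) with hS'
  set D : Finset (ℕ × ℕ) := S.image (fun n => (n, n)) with hD
  set U : Finset (ℕ × ℕ) := S'.image (fun n => (n, n + 1)) with hU
  set L : Finset (ℕ × ℕ) := S'.image (fun n => (n + 1, n)) with hL
  have eD : ∑ p ∈ D, w p.1 p.2 = ∑ n ∈ S, w n n := by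
    rw [hD, Finset.sum_image]
    intro a _ b _ h
    exact (Prod.mk.inj h).1
  have eU : ∑ p ∈ U, w p.1 p.2 = ∑ n ∈ S', w n (n + 1) := by
    rw [hU, Finset.sum_image]
    intro a _ b _ h
    exact (Prod.mk.inj h).1
  have eL : ∑ p ∈ L, w p.1 p.2 = ∑ n ∈ S', w n (n + 1) := by
    rw [hL, Finset.sum_image]
    · exact Finset.sum_congr rfl fun n _ => hs _ _
    · intro a _ b _ h
      exact (Prod.mk.inj h).2
  have d1 : Disjoint D U := by
    rw [Finset.disjoint_left]
    intro p hp hp'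
    rw [hD, Finset.mem_image] at hp
    rw [hU, Finset.mem_image] at hp'
    obtain ⟨n, _, rfl⟩ := hp
    obtain ⟨m, _, h⟩ := hp'
    have a := Prod.mk.inj h
    omega
  have d2 : Disjoint (D ∪ U) L := by
    rw [Finset.disjoint_left]
    intro p hp hp'
    rw [hL, Finset.mem_image] at hp'
    obtain ⟨m, _, rfl⟩ := hp'
    rw [Finset.mem_union, hD, hU, Finset.mem_image, Finset.mem_image] at hp
    rcases hp with ⟨n, _, h⟩ | ⟨n, _, h⟩
    · have a := Prod.mk.inj h
      omega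
    · have a := Prod.mk.inj h
      omega
  have hsub : (D ∪ U) ∪ L ⊆ S ×ˢ S := by
    intro p hp
    rw [Finset.mem_union, Finset.mem_union] at hp
    rw [Finset.mem_product]
    rcases hp with (hp | hp) | hp
    · rw [hD, Finset.mem_image] at hp
      obtain ⟨n, hn, rfl⟩ := hp
      exact ⟨hn, hn⟩
    · rw [hU, Finset.mem_image] at hp
      obtain ⟨n, hn, rfl⟩ := hp
      rw [hS', Finset.mem_filter] at hn
      exact ⟨hn.1, hn.2⟩
    · rw [hL, Finset.mem_image] at hp
      obtain ⟨n, hn, rfl⟩ := hp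
      rw [hS', Finset.mem_filter] at hn
      exact ⟨hn.2, hn.1⟩
  have h1 := Finset.sum_le_sum_of_subset_of_nonneg hsub
    (f := fun p : ℕ × ℕ => w p.1 p.2) (fun p _ _ => hw _ _)
  rw [Finset.sum_union d2, Finset.sum_union d1, eD, eU, eL, Finset.sum_product] at h1
  linarith

/-- the block bound -/
theorem blk_Fs (hRH : RiemannHypothesis) {g : ℝ → ℝ} (hg : ContDiff ℝ 1 g) (h1 : g 1 = 0)
    (hpos : ∀ x, 0 ≤ ct g x) {ε : ℝ} (hε : 0 < ε) :
    ∃ V0 : ℝ, 10 ≤ V0 ∧ ∀ V : ℝ, V0 ≤ V → ∑ n ∈ Bx V, Fs g n ≤ (mom g + ε) * XV V := by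
  classical
  obtain ⟨C, hC, hbd⟩ := ct_bound hg.continuous
  obtain ⟨μ0, hμ0, hμ01, hcmp⟩ := compare hg h1 hpos (η := ε / 32) (by positivity)
  set I : ℝ := ∫ t in (0 : ℝ)..1, t * g t with hI
  -- choice of `μ`
  have hc : ContinuousAt (fun μ : ℝ => g 0 / μ + 2 * μ * I) 1 := by
    have : ContinuousAt (fun μ : ℝ => g 0 / μ) 1 :=
      continuousAt_const.div continuousAt_id one_ne_zero
    exact this.add (by fun_prop)
  have hev : ∀ᶠ μ in 𝓝[<] (1 : ℝ), g 0 / μ + 2 * μ * I < mom g + ε / 4 := by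
    apply nhdsWithin_le_nhds
    apply hc.eventually_lt continuousAt_const
    simp only [div_one, mul_one]
    have : mom g = g 0 + 2 * I := rfl
    linarith
  have hev2 : ∀ᶠ μ in 𝓝[<] (1 : ℝ), μ0 < μ := nhdsWithin_le_nhds (lt_mem_nhds hμ01)
  have hlt : ∀ᶠ s in 𝓝[<] (1 : ℝ), s < 1 := self_mem_nhdsWithin
  obtain ⟨μ, ⟨hμ2, hμ3⟩, hμ4⟩ := ((hev.and hev2).and hlt).exists
  have hμpos : 0 < μ := hμ0.trans hμ3
  set ε' : ℝ := min 1 (ε / 8) with hε'
  have hε'0 : 0 < ε' := lt_min one_pos (by positivity)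
  have hε'1 : ε' ≤ 1 := min_le_left _ _
  have hε'2 : ε' ≤ ε / 8 := min_le_right _ _
  obtain ⟨V1, hV1, hp⟩ := blk_pair hRH hg h1 hμpos hμ4 hε'0
  obtain ⟨V2, hV2, hcm⟩ := hcmp μ hμ3.le hμ4
  have hpi := Real.pi_gt_three
  have hpi4 := Real.pi_lt_four
  refine ⟨max (max V1 V2) (2 + 16 * C * (2 * Real.pi) / ε), hV1.trans
    ((le_max_left _ _).trans (le_max_left _ _)), fun V hV => ?_⟩
  have hVV1 : V1 ≤ V := ((le_max_left _ _).trans (le_max_left _ _)).trans hV
  have hVV2 : V2 ≤ V := ((le_max_right _ _).trans (le_max_left _ _)).trans hV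
  have hVV3 : 2 + 16 * C * (2 * Real.pi) / ε ≤ V := (le_max_right _ _).trans hV
  have hV10 : 10 ≤ V := hV1.trans hVV1
  obtain ⟨b1, b2⟩ := hp V hVV1
  have hcomp := hcm V hVV2
  have hlog : 1 ≤ Real.log V := by
    rw [Real.le_log_iff_exp_le (by linarith)]
    have := Real.exp_one_lt_d9
    linarith
  have hXV : 16 * C / ε ≤ XV V := by
    unfold Pool.Agent.TH873.EW.XV
    rw [le_div_iff₀ (by positivity)]
    have h3 : 16 * C * (2 * Real.pi) / ε ≤ V - 2 := by linarith
    calc 16 * C / ε * (2 * Real.pi) = 16 * C * (2 * Real.pi) / ε := by ring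
      _ ≤ (V - 2) * 1 := by linarith
      _ ≤ (V - 2) * Real.log V := by gcongr; linarith
  have hXV0 : 0 < XV V := lt_of_lt_of_le (by positivity) hXV
  rw [div_le_iff₀ hε] at hXV
  set w : ℕ → ℕ → ℝ := fun n m => Real.exp (-(ord n - ord m) ^ 2 / 4) *
        ct g (μ * Real.log V / (2 * Real.pi) * (ord n - ord m)) with hw
  have hw0 : ∀ n m, 0 ≤ w n m := fun n m => mul_nonneg (Real.exp_pos _).le (hpos _)
  have hws : ∀ n m, w n m = w m n := by
    intro n m
    simp only [hw]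
    rw [show μ * Real.log V / (2 * Real.pi) * (ord n - ord m) =
      -(μ * Real.log V / (2 * Real.pi) * (ord m - ord n)) by ring, ct_even]
    congr 2
    ring
  have hdg := double_ge (Bx V) w hw0 hws
  set S' := (Bx V).filter (fun n => n + 1 ∈ Bx V) with hS'
  have hsplit := Finset.sum_filter_add_sum_filter_not (Bx V) (fun n => n + 1 ∈ Bx V)
    (fun n => ct g (dl n))
  rw [← hS'] at hsplit
  -- the exceptional index
  have hexc : ∑ n ∈ (Bx V).filter (fun n => ¬ n + 1 ∈ Bx V), ct g (dl n) ≤ C := by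
    have hsub : (Bx V).filter (fun n => ¬ n + 1 ∈ Bx V) ⊆ {NZ (2 * V - 1)} := by
      intro n hn
      rw [Finset.mem_filter, mem_Bx, mem_Bx] at hn
      obtain ⟨⟨c1, c2, c3⟩, c4⟩ := hn
      rw [Finset.mem_singleton]
      have c5 := (SG.ord_le_iff c1 (2 * V - 1)).1 c3
      have c6 : ¬ n + 1 ≤ NZ (2 * V - 1) := by
        intro h
        apply c4
        refine ⟨by omega, lt_of_lt_of_le c2 (SG.ord_mono c1 (by omega)), ?_⟩
        exact (SG.ord_le_iff (by omega) _).2 h
      omega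
    calc ∑ n ∈ (Bx V).filter (fun n => ¬ n + 1 ∈ Bx V), ct g (dl n) ≤
        ∑ n ∈ {NZ (2 * V - 1)}, ct g (dl n) :=
          Finset.sum_le_sum_of_subset_of_nonneg hsub fun n _ _ => hpos _
      _ = ct g (dl (NZ (2 * V - 1))) := Finset.sum_singleton _ _
      _ ≤ C := (le_abs_self _).trans (hbd _)
  have hS'sum : ∑ n ∈ S', ct g (dl n) ≤ ∑ n ∈ S', w n (n + 1) + 2 * (ε / 32) * (Bx V).card := by
    have h3 : ∑ n ∈ S', ct g (dl n) ≤ ∑ n ∈ S', (w n (n + 1) + 2 * (ε / 32)) := by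
      apply Finset.sum_le_sum
      intro n hn
      have hn' : n ∈ Bx V := (Finset.mem_filter.1 hn).1
      rw [hws n (n + 1)]
      exact hcomp n hn'
    rw [Finset.sum_add_distrib, Finset.sum_const, nsmul_eq_mul] at h3
    have h4 : (S'.card : ℝ) ≤ (Bx V).card := by
      exact_mod_cast Finset.card_le_card (Finset.filter_subset _ _)
    have h5 : (S'.card : ℝ) * (2 * (ε / 32)) ≤ 2 * (ε / 32) * (Bx V).card := by
      rw [mul_comm]
      exact mul_le_mul_of_nonneg_left h4 (by positivity)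
    linarith
  have hdiag : ∑ n ∈ Bx V, w n n = (Bx V).card * ct g 0 := by
    have : ∀ n ∈ Bx V, w n n = ct g 0 := by
      intro n _
      simp [hw]
    rw [Finset.sum_congr rfl this, Finset.sum_const, nsmul_eq_mul]
  have hFs : ∑ n ∈ Bx V, Fs g n = (Bx V).card * ct g 0 + 2 * ∑ n ∈ Bx V, ct g (dl n) := by
    unfold Fs
    rw [Finset.sum_add_distrib, Finset.sum_const, nsmul_eq_mul, Finset.mul_sum]
  have hcardle : ((Bx V).card : ℝ) ≤ 2 * XV V := by
    have := (abs_le.1 b1).2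
    nlinarith
  have b3 := (abs_le.1 b2).2
  have h6 : XV V * (g 0 / μ + 2 * μ * I) ≤ XV V * (mom g + ε / 4) :=
    mul_le_mul_of_nonneg_left hμ2.le hXV0.le
  have h7 : ε' * XV V ≤ ε / 8 * XV V := mul_le_mul_of_nonneg_right hε'2 hXV0.le
  have h8 : 2 * (ε / 32) * ((Bx V).card : ℝ) ≤ 2 * (ε / 32) * (2 * XV V) :=
    mul_le_mul_of_nonneg_left hcardle (by positivity)
  rw [hFs]
  rw [hdiag] at hdg
  have h9 : ∑ n ∈ Bx V, ∑ m ∈ Bx V, w n m - XV V * (g 0 / μ + 2 * μ * I) ≤ ε' * XV V := b3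
  nlinarith

/-- from blocks to `(0, T]` -/
theorem global (hRH : RiemannHypothesis) (A C : ℝ) (F : ℕ → ℝ) (hF : ∀ n, 0 ≤ F n)
    (hFC : ∀ n, F n ≤ C) (hblk : ∃ V0 : ℝ, 10 ≤ V0 ∧ ∀ V : ℝ, V0 ≤ V →
      ∑ n ∈ Bx V, F n ≤ A * XV V) :
    ∃ B V0 : ℝ, 0 < B ∧ 10 ≤ V0 ∧ ∀ T : ℝ, V0 ≤ T →
      ∑ n ∈ Ix T, F n ≤ A * (T * Real.log T / (2 * Real.pi)) + B * T := by
  classical
  obtain ⟨V0, hV0, hb⟩ := hblk
  obtain ⟨L, hL, hed⟩ := edge hRH
  have hpi := Real.pi_gt_three
  have hC0 : 0 ≤ C := (hF 0).trans (hFC 0)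
  have hXpos : ∀ V : ℝ, 10 ≤ V → 0 < XV V := by
    intro V hV
    unfold Pool.Agent.TH873.EW.XV
    have : 0 < Real.log V := Real.log_pos (by linarith)
    have : 0 < V - 2 := by linarith
    positivity
  have hA : 0 ≤ A := by
    have h1 := hb V0 le_rfl
    have h2 : 0 ≤ ∑ n ∈ Bx V0, F n := Finset.sum_nonneg fun n _ => hF n
    have h3 := hXpos V0 hV0
    by_contra h
    rw [not_le] at h
    have : A * XV V0 < 0 := mul_neg_of_neg_of_pos h h3
    linarith
  set S : ℝ → ℝ := fun T => ∑ n ∈ Ix T, F n with hS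
  have hSmono : ∀ T T' : ℝ, T ≤ T' → S T ≤ S T' := by
    intro T T' h
    apply Finset.sum_le_sum_of_subset_of_nonneg
    · intro n hn
      rw [mem_Ix] at hn ⊢
      exact ⟨hn.1, hn.2.trans h⟩
    · intro n _ _
      exact hF n
  have hS0 : ∀ T, 0 ≤ S T := fun T => Finset.sum_nonneg fun n _ => hF n
  set B : ℝ := 8 * C * L + S (2 * V0) / V0 + 1 with hB
  have hB0 : 0 < B := by
    have := hS0 (2 * V0)
    positivity
  -- the step
  have hstep : ∀ T : ℝ, 2 * V0 ≤ T → S T ≤ S (T / 2) + A * (T / 2 * Real.log T / (2 * Real.pi)) +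
      4 * C * L * Real.log T := by
    intro T hT
    have hT0 : 20 ≤ T := by linarith
    have hlT : 0 < Real.log T := Real.log_pos (by linarith)
    have h1 := hb (T / 2) (by linarith)
    have h2 : XV (T / 2) ≤ T / 2 * Real.log T / (2 * Real.pi) := by
      unfold Pool.Agent.TH873.EW.XV
      have h3 : Real.log (T / 2) ≤ Real.log T := Real.log_le_log (by linarith) (by linarith)
      have h4 : 0 ≤ Real.log (T / 2) := Real.log_nonneg (by linarith)
      apply div_le_div_of_nonneg_right _ (by positivity)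
      calc (T / 2 - 2) * Real.log (T / 2) ≤ (T / 2) * Real.log (T / 2) := by
            apply mul_le_mul_of_nonneg_right _ h4; linarith
        _ ≤ T / 2 * Real.log T := by gcongr
    have h3 := hed T (by linarith) (T / 2) (T / 2 + 1) (by linarith)
    have h4 := hed T (by linarith) (T - 1) T (by linarith)
    set E1 := (Ix T).filter (fun n => T / 2 < ord n ∧ ord n ≤ T / 2 + 1) with hE1
    set E2 := (Ix T).filter (fun n => T - 1 < ord n ∧ ord n ≤ T) with hE2
    have hsub : Ix T ⊆ ((Ix (T / 2) ∪ Bx (T / 2)) ∪ E1) ∪ E2 := by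
      intro n hn
      rw [mem_Ix] at hn
      simp only [Finset.mem_union, hE1, hE2, Finset.mem_filter, mem_Bx, mem_Ix]
      by_cases c1 : ord n ≤ T / 2
      · exact Or.inl (Or.inl (Or.inl ⟨hn.1, c1⟩))
      · rw [not_le] at c1
        by_cases c2 : ord n ≤ T / 2 + 1
        · exact Or.inl (Or.inr ⟨hn, c1, c2⟩)
        · rw [not_le] at c2
          by_cases c3 : ord n ≤ T - 1
          · refine Or.inl (Or.inl (Or.inr ⟨hn.1, c2, ?_⟩))
            linarith
          · rw [not_le] at c3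
            exact Or.inr ⟨hn, c3, hn.2⟩
    have hun : ∀ X Y : Finset ℕ, ∑ n ∈ X ∪ Y, F n ≤ ∑ n ∈ X, F n + ∑ n ∈ Y, F n := by
      intro X Y
      have h5 := Finset.sum_union_inter (s₁ := X) (s₂ := Y) (f := F)
      have h6 : 0 ≤ ∑ n ∈ X ∩ Y, F n := Finset.sum_nonneg fun n _ => hF n
      linarith
    have h5 : S T ≤ ∑ n ∈ ((Ix (T / 2) ∪ Bx (T / 2)) ∪ E1) ∪ E2, F n :=
      Finset.sum_le_sum_of_subset_of_nonneg hsub fun n _ _ => hF n
    have h6 := hun ((Ix (T / 2) ∪ Bx (T / 2)) ∪ E1) E2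
    have h7 := hun (Ix (T / 2) ∪ Bx (T / 2)) E1
    have h8 := hun (Ix (T / 2)) (Bx (T / 2))
    have hE : ∀ X : Finset ℕ, (X.card : ℝ) ≤ L * Real.log T * 2 →
        ∑ n ∈ X, F n ≤ 2 * C * L * Real.log T := by
      intro X hX
      calc ∑ n ∈ X, F n ≤ ∑ n ∈ X, C := Finset.sum_le_sum fun n _ => hFC n
        _ = X.card * C := by rw [Finset.sum_const, nsmul_eq_mul]
        _ ≤ (L * Real.log T * 2) * C := by gcongr
        _ = _ := by ring
    have h9 := hE E1 (h3.trans (le_of_eq (by ring)))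
    have h10 := hE E2 (h4.trans (le_of_eq (by ring)))
    have h11 : A * XV (T / 2) ≤ A * (T / 2 * Real.log T / (2 * Real.pi)) :=
      mul_le_mul_of_nonneg_left h2 hA
    have h12 : S (T / 2) = ∑ n ∈ Ix (T / 2), F n := rfl
    rw [h12]
    linarith
  refine ⟨B, V0, hB0, hV0, ?_⟩
  have hV0pos : 0 < V0 := by linarith
  have key : ∀ j : ℕ, ∀ T : ℝ, V0 ≤ T → T ≤ 2 ^ (j + 1) * V0 →
      S T ≤ A * (T * Real.log T / (2 * Real.pi)) + B * T := by
    intro j
    induction j with
    | zero =>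
      intro T h1 h2
      have h3 : S T ≤ S (2 * V0) := hSmono _ _ (by
        rw [zero_add, pow_one] at h2
        exact h2)
      have h4 : S (2 * V0) ≤ B * T := by
        have h5 : S (2 * V0) = S (2 * V0) / V0 * V0 := by field_simp
        have h6 : S (2 * V0) / V0 ≤ B := by
          rw [hB]
          have : 0 ≤ 8 * C * L := by positivity
          linarith
        have h7 : 0 ≤ S (2 * V0) / V0 := div_nonneg (hS0 _) hV0pos.le
        calc S (2 * V0) = S (2 * V0) / V0 * V0 := h5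
          _ ≤ B * T := by gcongr
      have h5 : 0 ≤ A * (T * Real.log T / (2 * Real.pi)) := by
        have : 0 ≤ Real.log T := Real.log_nonneg (by linarith)
        have : 0 < T := by linarith
        positivity
      linarith
    | succ j ih =>
      intro T h1 h2
      rcases le_total T (2 ^ (j + 1) * V0) with h3 | h3
      · exact ih T h1 h3
      · have hpow : (1 : ℝ) ≤ 2 ^ j := one_le_pow₀ (by norm_num)
        have h4 : 2 * V0 ≤ T := by
          rw [pow_succ] at h3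
          nlinarith
        have h5 := ih (T / 2) (by linarith) (by rw [pow_succ] at h2; linarith)
        have h6 := hstep T h4
        have hT0 : 0 < T := by linarith
        have h7 : Real.log (T / 2) ≤ Real.log T := Real.log_le_log (by linarith) (by linarith)
        have h8 : Real.log T ≤ T := by
          have := Real.log_le_sub_one_of_pos hT0
          linarith
        have h9 : A * (T / 2 * Real.log (T / 2) / (2 * Real.pi)) ≤
            A * (T / 2 * Real.log T / (2 * Real.pi)) := by gcongr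
        have h10 : 4 * C * L * Real.log T ≤ B / 2 * T := by
          have h11 : 4 * C * L ≤ B / 2 := by
            rw [hB]
            have : 0 ≤ S (2 * V0) / V0 := div_nonneg (hS0 _) hV0pos.le
            linarith
          have : 0 ≤ Real.log T := Real.log_nonneg (by linarith)
          calc 4 * C * L * Real.log T ≤ B / 2 * Real.log T := by gcongr
            _ ≤ B / 2 * T := by gcongr
        have h11 : A * (T / 2 * Real.log T / (2 * Real.pi)) +
            A * (T / 2 * Real.log T / (2 * Real.pi)) = A * (T * Real.log T / (2 * Real.pi)) := by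
          ring
        linarith
  intro T hT
  obtain ⟨j, hj⟩ := pow_unbounded_of_one_lt (T / V0) (by norm_num : (1 : ℝ) < 2)
  apply key j T hT
  rw [div_lt_iff₀ hV0pos] at hj
  rw [pow_succ]
  nlinarith

/-- averages over all indices -/
theorem average (hRH : RiemannHypothesis) (A C : ℝ) (F : ℕ → ℝ) (hF : ∀ n, 0 ≤ F n)
    (hFC : ∀ n, F n ≤ C) (hblk : ∀ ε : ℝ, 0 < ε → ∃ V0 : ℝ, 10 ≤ V0 ∧ ∀ V : ℝ, V0 ≤ V →
      ∑ n ∈ Bx V, F n ≤ (A + ε) * XV V) (ε : ℝ) (hε : 0 < ε) :
    ∀ᶠ N : ℕ in atTop, ∑ n ∈ Finset.Icc 1 N, F n ≤ (A + ε) * N := by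
  have hpi := Real.pi_gt_three
  -- `A ≥ 0`
  have hA : 0 ≤ A := by
    by_contra h
    rw [not_le] at h
    obtain ⟨V0, hV0, hb⟩ := hblk (-A / 2) (by linarith)
    have h1 := hb V0 le_rfl
    have h2 : 0 ≤ ∑ n ∈ Bx V0, F n := Finset.sum_nonneg fun n _ => hF n
    have h3 : 0 < XV V0 := by
      unfold Pool.Agent.TH873.EW.XV
      have : 0 < Real.log V0 := Real.log_pos (by linarith)
      have : 0 < V0 - 2 := by linarith
      positivity
    have : (A + -A / 2) * XV V0 < 0 := mul_neg_of_neg_of_pos (by linarith) h3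
    linarith
  set e : ℝ := min (ε / 4) (min 1 (ε / (4 * (A + 1)))) with he
  have he0 : 0 < e := by
    rw [he]
    have : 0 < ε / (4 * (A + 1)) := by positivity
    exact lt_min (by positivity) (lt_min one_pos this)
  have he1 : e ≤ ε / 4 := min_le_left _ _
  have he2 : e ≤ 1 := (min_le_right _ _).trans (min_le_left _ _)
  have he3 : e ≤ ε / (4 * (A + 1)) := (min_le_right _ _).trans (min_le_right _ _)
  obtain ⟨B, V0, hB, hV0, hT⟩ := global hRH (A + e) C F hF hFC (hblk e he0)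
  have hlim : Tendsto (fun N : ℕ => ord (N + 1)) atTop atTop :=
    SG.ord_tendsto.comp (tendsto_add_atTop_nat 1)
  filter_upwards [hlim.eventually_ge_atTop V0, W249.TCF.T_le e he0 he2,
    (Real.tendsto_log_atTop.comp hlim).eventually_ge_atTop (B * (2 * Real.pi) / e)] with N h1 h2 h3
  simp only [Function.comp] at h3
  set T := ord (N + 1) with hTd
  have h4 := hT T h1
  have hT0 : 0 < T := by linarith
  have hsub : ∑ n ∈ Finset.Icc 1 N, F n ≤ ∑ n ∈ Ix T, F n := by
    apply Finset.sum_le_sum_of_subset_of_nonneg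
    · intro n hn
      rw [Finset.mem_Icc] at hn
      rw [mem_Ix]
      exact ⟨hn.1, SG.ord_mono hn.1 (by omega)⟩
    · intro n _ _
      exact hF n
  set X := T * Real.log T / (2 * Real.pi) with hX
  have h5 : B * T ≤ e * X := by
    rw [div_le_iff₀ he0] at h3
    rw [hX, ← mul_div_assoc, le_div_iff₀ (by positivity)]
    nlinarith
  have h6 : (A + 2 * e) * X ≤ (A + 2 * e) * ((1 + e) * N) :=
    mul_le_mul_of_nonneg_left h2 (by positivity)
  have h7 : (A + 2 * e) * (1 + e) ≤ A + ε := by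
    rw [le_div_iff₀ (by positivity)] at he3
    nlinarith
  have hN0 : (0 : ℝ) ≤ N := Nat.cast_nonneg N
  have h8 : (A + 2 * e) * (1 + e) * N ≤ (A + ε) * N := mul_le_mul_of_nonneg_right h7 hN0
  calc ∑ n ∈ Finset.Icc 1 N, F n ≤ (A + e) * X + B * T := hsub.trans h4
    _ ≤ (A + 2 * e) * X := by linarith
    _ ≤ (A + 2 * e) * ((1 + e) * N) := h6
    _ = (A + 2 * e) * (1 + e) * N := by ring
    _ ≤ _ := h8

/-- **the pair correlation inequality for consecutive ordinates** -/
theorem main (hRH : RiemannHypothesis) {g : ℝ → ℝ} (hg : ContDiff ℝ 1 g) (h1 : g 1 = 0)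
    (hpos : ∀ x, 0 ≤ ct g x) (ε : ℝ) (hε : 0 < ε) :
    ∀ᶠ N : ℕ in atTop, ∑ n ∈ Finset.Icc 1 N, (ct g 0 + 2 * ct g (dl n)) ≤ (mom g + ε) * N := by
  obtain ⟨C, hC, hbd⟩ := ct_bound hg.continuous
  apply average hRH (mom g) (3 * C) (fun n => ct g 0 + 2 * ct g (dl n))
  · intro n
    have := hpos 0
    have := hpos (dl n)
    positivity
  · intro n
    have h2 := (le_abs_self _).trans (hbd 0)
    have h3 := (le_abs_self _).trans (hbd (dl n))
    show ct g 0 + 2 * ct g (dl n) ≤ 3 * C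
    linarith
  · intro ε hε
    exact blk_Fs hRH hg h1 hpos hε
  · exact hε

end Pool.Agent.Y747
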