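import Pool.Agent.Y747.Fc
import Pool.Agent.Y747.Glob
import Pool.Agent.W198.TC.Main

/-! From the void set to sums over the gaps. -/

open Complex Filter Topology Set MeasureTheory

namespace Pool.Agent.Y747

open TC (ordz mu EFD)
open SG (ord NZ zmult ZS)
open W200.HW (Ix mem_Ix)
open Pool.Agent.TH873.EW (XV)

/-- upper bound for the counting function -/
lemma NZ_upper (hRH : RiemannHypothesis) (ε : ℝ) (hε : 0 < ε) : ∃ T0 : ℝ, 10 ≤ T0 ∧ ∀ T : ℝ,
    T0 ≤ T → (NZ T : ℝ) ≤ (1 + ε) * (T * Real.log T / (2 * Real.pi)) := by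
  obtain ⟨C, T1, hC, hT1, h⟩ := H370.nn_asymp H370.good_zeta
  have hpi := Real.pi_gt_three
  have ev : ∀ᶠ V : ℝ in atTop, (C + 1 + ε) * (4 * Real.pi) / ε ≤ Real.log V :=
    Real.tendsto_log_atTop.eventually_ge_atTop _
  obtain ⟨V1, hV1⟩ := eventually_atTop.1 ev
  obtain ⟨B, V0, hB, hV0, hg⟩ := global hRH (1 + ε / 2) 1 (fun _ => 1) (fun _ => zero_le_one)
    (fun _ => le_rfl) (by
      refine ⟨max 10 (max T1 V1), le_max_left _ _, fun V hV => ?_⟩
      have h1 : 10 ≤ V := (le_max_left _ _).trans hV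
      have h2 : T1 ≤ V := ((le_max_left _ _).trans (le_max_right _ _)).trans hV
      have h3 : V1 ≤ V := ((le_max_right _ _).trans (le_max_right _ _)).trans hV
      have h4 := hV1 V h3
      rw [Finset.sum_const, nsmul_eq_mul, mul_one, card_Bx hRH h1]
      have h5 := (abs_le.1 (h V h2 (V + 1) (2 * V - 1) (by linarith) le_rfl le_rfl
        (by linarith))).2
      have hl : Real.log V ≤ V := by
        have := Real.log_le_sub_one_of_pos (show 0 < V by linarith)
        linarith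
      have hl0 : 0 ≤ Real.log V := Real.log_nonneg (by linarith)
      unfold Pool.Agent.TH873.EW.XV
      rw [div_le_iff₀ hε] at h4
      have h6 : (C + 1 + ε) * V ≤ ε / 2 * (V * Real.log V / (2 * Real.pi)) := by
        have : ε / 2 * (V * Real.log V / (2 * Real.pi)) = (Real.log V * ε) / (4 * Real.pi) * V := by
          field_simp
          ring
        rw [this]
        apply mul_le_mul_of_nonneg_right _ (by linarith)
        rw [le_div_iff₀ (by positivity)]
        exact h4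
      have h7 : (1 + ε / 2) * (2 * Real.log V / (2 * Real.pi)) ≤ (1 + ε) * V := by
        have : 2 * Real.log V / (2 * Real.pi) ≤ V := by
          rw [div_le_iff₀ (by positivity)]
          nlinarith
        have h8 : 0 ≤ 2 * Real.log V / (2 * Real.pi) := by positivity
        nlinarith
      have e : (1 + ε / 2) * ((V - 2) * Real.log V / (2 * Real.pi)) =
          (1 + ε / 2) * (V * Real.log V / (2 * Real.pi)) -
          (1 + ε / 2) * (2 * Real.log V / (2 * Real.pi)) := by ring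
      rw [e]
      linarith)
  have ev2 : ∀ᶠ T : ℝ in atTop, B * (4 * Real.pi) / ε ≤ Real.log T :=
    Real.tendsto_log_atTop.eventually_ge_atTop _
  obtain ⟨V2, hV2⟩ := eventually_atTop.1 ev2
  refine ⟨max V0 V2, hV0.trans (le_max_left _ _), fun T hT => ?_⟩
  have h1 := hg T ((le_max_left _ _).trans hT)
  have h2 := hV2 T ((le_max_right _ _).trans hT)
  have hT0 : 0 < T := by linarith [(le_max_left V0 V2).trans hT]
  rw [Finset.sum_const, nsmul_eq_mul, mul_one, W200.HW.card_Ix] at h1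
  rw [div_le_iff₀ hε] at h2
  have h6 : B * T ≤ ε / 2 * (T * Real.log T / (2 * Real.pi)) := by
    have : ε / 2 * (T * Real.log T / (2 * Real.pi)) = (Real.log T * ε) / (4 * Real.pi) * T := by
      field_simp
      ring
    rw [this]
    apply mul_le_mul_of_nonneg_right _ hT0.le
    rw [le_div_iff₀ (by positivity)]
    exact h2
  linarith

/-- there are ordinates in `(T, (1 + η) T]` -/
lemma NZ_gap (hRH : RiemannHypothesis) (η : ℝ) (hη : 0 < η) : ∃ T0 : ℝ, 10 ≤ T0 ∧ ∀ T : ℝ,
    T0 ≤ T → NZ T < NZ ((1 + η) * T) := by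
  set e := η / (2 * (2 + η)) with he
  have he0 : 0 < e := by positivity
  have he1 : e * (2 + η) = η / 2 := by rw [he]; field_simp
  have he2 : e ≤ 1 / 2 := by
    rw [he, div_le_iff₀ (by positivity)]
    linarith
  obtain ⟨T1, hT1, h1⟩ := NZ_upper hRH e he0
  obtain ⟨T2, h2⟩ := W200.HW.NZ_lower e he0
  refine ⟨max T1 T2, hT1.trans (le_max_left _ _), fun T hT => ?_⟩
  have hpi := Real.pi_pos
  have a1 : T1 ≤ T := (le_max_left _ _).trans hT
  have a2 : T2 ≤ T := (le_max_right _ _).trans hT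
  have hT0 : 0 < T := by linarith
  have hTT : T ≤ (1 + η) * T := by nlinarith
  have b1 := h1 T a1
  have b2 := h2 ((1 + η) * T) (a2.trans hTT)
  have hl : 0 < Real.log T := Real.log_pos (by linarith)
  have hl2 : Real.log T ≤ Real.log ((1 + η) * T) := Real.log_le_log hT0 hTT
  set X := T * Real.log T / (2 * Real.pi) with hX
  have hX0 : 0 < X := by positivity
  have b3 : (1 - e) * ((1 + η) * X) ≤ (1 - e) * ((1 + η) * T / (2 * Real.pi) *
      Real.log ((1 + η) * T)) := by
    apply mul_le_mul_of_nonneg_left _ (by linarith)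
    have : (1 + η) * X = (1 + η) * T / (2 * Real.pi) * Real.log T := by rw [hX]; ring
    rw [this]
    gcongr
  have b4 : (1 + e) * X < (1 - e) * ((1 + η) * X) := by nlinarith
  have b5 : (NZ T : ℝ) < NZ ((1 + η) * T) := by linarith
  exact_mod_cast b5

/-- indices of the ordinates in `(T, 2 T]` -/
noncomputable def Jx (T : ℝ) : Finset ℕ := (Ix (2 * T)).filter (fun n => T < ord n)

lemma mem_Jx {T : ℝ} {n : ℕ} : n ∈ Jx T ↔ 1 ≤ n ∧ T < ord n ∧ ord n ≤ 2 * T := by
  unfold Jx
  rw [Finset.mem_filter, mem_Ix]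
  tauto

lemma ord_mem_ordz (RH : RiemannHypothesis) {U1 U2 : ℝ} (hU : 1 ≤ U1) {k : ℕ} (hk : 1 ≤ k)
    (h1 : U1 < ord k) (h2 : ord k ≤ U2) : ord k ∈ ordz U1 U2 := by
  have h := W200.HW.zero_at RH (T := ord k) (n := k) (mem_Ix.2 ⟨hk, le_rfl⟩)
  obtain ⟨b1, b2, b3, b4, b5⟩ := h
  unfold TC.ordz
  rw [Finset.mem_image]
  refine ⟨1 / 2 + I * ord k, ?_, by simp⟩
  rw [H370.mem_Zf H370.good_zeta hU]
  exact ⟨b2, b3, by simpa using h1, by simpa using h2, b1⟩

/-- the void set lies in the gaps -/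
lemma void_sub (RH : RiemannHypothesis) {T U1 U2 h : ℝ} (hT : 10 ≤ T) (hh : h ≤ 1)
    (hU1 : T ≤ U1) (hU1' : U1 ≤ T + 1) (hU2 : 2 * T - 1 ≤ U2) :
    UU (ordz U1 U2) h ∩ Ioc (T + 3) (2 * T - 3) ⊆
      Ioc T (ord (NZ T + 1)) ∪ ⋃ n ∈ Jx T, Ioo (ord n + h) (ord (n + 1) - h) := by
  rintro t ⟨ht, ht1, ht2⟩
  have hlt : t < ord (NZ t + 1) := by
    by_contra hc
    rw [not_lt] at hc
    have := (SG.ord_le_iff (by omega) t).1 hc
    omega
  have hmono : NZ T ≤ NZ t := by
    rcases Nat.eq_zero_or_pos (NZ T) with h0 | h0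
    · omega
    · have h1 := (SG.ord_le_iff h0 T).2 le_rfl
      exact (SG.ord_le_iff h0 t).1 (h1.trans (by linarith))
  rcases hmono.eq_or_lt with heq | hlt2
  · left
    rw [heq]
    exact ⟨by linarith, hlt.le⟩
  · right
    have hn1 : 1 ≤ NZ t := by omega
    have hle : ord (NZ t) ≤ t := (SG.ord_le_iff hn1 t).2 le_rfl
    have hTlt : T < ord (NZ t) := by
      by_contra hc
      rw [not_lt] at hc
      have := (SG.ord_le_iff hn1 T).1 hc
      omega
    rw [mem_iUnion₂]
    refine ⟨NZ t, mem_Jx.2 ⟨hn1, hTlt, by linarith⟩, ?_, ?_⟩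
    · -- distance to the left neighbour
      rcases lt_or_ge U1 (ord (NZ t)) with h1 | h1
      · have h2 := ord_mem_ordz RH (by linarith) hn1 h1 (by linarith : ord (NZ t) ≤ U2)
        have h3 := ht _ h2
        rw [abs_of_nonneg (by linarith)] at h3
        linarith
      · linarith
    · rcases le_or_gt (ord (NZ t + 1)) U2 with h1 | h1
      · have h2 := ord_mem_ordz RH (U1 := U1) (U2 := U2) (by linarith) (by omega : 1 ≤ NZ t + 1) (by
          rcases lt_or_ge U1 (ord (NZ t + 1)) with h4 | h4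
          · exact h4
          · linarith) h1
        have h3 := ht _ h2
        rw [abs_of_neg (by linarith)] at h3
        linarith
      · linarith

/-- measure form -/
lemma void_vol (RH : RiemannHypothesis) {T U1 U2 h : ℝ} (hT : 10 ≤ T) (hh : h ≤ 1)
    (hU1 : T ≤ U1) (hU1' : U1 ≤ T + 1) (hU2 : 2 * T - 1 ≤ U2) :
    (volume (UU (ordz U1 U2) h ∩ Ioc (T + 3) (2 * T - 3))).toReal ≤
      max 0 (ord (NZ T + 1) - T) + ∑ n ∈ Jx T, max 0 (ord (n + 1) - ord n - 2 * h) := by
  have h0 : 0 ≤ ∑ n ∈ Jx T, max 0 (ord (n + 1) - ord n - 2 * h) :=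
    Finset.sum_nonneg fun n _ => le_max_left _ _
  apply ENNReal.toReal_le_of_le_ofReal (add_nonneg (le_max_left _ _) h0)
  rw [ENNReal.ofReal_add (le_max_left _ _) h0, ENNReal.ofReal_sum_of_nonneg
    (fun n _ => le_max_left _ _)]
  refine (measure_mono (void_sub RH hT hh hU1 hU1' hU2)).trans ?_
  refine (measure_union_le _ _).trans ?_
  apply add_le_add
  · rw [Real.volume_Ioc]
    exact ENNReal.ofReal_le_ofReal (le_max_right _ _)
  · refine (measure_biUnion_finset_le _ _).trans (Finset.sum_le_sum fun n _ => ?_)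
    rw [Real.volume_Ioo]
    apply ENNReal.ofReal_le_ofReal
    refine le_trans (le_of_eq ?_) (le_max_right _ _)
    ring

/-- the gaps of a block -/
lemma block_gp (RH : RiemannHypothesis) : ∃ T1 : ℝ, 10 ≤ T1 ∧ ∀ T : ℝ, T1 ≤ T →
    10054 / 100000 * T ≤ ∑ n ∈ Jx T, max 0 (ord (n + 1) - ord n - 2 * (Real.pi / Real.log T)) := by
  obtain ⟨C, T0, hC, hT0, hef⟩ := Pool.Agent.W930.TCEFR.efr RH
  obtain ⟨T2, h2⟩ := void_block hC
  obtain ⟨T3, hT3, h3⟩ := NZ_gap RH (1 / 100000) (by norm_num)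
  have ev : ∀ᶠ T : ℝ in atTop, Real.pi ≤ Real.log T :=
    Real.tendsto_log_atTop.eventually_ge_atTop _
  obtain ⟨T4, h4⟩ := eventually_atTop.1 ev
  refine ⟨max (max T0 T2) (max T3 T4), hT0.trans ((le_max_left _ _).trans (le_max_left _ _)),
    fun T hT => ?_⟩
  have a1 : T0 ≤ T := ((le_max_left _ _).trans (le_max_left _ _)).trans hT
  have a2 : T2 ≤ T := ((le_max_right _ _).trans (le_max_left _ _)).trans hT
  have a3 : T3 ≤ T := ((le_max_left _ _).trans (le_max_right _ _)).trans hT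
  have a4 : T4 ≤ T := ((le_max_right _ _).trans (le_max_right _ _)).trans hT
  obtain ⟨U1, U2, b1, b2, b3, b4, b5⟩ := hef T a1
  have c1 := h2 T a2 (ordz U1 U2) mu b5
  have c2 := h3 T a3
  have c3 := h4 T a4
  have hL : 0 < Real.log T := lt_of_lt_of_le Real.pi_pos c3
  have hh : Real.pi / Real.log T ≤ 1 := (div_le_one hL).2 c3
  have c4 := void_vol RH (T := T) (h := Real.pi / Real.log T) (hT0.trans a1) hh b1 b2 b3
  have c5 : ord (NZ T + 1) ≤ (1 + 1 / 100000) * T := (SG.ord_le_iff (by omega) _).2 c2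
  have c6 : max 0 (ord (NZ T + 1) - T) ≤ 1 / 100000 * T := by
    apply max_le
    · have : 0 ≤ T := by linarith
      positivity
    · linarith
  linarith

/-- sum of the gaps of a block -/
lemma sum_gaps_le (RH : RiemannHypothesis) : ∃ T1 : ℝ, 10 ≤ T1 ∧ ∀ T : ℝ, T1 ≤ T →
    ∑ n ∈ Jx T, (ord (n + 1) - ord n) ≤ 4 * T := by
  obtain ⟨T3, hT3, h3⟩ := NZ_gap RH 1 one_pos
  refine ⟨T3, hT3, fun T hT => ?_⟩
  have htel : ∀ M : ℕ, ∑ n ∈ Finset.Icc 1 M, (ord (n + 1) - ord n) = ord (M + 1) - ord 1 := by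
    intro M
    induction M with
    | zero => simp
    | succ M ih =>
      rw [Finset.sum_Icc_succ_top (by omega), ih]
      ring
  have h1 : ∑ n ∈ Jx T, (ord (n + 1) - ord n) ≤ ∑ n ∈ Finset.Icc 1 (NZ (2 * T)),
      (ord (n + 1) - ord n) := by
    apply Finset.sum_le_sum_of_subset_of_nonneg
    · exact Finset.filter_subset _ _
    · intro n hn _
      rw [Finset.mem_Icc] at hn
      exact sub_nonneg.2 (SG.ord_mono hn.1 (by omega))
  rw [htel] at h1
  have h2 := h3 (2 * T) (by linarith)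
  have h4 : ord (NZ (2 * T) + 1) ≤ (1 + 1) * (2 * T) := (SG.ord_le_iff (by omega) _).2 h2
  have h5 := SG.ord_pos (le_refl 1)
  linarith

/-- the block bound for `(δ - 1)₊` -/
lemma block_delta (RH : RiemannHypothesis) (η : ℝ) (hη : 0 < η) : ∃ T1 : ℝ, 10 ≤ T1 ∧
    ∀ T : ℝ, T1 ≤ T → (10054 / 100000 - η) * (T * Real.log T / (2 * Real.pi)) ≤
      ∑ n ∈ Jx T, max 0 (dl n - 1) := by
  obtain ⟨T1, hT1, h1⟩ := block_gp RH
  obtain ⟨T2, hT2, h2⟩ := sum_gaps_le RH
  set ℓ0 := Real.log (2 * Real.pi) with hℓ0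
  have hpi := Real.pi_gt_three
  have hℓ00 : 0 < ℓ0 := Real.log_pos (by linarith)
  have ev : ∀ᶠ T : ℝ in atTop, ℓ0 + 8 * ℓ0 / η ≤ Real.log T :=
    Real.tendsto_log_atTop.eventually_ge_atTop _
  obtain ⟨T3, h3⟩ := eventually_atTop.1 ev
  refine ⟨max T1 (max T2 T3), hT1.trans (le_max_left _ _), fun T hT => ?_⟩
  have a1 : T1 ≤ T := (le_max_left _ _).trans hT
  have a2 : T2 ≤ T := ((le_max_left _ _).trans (le_max_right _ _)).trans hT
  have a3 := h3 T (((le_max_right _ _).trans (le_max_right _ _)).trans hT)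
  have hT10 : 10 ≤ T := hT1.trans a1
  have hT0 : 0 < T := by linarith
  set L := Real.log T with hL
  have hq : 0 < 8 * ℓ0 / η := by positivity
  have hL0 : 0 < L := by linarith
  have hLℓ : 0 < L - ℓ0 := by linarith
  set ρ := ℓ0 / (L - ℓ0) with hρ
  have hρ0 : 0 < ρ := by positivity
  have hρ1 : 8 * ρ ≤ η := by
    rw [hρ, ← mul_div_assoc, div_le_iff₀ hLℓ]
    have : 8 * ℓ0 / η ≤ L - ℓ0 := by linarith
    rw [div_le_iff₀ hη] at this
    linarith
  have hterm : ∀ n ∈ Jx T, L / (2 * Real.pi) * max 0 (ord (n + 1) - ord n - 2 * (Real.pi / L)) ≤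
      max 0 (dl n - 1) + ρ * (Real.log (2 * T) / (2 * Real.pi)) * (ord (n + 1) - ord n) := by
    intro n hn
    rw [mem_Jx] at hn
    obtain ⟨n1, n2, n3⟩ := hn
    have hg : 0 ≤ ord (n + 1) - ord n := sub_nonneg.2 (SG.ord_mono n1 (by omega))
    set g := ord (n + 1) - ord n with hgd
    have hon : 0 < ord n := by linarith
    set ℓ := Real.log (ord n / (2 * Real.pi)) with hℓ
    have hℓ1 : L - ℓ0 ≤ ℓ := by
      rw [hL, hℓ0, ← Real.log_div hT0.ne' (by positivity), hℓ]
      apply Real.log_le_log (by positivity)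
      gcongr
    have hℓ2 : ℓ ≤ Real.log (2 * T) := by
      apply Real.log_le_log (by positivity)
      refine (div_le_self hon.le (by linarith)).trans n3
    have hℓpos : 0 < ℓ := by linarith
    have hdl : dl n = g / (2 * Real.pi) * ℓ := rfl
    have hdl0 : 0 ≤ dl n := by rw [hdl]; positivity
    have e1 : L / (2 * Real.pi) * max 0 (g - 2 * (Real.pi / L)) =
        max 0 (L / (2 * Real.pi) * g - 1) := by
      rw [mul_max_of_nonneg _ _ (by positivity : 0 ≤ L / (2 * Real.pi)), mul_zero]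
      congr 1
      field_simp
    rw [e1]
    have e2 : L / (2 * Real.pi) * g ≤ dl n + ρ * dl n := by
      have e3 : L ≤ (1 + ρ) * ℓ := by
        have e4 : (1 + ρ) * (L - ℓ0) = L := by
          rw [hρ]
          field_simp
          ring
        calc L = (1 + ρ) * (L - ℓ0) := e4.symm
          _ ≤ (1 + ρ) * ℓ := by gcongr
      rw [hdl]
      calc L / (2 * Real.pi) * g = g / (2 * Real.pi) * L := by ring
        _ ≤ g / (2 * Real.pi) * ((1 + ρ) * ℓ) := by gcongr
        _ = _ := by ring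
    have e5 : ρ * dl n ≤ ρ * (Real.log (2 * T) / (2 * Real.pi)) * g := by
      rw [hdl, mul_assoc]
      apply mul_le_mul_of_nonneg_left _ hρ0.le
      calc g / (2 * Real.pi) * ℓ ≤ g / (2 * Real.pi) * Real.log (2 * T) := by gcongr
        _ = _ := by ring
    apply max_le
    · have : 0 ≤ ρ * dl n := by positivity
      have := le_max_left 0 (dl n - 1)
      linarith
    · have := le_max_right 0 (dl n - 1)
      linarith
  have hs := Finset.sum_le_sum hterm
  rw [← Finset.mul_sum, Finset.sum_add_distrib, ← Finset.mul_sum] at hs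
  have b1 := h1 T a1
  rw [← hL] at b1
  have b2 := h2 T a2
  have b3 : L / (2 * Real.pi) * (10054 / 100000 * T) ≤ L / (2 * Real.pi) *
      ∑ n ∈ Jx T, max 0 (ord (n + 1) - ord n - 2 * (Real.pi / L)) :=
    mul_le_mul_of_nonneg_left b1 (by positivity)
  have hl2T : Real.log (2 * T) ≤ 2 * L := by
    rw [Real.log_mul (by norm_num) hT0.ne']
    have : Real.log 2 ≤ Real.log T := Real.log_le_log (by norm_num) (by linarith)
    linarith
  have hl2T0 : 0 ≤ Real.log (2 * T) := Real.log_nonneg (by linarith)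
  have b4 : ρ * (Real.log (2 * T) / (2 * Real.pi)) * ∑ n ∈ Jx T, (ord (n + 1) - ord n) ≤
      η * (T * L / (2 * Real.pi)) := by
    calc ρ * (Real.log (2 * T) / (2 * Real.pi)) * ∑ n ∈ Jx T, (ord (n + 1) - ord n) ≤
        ρ * (2 * L / (2 * Real.pi)) * (4 * T) := by
          apply mul_le_mul _ b2 _ (by positivity)
          · gcongr
          · apply Finset.sum_nonneg
            intro n hn
            rw [mem_Jx] at hn
            exact sub_nonneg.2 (SG.ord_mono hn.1 (by omega))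
      _ = 8 * ρ * (T * L / (2 * Real.pi)) := by ring
      _ ≤ η * (T * L / (2 * Real.pi)) := by gcongr
  have e : (10054 / 100000 - η) * (T * L / (2 * Real.pi)) =
      L / (2 * Real.pi) * (10054 / 100000 * T) - η * (T * L / (2 * Real.pi)) := by ring
  rw [e]
  linarith

/-- from blocks to all indices -/
lemma glob_lower (RH : RiemannHypothesis) {F : ℕ → ℝ} (hF : ∀ n, 0 ≤ F n) {θ : ℝ} (hθ : 0 ≤ θ)
    (hblk : ∀ η : ℝ, 0 < η → ∃ T1 : ℝ, 10 ≤ T1 ∧ ∀ T : ℝ, T1 ≤ T →
      (θ - η) * (T * Real.log T / (2 * Real.pi)) ≤ ∑ n ∈ Jx T, F n) (ε : ℝ) (hε : 0 < ε) :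
    ∀ᶠ N : ℕ in atTop, (θ - ε) * N ≤ ∑ n ∈ Finset.Icc 1 N, F n := by
  have hpi := Real.pi_gt_three
  rcases le_or_gt (θ - ε) 0 with hneg | hpos
  · refine Eventually.of_forall fun N => ?_
    have h1 : (θ - ε) * (N : ℝ) ≤ 0 := mul_nonpos_of_nonpos_of_nonneg hneg (Nat.cast_nonneg _)
    exact h1.trans (Finset.sum_nonneg fun n _ => hF n)
  obtain ⟨T1, hT1, hb⟩ := hblk (ε / 2) (by positivity)
  set θ' := θ - ε / 2 with hθ'
  have hθ'0 : 0 < θ' := by rw [hθ']; linarith
  set S : ℝ → ℝ := fun T => ∑ n ∈ Ix T, F n with hS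
  have hstep : ∀ T : ℝ, 2 * T1 ≤ T → S (T / 2) + θ' * (T / 2 * Real.log (T / 2) / (2 * Real.pi)) ≤
      S T := by
    intro T hT
    have h1 := hb (T / 2) (by linarith)
    have hdisj : Disjoint (Ix (T / 2)) (Jx (T / 2)) := by
      rw [Finset.disjoint_left]
      intro n hn hn2
      rw [mem_Ix] at hn
      rw [mem_Jx] at hn2
      linarith [hn.2, hn2.2.1]
    have hsub : Ix (T / 2) ∪ Jx (T / 2) ⊆ Ix T := by
      intro n hn
      rw [Finset.mem_union, mem_Ix, mem_Jx] at hn
      rw [mem_Ix]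
      rcases hn with ⟨h2, h3⟩ | ⟨h2, _, h3⟩
      · exact ⟨h2, by linarith⟩
      · exact ⟨h2, by linarith⟩
    have h2 := Finset.sum_le_sum_of_subset_of_nonneg hsub (f := F) (fun n _ _ => hF n)
    rw [Finset.sum_union hdisj] at h2
    have h3 : S (T / 2) = ∑ n ∈ Ix (T / 2), F n := rfl
    have h4 : S T = ∑ n ∈ Ix T, F n := rfl
    rw [h3, h4]
    linarith
  have hl2 : 0 < Real.log 2 := Real.log_pos (by norm_num)
  have hiter : ∀ J : ℕ, ∀ T : ℝ, T1 * 2 ^ J ≤ T →
      θ' * (1 - (1 / 2 : ℝ) ^ J) * (T / (2 * Real.pi)) * (Real.log T - J * Real.log 2) ≤ S T := by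
    intro J
    induction J with
    | zero =>
      intro T _
      have : 0 ≤ S T := Finset.sum_nonneg fun n _ => hF n
      simpa using this
    | succ J ih =>
      intro T hT
      have hpow : (1 : ℝ) ≤ 2 ^ J := one_le_pow₀ (by norm_num)
      have hT' : T1 * 2 ^ J ≤ T / 2 := by
        rw [pow_succ] at hT
        linarith
      have hTT1 : T1 ≤ T / 2 := by nlinarith
      have hTp : 0 < T := by linarith
      have h1 := ih (T / 2) hT'
      have h2 := hstep T (by linarith)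
      have hlog : Real.log (T / 2) = Real.log T - Real.log 2 :=
        Real.log_div hTp.ne' (by norm_num)
      rw [hlog] at h1 h2
      set q := ((1 / 2 : ℝ)) ^ J with hq
      have hx0 : 0 ≤ q := by positivity
      have hx : q ≤ 1 := pow_le_one₀ (by norm_num) (by norm_num)
      rw [pow_succ, ← hq]
      push_cast
      have hJ0 : (0 : ℝ) ≤ J := Nat.cast_nonneg J
      have h3 : θ' * (T / (4 * Real.pi)) * (Real.log T - (J + 1) * Real.log 2) ≤
          θ' * (T / (4 * Real.pi)) * (Real.log T - Real.log 2) := by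
        apply mul_le_mul_of_nonneg_left _ (by positivity)
        nlinarith
      have e1 : θ' * (1 - q) * (T / 2 / (2 * Real.pi)) * (Real.log T - Real.log 2 - J * Real.log 2) =
          θ' * (1 - q) * (T / (4 * Real.pi)) * (Real.log T - (J + 1) * Real.log 2) := by
        have : T / 2 / (2 * Real.pi) = T / (4 * Real.pi) := by field_simp; ring
        rw [this]
        ring
      have e2 : θ' * (T / 2 * (Real.log T - Real.log 2) / (2 * Real.pi)) =
          θ' * (T / (4 * Real.pi)) * (Real.log T - Real.log 2) := by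
        have : T / 2 * (Real.log T - Real.log 2) / (2 * Real.pi) =
            (T / (4 * Real.pi)) * (Real.log T - Real.log 2) := by field_simp; ring
        rw [this]
        ring
      have e3 : θ' * (1 - q * (1 / 2)) * (T / (2 * Real.pi)) *
          (Real.log T - (J + 1) * Real.log 2) =
          θ' * (1 - q) * (T / (4 * Real.pi)) * (Real.log T - (J + 1) * Real.log 2) +
          θ' * (T / (4 * Real.pi)) * (Real.log T - (J + 1) * Real.log 2) := by
        field_simp
        ring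
      rw [e3]
      rw [e1] at h1
      rw [e2] at h2
      linarith
  -- choose the parameters
  set κ := ε / (8 * (θ + 1)) with hκ
  have hκ0 : 0 < κ := by positivity
  have hκ1 : κ * (8 * (θ + 1)) = ε := by rw [hκ]; field_simp
  obtain ⟨J, hJ⟩ := exists_pow_lt_of_lt_one hκ0 (by norm_num : (1 / 2 : ℝ) < 1)
  obtain ⟨T2, hT2, hup⟩ := NZ_upper RH κ hκ0
  have hlim : Tendsto (fun N : ℕ => ord (N + 1)) atTop atTop :=
    SG.ord_tendsto.comp (tendsto_add_atTop_nat 1)
  have hκ2 : κ < 1 / 2 := by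
    have h1 : ε < θ := by linarith
    rw [hκ, div_lt_iff₀ (by positivity)]
    linarith
  have hlk : Tendsto (fun N : ℕ => Real.log (ord (N + 1))) atTop atTop :=
    Real.tendsto_log_atTop.comp hlim
  filter_upwards [hlim.eventually_ge_atTop T2, hlim.eventually_ge_atTop (T1 * 2 ^ J / (1 - κ)),
    hlk.eventually_ge_atTop ((J * Real.log 2 + Real.log 2) / κ), hlim.eventually_gt_atTop 1]
    with N n1 n2 n3 n4
  set T := ord (N + 1) with hT
  have hTp : 0 < T := by linarith
  have hκ3 : 0 < 1 - κ := by linarith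
  set T' := (1 - κ) * T with hT'
  have hT'T : T' < T := by rw [hT']; nlinarith
  have hT'p : 0 < T' := by positivity
  have m1 : T1 * 2 ^ J ≤ T' := by
    rw [div_le_iff₀ hκ3] at n2
    rw [hT']
    linarith
  have m2 := hiter J T' m1
  have hsub : Ix T' ⊆ Finset.Icc 1 N := by
    intro n hn
    rw [mem_Ix] at hn
    rw [Finset.mem_Icc]
    refine ⟨hn.1, ?_⟩
    by_contra hc
    have h1 : N + 1 ≤ n := by omega
    have h2 := SG.ord_mono (by omega : 1 ≤ N + 1) h1
    linarith [hn.2]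
  have m3 : S T' ≤ ∑ n ∈ Finset.Icc 1 N, F n :=
    Finset.sum_le_sum_of_subset_of_nonneg hsub fun n _ _ => hF n
  have m4 : (N : ℝ) ≤ (1 + κ) * (T * Real.log T / (2 * Real.pi)) := by
    refine le_trans ?_ (hup T n1)
    have h1 : N + 1 ≤ NZ T := (SG.ord_le_iff (by omega) T).1 le_rfl
    have : (N : ℝ) + 1 ≤ NZ T := by exact_mod_cast h1
    linarith
  have hlT : 0 < Real.log T := Real.log_pos n4
  -- lower bound for the logarithm
  have m5 : (1 - κ) * Real.log T ≤ Real.log T' - J * Real.log 2 := by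
    have h1 : Real.log T - Real.log 2 ≤ Real.log T' := by
      rw [← Real.log_div hTp.ne' (by norm_num)]
      apply Real.log_le_log (by positivity)
      rw [hT']
      nlinarith
    rw [div_le_iff₀ hκ0] at n3
    linarith
  set X := T * Real.log T / (2 * Real.pi) with hX
  have hX0 : 0 < X := by positivity
  have m6 : θ' * (1 - κ) * ((1 - κ) * (1 - κ)) * X ≤
      θ' * (1 - (1 / 2 : ℝ) ^ J) * (T' / (2 * Real.pi)) * (Real.log T' - J * Real.log 2) := by
    have e1 : θ' * (1 - κ) * ((1 - κ) * (1 - κ)) * X =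
        θ' * (1 - κ) * (T' / (2 * Real.pi)) * ((1 - κ) * Real.log T) := by
      rw [hX, hT']
      field_simp
    rw [e1]
    apply mul_le_mul _ m5 (by positivity) _
    · apply mul_le_mul_of_nonneg_right _ (by positivity)
      apply mul_le_mul_of_nonneg_left _ hθ'0.le
      linarith
    · have : 0 ≤ 1 - (1 / 2 : ℝ) ^ J := by
        have := hJ.le
        linarith
      positivity
  have m7 : (θ - ε) * (1 + κ) ≤ θ' * (1 - κ) * ((1 - κ) * (1 - κ)) := by
    have h1 : (1 - 3 * κ) ≤ (1 - κ) * ((1 - κ) * (1 - κ)) := by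
      have h0 : 0 ≤ κ ^ 2 * (3 - κ) := mul_nonneg (sq_nonneg κ) (by linarith)
      have e0 : (1 - κ) * ((1 - κ) * (1 - κ)) = 1 - 3 * κ + κ ^ 2 * (3 - κ) := by ring
      linarith
    have h2 : θ' * (1 - 3 * κ) ≤ θ' * ((1 - κ) * ((1 - κ) * (1 - κ))) :=
      mul_le_mul_of_nonneg_left h1 hθ'0.le
    have h3 : (θ - ε) * (1 + κ) ≤ θ' * (1 - 3 * κ) := by
      rw [hθ']
      nlinarith
    linarith
  have m8 : (θ - ε) * (N : ℝ) ≤ (θ - ε) * ((1 + κ) * X) :=
    mul_le_mul_of_nonneg_left m4 hpos.le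
  have m9 : (θ - ε) * ((1 + κ) * X) ≤ θ' * (1 - κ) * ((1 - κ) * (1 - κ)) * X := by
    rw [← mul_assoc]
    exact mul_le_mul_of_nonneg_right m7 hX0.le
  linarith

/-- **the mean of `(δ_n - 1)₊` is at least `0.1005`** -/
theorem plus_ge (RH : RiemannHypothesis) (ε : ℝ) (hε : 0 < ε) :
    ∀ᶠ N : ℕ in atTop, (10054 / 100000 - ε) * N ≤ ∑ n ∈ Finset.Icc 1 N, max 0 (dl n - 1) :=
  glob_lower RH (fun n => le_max_left _ _) (by norm_num) (fun η hη => block_delta RH η hη) ε hε

end Pool.Agent.Y747
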