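import Pool.Agent.W198.TC.DMaux

/-! Moments of a real prime polynomial under a wide Gaussian weight. -/

open Complex Filter Topology Set MeasureTheory

namespace Pool.Agent.Y747

open TC

/-- real part of the Gaussian Fourier transform -/
lemma om_cos (τ H x : ℝ) (hH : 0 < H) : Integrable (fun t => om τ H t * Real.cos (t * x)) ∧
    ∫ t, om τ H t * Real.cos (t * x) =
      Real.sqrt (2 * Real.pi) * H * Real.exp (-(H ^ 2 * x ^ 2) / 2) * Real.cos (τ * x) := by
  obtain ⟨h1, h2⟩ := gau τ H x hH
  have e : ∀ t : ℝ, ((om τ H t : ℂ) * cexp (((t * x : ℝ) : ℂ) * I)).re =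
      om τ H t * Real.cos (t * x) := by
    intro t
    rw [Complex.re_ofReal_mul, Complex.exp_ofReal_mul_I_re]
  constructor
  · have := h1.re
    refine this.congr (Eventually.of_forall fun t => ?_)
    exact e t
  · have h3 := congrArg Complex.re h2
    rw [Complex.re_ofReal_mul, Complex.exp_ofReal_mul_I_re] at h3
    rw [← h3]
    have h4 := reCLM.integral_comp_comm h1
    simp only [Complex.reCLM_apply] at h4
    rw [← h4]
    exact integral_congr_ae (Eventually.of_forall fun t => (e t).symm)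

lemma om_cos_abs (τ H x : ℝ) (hH : 0 < H) : |∫ t, om τ H t * Real.cos (t * x)| ≤
    Real.sqrt (2 * Real.pi) * H * Real.exp (-(H ^ 2 * x ^ 2) / 2) := by
  rw [(om_cos τ H x hH).2, abs_mul]
  have h1 := Real.abs_cos_le_one (τ * x)
  have h2 : 0 ≤ Real.sqrt (2 * Real.pi) * H * Real.exp (-(H ^ 2 * x ^ 2) / 2) := by positivity
  rw [abs_of_nonneg h2]
  exact mul_le_of_le_one_right h2 h1

/-- distance between logarithms of integers -/
lemma log_gap {A B M : ℕ} (hA : 1 ≤ A) (hB : 1 ≤ B) (hAB : A ≠ B) (hM : min A B ≤ M) :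
    1 / (2 * (M : ℝ)) ≤ |Real.log A - Real.log B| := by
  wlog h : A < B generalizing A B with H
  · rw [abs_sub_comm]
    exact H hB hA hAB.symm (by rwa [min_comm]) (by omega)
  have hAM : A ≤ M := by
    rw [min_eq_left h.le] at hM
    exact hM
  have hA' : (1 : ℝ) ≤ A := by exact_mod_cast hA
  have hAM' : (A : ℝ) ≤ M := by exact_mod_cast hAM
  have hB' : (A : ℝ) + 1 ≤ B := by exact_mod_cast h
  have h1 : Real.log (A + 1) ≤ Real.log B := Real.log_le_log (by linarith) hB'
  have h2 : 1 / ((A : ℝ) + 1) ≤ Real.log (A + 1) - Real.log A := by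
    rw [← Real.log_div (by linarith) (by linarith)]
    have h3 := Real.one_sub_inv_le_log_of_pos (x := ((A : ℝ) + 1) / A) (by positivity)
    refine le_trans (le_of_eq ?_) h3
    field_simp
    ring
  have h4 : 1 / (2 * (M : ℝ)) ≤ 1 / ((A : ℝ) + 1) := by
    apply one_div_le_one_div_of_le (by positivity)
    linarith
  rw [abs_sub_comm]
  refine le_trans ?_ (le_abs_self _)
  linarith

lemma om_cos_gap {A B M : ℕ} (hA : 1 ≤ A) (hB : 1 ≤ B) (hAB : A ≠ B) (hM : min A B ≤ M)
    (hM0 : 1 ≤ M) (τ H x : ℝ) (hH : 0 < H) (hx : x = Real.log A - Real.log B) :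
    |∫ t, om τ H t * Real.cos (t * x)| ≤
      Real.sqrt (2 * Real.pi) * H * Real.exp (-(H ^ 2) / (8 * (M : ℝ) ^ 2)) := by
  refine (om_cos_abs τ H x hH).trans ?_
  apply mul_le_mul_of_nonneg_left _ (by positivity)
  apply Real.exp_le_exp.2
  have h1 := log_gap hA hB hAB hM
  rw [← hx] at h1
  have hM' : (1 : ℝ) ≤ M := by exact_mod_cast hM0
  have h2 : (1 / (2 * (M : ℝ))) ^ 2 ≤ x ^ 2 := by
    rw [← sq_abs x]
    exact pow_le_pow_left₀ (by positivity) h1 2
  have e : -(H ^ 2) / (8 * (M : ℝ) ^ 2) = -(H ^ 2 * (1 / (2 * (M : ℝ))) ^ 2) / 2 := by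
    field_simp
    ring
  rw [e]
  have h3 : H ^ 2 * (1 / (2 * (M : ℝ))) ^ 2 ≤ H ^ 2 * x ^ 2 := by gcongr
  linarith

/-- a diagonal or off-diagonal term -/
lemma om_cos_le {A B M : ℕ} (hA : 1 ≤ A) (hB : 1 ≤ B) (hM : min A B ≤ M)
    (hM0 : 1 ≤ M) (τ H x : ℝ) (hH : 0 < H) (hx : x = Real.log A - Real.log B) :
    ∫ t, om τ H t * Real.cos (t * x) ≤ Real.sqrt (2 * Real.pi) * H *
      ((if A = B then 1 else 0) + Real.exp (-(H ^ 2) / (8 * (M : ℝ) ^ 2))) := by
  have hW : 0 < Real.sqrt (2 * Real.pi) * H := by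
    have := Real.pi_pos
    positivity
  split_ifs with h
  · have h1 := (le_abs_self _).trans (om_cos_abs τ H x hH)
    refine h1.trans ?_
    apply mul_le_mul_of_nonneg_left _ hW.le
    have h2 : Real.exp (-(H ^ 2 * x ^ 2) / 2) ≤ 1 := by
      rw [Real.exp_le_one_iff]
      have : 0 ≤ H ^ 2 * x ^ 2 := by positivity
      linarith
    have := Real.exp_pos (-(H ^ 2) / (8 * (M : ℝ) ^ 2))
    linarith
  · rw [zero_add]
    exact (le_abs_self _).trans (om_cos_gap hA hB h hM hM0 τ H x hH hx)

lemma prod2 (a b : ℝ) : Real.cos a * Real.cos b = (Real.cos (a + b) + Real.cos (a - b)) / 2 := by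
  rw [Real.cos_add, Real.cos_sub]
  ring

lemma prod3 (a b c : ℝ) : Real.cos a * Real.cos b * Real.cos c =
    (Real.cos (a + b + c) + Real.cos (a + b - c) + Real.cos (a - b + c) +
      Real.cos (a - b - c)) / 4 := by
  rw [prod2, Real.cos_add (a + b), Real.cos_sub (a + b), Real.cos_add (a - b),
    Real.cos_sub (a - b)]
  ring

lemma prod4 (a b c d : ℝ) : Real.cos a * Real.cos b * Real.cos c * Real.cos d =
    (Real.cos (a + b + c + d) + Real.cos (a + b + c - d) + Real.cos (a + b - c + d) +
      Real.cos (a + b - c - d) + Real.cos (a - b + c + d) + Real.cos (a - b + c - d) +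
      Real.cos (a - b - c + d) + Real.cos (a - b - c - d)) / 8 := by
  rw [prod3, Real.cos_add (a + b + c), Real.cos_sub (a + b + c), Real.cos_add (a + b - c),
    Real.cos_sub (a + b - c), Real.cos_add (a - b + c), Real.cos_sub (a - b + c),
    Real.cos_add (a - b - c), Real.cos_sub (a - b - c)]
  ring

lemma int4 {f1 f2 f3 f4 : ℝ → ℝ} (h1 : Integrable f1) (h2 : Integrable f2) (h3 : Integrable f3)
    (h4 : Integrable f4) : ∫ t, (f1 t + f2 t + f3 t + f4 t) =
      (∫ t, f1 t) + (∫ t, f2 t) + (∫ t, f3 t) + ∫ t, f4 t := by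
  have a2 : Integrable (fun t => f1 t + f2 t) := h1.add h2
  have a3 : Integrable (fun t => f1 t + f2 t + f3 t) := a2.add h3
  rw [integral_add a3 h4, integral_add a2 h3, integral_add h1 h2]

lemma int8 {f1 f2 f3 f4 f5 f6 f7 f8 : ℝ → ℝ} (h1 : Integrable f1) (h2 : Integrable f2)
    (h3 : Integrable f3) (h4 : Integrable f4) (h5 : Integrable f5) (h6 : Integrable f6)
    (h7 : Integrable f7) (h8 : Integrable f8) :
    ∫ t, (f1 t + f2 t + f3 t + f4 t + f5 t + f6 t + f7 t + f8 t) =
      (∫ t, f1 t) + (∫ t, f2 t) + (∫ t, f3 t) + (∫ t, f4 t) + (∫ t, f5 t) + (∫ t, f6 t) +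
      (∫ t, f7 t) + ∫ t, f8 t := by
  have a2 : Integrable (fun t => f1 t + f2 t) := h1.add h2
  have a3 : Integrable (fun t => f1 t + f2 t + f3 t) := a2.add h3
  have a4 : Integrable (fun t => f1 t + f2 t + f3 t + f4 t) := a3.add h4
  have a5 : Integrable (fun t => f1 t + f2 t + f3 t + f4 t + f5 t) := a4.add h5
  have a6 : Integrable (fun t => f1 t + f2 t + f3 t + f4 t + f5 t + f6 t) := a5.add h6
  have a7 : Integrable (fun t => f1 t + f2 t + f3 t + f4 t + f5 t + f6 t + f7 t) := a6.add h7
  rw [integral_add a7 h8, integral_add a6 h7, integral_add a5 h6, integral_add a4 h5,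
    integral_add a3 h4, integral_add a2 h3, integral_add h1 h2]

section
variable {p q r s P : ℕ} (τ H : ℝ)

/-- third moment of cosines of prime frequencies -/
lemma cos3 (hH : 0 < H) (hp : p.Prime) (hq : q.Prime) (hr : r.Prime) (hpP : p ≤ P) (hqP : q ≤ P)
    (hrP : r ≤ P) :
    |∫ t, om τ H t * (Real.cos (t * Real.log p) * Real.cos (t * Real.log q) *
      Real.cos (t * Real.log r))| ≤
      Real.sqrt (2 * Real.pi) * H * Real.exp (-(H ^ 2) / (8 * ((P : ℝ) * P) ^ 2)) := by
  have hP : 1 ≤ P := hp.one_lt.le.trans hpP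
  have hp1 := hp.one_lt
  have hp' := hp.pos
  have hq' := hq.pos
  have hr' := hr.pos
  have hq1 := hq.one_lt
  have hr1 := hr.one_lt
  have hp0 : (p : ℝ) ≠ 0 := by exact_mod_cast hp.ne_zero
  have hq0 : (q : ℝ) ≠ 0 := by exact_mod_cast hq.ne_zero
  have hr0 : (r : ℝ) ≠ 0 := by exact_mod_cast hr.ne_zero
  have hPM : P ≤ P * P := Nat.le_mul_self P
  have hPM1 : 1 ≤ P * P := hP.trans hPM
  have ne2 : ∀ {a b c : ℕ}, 1 < a → 1 < b → c.Prime → a * b ≠ c := by
    intro a b c ha hb hc h
    rw [← h] at hc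
    exact Nat.not_prime_mul (by omega) (by omega) hc
  have e : ∀ t : ℝ, om τ H t * (Real.cos (t * Real.log p) * Real.cos (t * Real.log q) *
      Real.cos (t * Real.log r)) =
      (om τ H t * Real.cos (t * (Real.log p + Real.log q + Real.log r)) +
      om τ H t * Real.cos (t * (Real.log p + Real.log q - Real.log r)) +
      om τ H t * Real.cos (t * (Real.log p - Real.log q + Real.log r)) +
      om τ H t * Real.cos (t * (Real.log p - Real.log q - Real.log r))) / 4 := by
    intro t
    rw [prod3]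
    simp only [mul_add, mul_sub]
    ring
  simp_rw [e]
  have i := fun x => (om_cos τ H x hH).1
  rw [integral_div, int4 (i _) (i _) (i _) (i _)]
  have g1 := om_cos_gap (A := p * q * r) (B := 1) (M := P * P) (Nat.succ_le_of_lt (by positivity)) le_rfl (by
    intro h
    have := Nat.mul_le_mul (Nat.mul_le_mul hp1 hq1) hr1
    omega) (by simp; omega) hPM1 τ H (Real.log p + Real.log q + Real.log r) hH (by
    push_cast
    rw [Real.log_mul (mul_ne_zero hp0 hq0) hr0, Real.log_mul hp0 hq0, Real.log_one, sub_zero])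
  have g2 := om_cos_gap (A := p * q) (B := r) (M := P * P) (Nat.succ_le_of_lt (by positivity)) (by omega)
    (ne2 hp1 hq1 hr) ((min_le_right _ _).trans (hrP.trans hPM)) hPM1 τ H
    (Real.log p + Real.log q - Real.log r) hH (by
    push_cast
    rw [Real.log_mul hp0 hq0])
  have g3 := om_cos_gap (A := p * r) (B := q) (M := P * P) (Nat.succ_le_of_lt (by positivity)) (by omega)
    (ne2 hp1 hr1 hq) ((min_le_right _ _).trans (hqP.trans hPM)) hPM1 τ H
    (Real.log p - Real.log q + Real.log r) hH (by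
    push_cast
    rw [Real.log_mul hp0 hr0]
    ring)
  have g4 := om_cos_gap (A := p) (B := q * r) (M := P * P) (by omega) (Nat.succ_le_of_lt (by positivity))
    (ne2 hq1 hr1 hp).symm ((min_le_left _ _).trans (hpP.trans hPM)) hPM1 τ H
    (Real.log p - Real.log q - Real.log r) hH (by
    push_cast
    rw [Real.log_mul hq0 hr0]
    ring)
  push_cast at g1 g2 g3 g4
  rw [abs_div]
  have h4 : |(4 : ℝ)| = 4 := by norm_num
  rw [h4, div_le_iff₀ (by norm_num)]
  refine (abs_add_le _ _).trans ?_
  have a1 := abs_add_le ((∫ t, om τ H t * Real.cos (t * (Real.log p + Real.log q + Real.log r))) +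
    ∫ t, om τ H t * Real.cos (t * (Real.log p + Real.log q - Real.log r)))
    (∫ t, om τ H t * Real.cos (t * (Real.log p - Real.log q + Real.log r)))
  have a2 := abs_add_le (∫ t, om τ H t * Real.cos (t * (Real.log p + Real.log q + Real.log r)))
    (∫ t, om τ H t * Real.cos (t * (Real.log p + Real.log q - Real.log r)))
  linarith

/-- fourth moment of cosines of prime frequencies -/
lemma cos4 (hH : 0 < H) (hp : p.Prime) (hq : q.Prime) (hr : r.Prime) (hs : s.Prime) (hpP : p ≤ P)
    (hqP : q ≤ P) (hrP : r ≤ P) (hsP : s ≤ P) :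
    ∫ t, om τ H t * (Real.cos (t * Real.log p) * Real.cos (t * Real.log q) *
      Real.cos (t * Real.log r) * Real.cos (t * Real.log s)) ≤
      Real.sqrt (2 * Real.pi) * H * (((if p * q = r * s then 1 else 0) +
        (if p * r = q * s then 1 else 0) + (if p * s = q * r then 1 else 0)) / 8 +
        Real.exp (-(H ^ 2) / (8 * ((P : ℝ) * P) ^ 2))) := by
  have hP : 1 ≤ P := hp.one_lt.le.trans hpP
  have hp1 := hp.one_lt
  have hp' := hp.pos
  have hq' := hq.pos
  have hr' := hr.pos
  have hq1 := hq.one_lt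
  have hr1 := hr.one_lt
  have hs1 := hs.one_lt
  have hs' := hs.pos
  have hp0 : (p : ℝ) ≠ 0 := by exact_mod_cast hp.ne_zero
  have hq0 : (q : ℝ) ≠ 0 := by exact_mod_cast hq.ne_zero
  have hr0 : (r : ℝ) ≠ 0 := by exact_mod_cast hr.ne_zero
  have hs0 : (s : ℝ) ≠ 0 := by exact_mod_cast hs.ne_zero
  have hPM : P ≤ P * P := Nat.le_mul_self P
  have hPM1 : 1 ≤ P * P := hP.trans hPM
  have ne3 : ∀ {a b c d : ℕ}, 1 < a → 1 < b → 1 < c → d.Prime → a * b * c ≠ d := by
    intro a b c d ha hb hc hd h
    rw [← h] at hd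
    have h5 : 1 < a * b := by
      have := Nat.mul_le_mul ha hb
      omega
    exact Nat.not_prime_mul (by omega) (by omega) hd
  have e : ∀ t : ℝ, om τ H t * (Real.cos (t * Real.log p) * Real.cos (t * Real.log q) *
      Real.cos (t * Real.log r) * Real.cos (t * Real.log s)) =
      (om τ H t * Real.cos (t * (Real.log p + Real.log q + Real.log r + Real.log s)) +
      om τ H t * Real.cos (t * (Real.log p + Real.log q + Real.log r - Real.log s)) +
      om τ H t * Real.cos (t * (Real.log p + Real.log q - Real.log r + Real.log s)) +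
      om τ H t * Real.cos (t * (Real.log p + Real.log q - Real.log r - Real.log s)) +
      om τ H t * Real.cos (t * (Real.log p - Real.log q + Real.log r + Real.log s)) +
      om τ H t * Real.cos (t * (Real.log p - Real.log q + Real.log r - Real.log s)) +
      om τ H t * Real.cos (t * (Real.log p - Real.log q - Real.log r + Real.log s)) +
      om τ H t * Real.cos (t * (Real.log p - Real.log q - Real.log r - Real.log s))) / 8 := by
    intro t
    rw [prod4]
    simp only [mul_add, mul_sub]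
    ring
  simp_rw [e]
  have i := fun x => (om_cos τ H x hH).1
  rw [integral_div, int8 (i _) (i _) (i _) (i _) (i _) (i _) (i _) (i _)]
  have g1 := om_cos_gap (A := p * q * r * s) (B := 1) (M := P * P) (Nat.succ_le_of_lt (by positivity)) le_rfl (by
    intro h
    have := Nat.mul_le_mul (Nat.mul_le_mul (Nat.mul_le_mul hp1 hq1) hr1) hs1
    omega) (by simp; omega) hPM1 τ H (Real.log p + Real.log q + Real.log r + Real.log s) hH (by
    push_cast
    rw [Real.log_mul (mul_ne_zero (mul_ne_zero hp0 hq0) hr0) hs0,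
      Real.log_mul (mul_ne_zero hp0 hq0) hr0, Real.log_mul hp0 hq0, Real.log_one, sub_zero])
  have g2 := om_cos_gap (A := p * q * r) (B := s) (M := P * P) (Nat.succ_le_of_lt (by positivity)) (by omega)
    (ne3 hp1 hq1 hr1 hs) ((min_le_right _ _).trans (hsP.trans hPM)) hPM1 τ H
    (Real.log p + Real.log q + Real.log r - Real.log s) hH (by
    push_cast
    rw [Real.log_mul (mul_ne_zero hp0 hq0) hr0, Real.log_mul hp0 hq0])
  have g3 := om_cos_gap (A := p * q * s) (B := r) (M := P * P) (Nat.succ_le_of_lt (by positivity)) (by omega)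
    (ne3 hp1 hq1 hs1 hr) ((min_le_right _ _).trans (hrP.trans hPM)) hPM1 τ H
    (Real.log p + Real.log q - Real.log r + Real.log s) hH (by
    push_cast
    rw [Real.log_mul (mul_ne_zero hp0 hq0) hs0, Real.log_mul hp0 hq0]
    ring)
  have g4 := om_cos_le (A := p * q) (B := r * s) (M := P * P) (Nat.succ_le_of_lt (by positivity)) (Nat.succ_le_of_lt (by positivity))
    ((min_le_left _ _).trans (Nat.mul_le_mul hpP hqP)) hPM1 τ H
    (Real.log p + Real.log q - Real.log r - Real.log s) hH (by
    push_cast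
    rw [Real.log_mul hp0 hq0, Real.log_mul hr0 hs0]
    ring)
  have g5 := om_cos_gap (A := p * r * s) (B := q) (M := P * P) (Nat.succ_le_of_lt (by positivity)) (by omega)
    (ne3 hp1 hr1 hs1 hq) ((min_le_right _ _).trans (hqP.trans hPM)) hPM1 τ H
    (Real.log p - Real.log q + Real.log r + Real.log s) hH (by
    push_cast
    rw [Real.log_mul (mul_ne_zero hp0 hr0) hs0, Real.log_mul hp0 hr0]
    ring)
  have g6 := om_cos_le (A := p * r) (B := q * s) (M := P * P) (Nat.succ_le_of_lt (by positivity)) (Nat.succ_le_of_lt (by positivity))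
    ((min_le_left _ _).trans (Nat.mul_le_mul hpP hrP)) hPM1 τ H
    (Real.log p - Real.log q + Real.log r - Real.log s) hH (by
    push_cast
    rw [Real.log_mul hp0 hr0, Real.log_mul hq0 hs0]
    ring)
  have g7 := om_cos_le (A := p * s) (B := q * r) (M := P * P) (Nat.succ_le_of_lt (by positivity)) (Nat.succ_le_of_lt (by positivity))
    ((min_le_left _ _).trans (Nat.mul_le_mul hpP hsP)) hPM1 τ H
    (Real.log p - Real.log q - Real.log r + Real.log s) hH (by
    push_cast
    rw [Real.log_mul hp0 hs0, Real.log_mul hq0 hr0]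
    ring)
  have g8 := om_cos_gap (A := q * r * s) (B := p) (M := P * P) (Nat.succ_le_of_lt (by positivity)) (by omega)
    (ne3 hq1 hr1 hs1 hp) ((min_le_right _ _).trans (hpP.trans hPM)) hPM1 τ H
    (-(Real.log p - Real.log q - Real.log r - Real.log s)) hH (by
    push_cast
    rw [Real.log_mul (mul_ne_zero hq0 hr0) hs0, Real.log_mul hq0 hr0]
    ring)
  have e8 : ∀ t : ℝ, Real.cos (t * (-(Real.log p - Real.log q - Real.log r - Real.log s))) =
      Real.cos (t * (Real.log p - Real.log q - Real.log r - Real.log s)) := by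
    intro t
    rw [mul_neg, Real.cos_neg]
  simp_rw [e8] at g8
  push_cast at g1 g2 g3 g4 g5 g6 g7 g8
  have b1 := (le_abs_self _).trans g1
  have b2 := (le_abs_self _).trans g2
  have b3 := (le_abs_self _).trans g3
  have b5 := (le_abs_self _).trans g5
  have b8 := (le_abs_self _).trans g8
  rw [div_le_iff₀ (by norm_num)]
  linarith

end

end Pool.Agent.Y747
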