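import Pool.Agent.Y747.Mo4
import Pool.Agent.W198.TC.All

/-! Moments of the prime polynomial. -/

open Complex Filter Topology Set MeasureTheory

namespace Pool.Agent.Y747

open TC

/-- the real polynomial `2 Re ∑ α(n) n^{-it}` -/
noncomputable def WW (α : ℕ → ℝ) (P : ℕ) (t : ℝ) : ℝ := 2 * (DP α P t).re

lemma WW_eq (α : ℕ → ℝ) (P : ℕ) (t : ℝ) :
    WW α P t = ∑ n ∈ Finset.Icc 2 P, 2 * α n * Real.cos (t * Real.log n) := by
  unfold WW DP
  rw [Complex.re_sum, Finset.mul_sum]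
  apply Finset.sum_congr rfl
  intro n _
  rw [Complex.re_ofReal_mul, Complex.exp_ofReal_mul_I_re, Real.cos_neg]
  ring

lemma WW_cont (α : ℕ → ℝ) (P : ℕ) : Continuous (WW α P) := by
  unfold WW
  exact continuous_const.mul (Complex.continuous_re.comp (DP_cont α P))

lemma WW_abs (α : ℕ → ℝ) (P : ℕ) (t : ℝ) : |WW α P t| ≤ 2 * ∑ n ∈ Finset.Icc 2 P, |α n| := by
  unfold WW
  rw [abs_mul, abs_of_pos (by norm_num : (0 : ℝ) < 2)]
  exact mul_le_mul_of_nonneg_left ((Complex.abs_re_le_norm _).trans (DP_norm_le α P t)) (by norm_num)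

/-- `(W + c)²` is the square of a two-sided polynomial -/
lemma DD_self (α : ℕ → ℝ) (P : ℕ) (c t : ℝ) : ‖DD α α P P c t‖ ^ 2 = (WW α P t + c) ^ 2 := by
  have e : DD α α P P c t = ((WW α P t + c : ℝ) : ℂ) := by
    unfold DD WW
    rw [Complex.add_conj]
    push_cast
    ring
  rw [e, Complex.norm_real, Real.norm_eq_abs, sq_abs]

lemma pow3_expand (I : Finset ℕ) (f : ℕ → ℝ) : (∑ n ∈ I, f n) ^ 3 =
    ∑ p ∈ I, ∑ q ∈ I, ∑ r ∈ I, f p * f q * f r := by
  simp only [← Finset.mul_sum, ← Finset.sum_mul]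
  ring

lemma pow4_expand (I : Finset ℕ) (f : ℕ → ℝ) : (∑ n ∈ I, f n) ^ 4 =
    ∑ p ∈ I, ∑ q ∈ I, ∑ r ∈ I, ∑ s ∈ I, f p * f q * f r * f s := by
  simp only [← Finset.mul_sum, ← Finset.sum_mul]
  ring

lemma prime_eq {p q r s : ℕ} (hp : p.Prime) (hq : q.Prime) (hr : r.Prime) (hs : s.Prime)
    (h : p * q = r * s) : (r = p ∧ s = q) ∨ (r = q ∧ s = p) := by
  have h1 : r ∣ p * q := by rw [h]; exact dvd_mul_right r s
  rcases (hr.dvd_mul).1 h1 with h2 | h2
  · have h3 := (Nat.prime_dvd_prime_iff_eq hr hp).1 h2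
    subst h3
    left
    exact ⟨rfl, (Nat.eq_of_mul_eq_mul_left hr.pos h).symm⟩
  · have h3 := (Nat.prime_dvd_prime_iff_eq hr hq).1 h2
    subst h3
    right
    refine ⟨rfl, ?_⟩
    rw [mul_comm p r] at h
    exact (Nat.eq_of_mul_eq_mul_left hr.pos h).symm

section
variable {α : ℕ → ℝ} {P : ℕ} (h0 : ∀ n, 0 ≤ α n) (hα : ∀ n, ¬ n.Prime → α n = 0)

include h0 hα in
lemma diag1 : ∑ p ∈ Finset.Icc 2 P, ∑ q ∈ Finset.Icc 2 P, ∑ r ∈ Finset.Icc 2 P,
    ∑ s ∈ Finset.Icc 2 P, α p * α q * α r * α s * (if p * q = r * s then 1 else 0) ≤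
      2 * (∑ n ∈ Finset.Icc 2 P, α n ^ 2) ^ 2 := by
  set I := Finset.Icc 2 P with hI
  have h1 : ∀ p ∈ I, ∀ q ∈ I, ∑ r ∈ I, ∑ s ∈ I,
      α p * α q * α r * α s * (if p * q = r * s then 1 else 0) ≤ 2 * (α p ^ 2 * α q ^ 2) := by
    intro p hp q hq
    have h2 : ∀ r ∈ I, ∀ s ∈ I, α p * α q * α r * α s * (if p * q = r * s then 1 else 0) ≤
        α p * α q * ((α r * (if r = p then 1 else 0)) * (α s * (if s = q then 1 else 0))) +
        α p * α q * ((α r * (if r = q then 1 else 0)) * (α s * (if s = p then 1 else 0))) := by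
      intro r _ s _
      have hpos : 0 ≤ α p * α q := mul_nonneg (h0 p) (h0 q)
      have k1 : ∀ (a b : Prop) [Decidable a] [Decidable b],
          0 ≤ α p * α q * ((α r * (if a then 1 else 0)) * (α s * (if b then 1 else 0))) := by
        intro a b _ _
        apply mul_nonneg hpos
        apply mul_nonneg
        · split_ifs
          · simpa using h0 r
          · simp
        · split_ifs
          · simpa using h0 s
          · simp
      by_cases hall : p.Prime ∧ q.Prime ∧ r.Prime ∧ s.Prime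
      · obtain ⟨a1, a2, a3, a4⟩ := hall
        by_cases he : p * q = r * s
        · rw [if_pos he]
          rcases prime_eq a1 a2 a3 a4 he with ⟨b1, b2⟩ | ⟨b1, b2⟩
          · have := k1 (r = q) (s = p)
            rw [if_pos b1, if_pos b2]
            linarith
          · have := k1 (r = p) (s = q)
            rw [if_pos b1, if_pos b2]
            linarith
        · rw [if_neg he, mul_zero]
          exact add_nonneg (k1 _ _) (k1 _ _)
      · have hz : α p * α q * α r * α s = 0 := by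
          by_contra hne
          apply hall
          refine ⟨?_, ?_, ?_, ?_⟩ <;> by_contra hnp
          · exact hne (by rw [hα p hnp]; ring)
          · exact hne (by rw [hα q hnp]; ring)
          · exact hne (by rw [hα r hnp]; ring)
          · exact hne (by rw [hα s hnp]; ring)
        rw [hz, zero_mul]
        exact add_nonneg (k1 _ _) (k1 _ _)
    have h3 : ∀ x ∈ I, ∑ r ∈ I, α r * (if r = x then 1 else 0) = α x := by
      intro x hx
      simp only [mul_ite, mul_one, mul_zero]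
      rw [Finset.sum_ite_eq' I x α, if_pos hx]
    calc ∑ r ∈ I, ∑ s ∈ I, α p * α q * α r * α s * (if p * q = r * s then 1 else 0) ≤
        ∑ r ∈ I, ∑ s ∈ I,
        (α p * α q * ((α r * (if r = p then 1 else 0)) * (α s * (if s = q then 1 else 0))) +
        α p * α q * ((α r * (if r = q then 1 else 0)) * (α s * (if s = p then 1 else 0)))) :=
          Finset.sum_le_sum fun r hr => Finset.sum_le_sum fun s hs => h2 r hr s hs
      _ = α p * α q * ((∑ r ∈ I, α r * (if r = p then 1 else 0)) *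
            (∑ s ∈ I, α s * (if s = q then 1 else 0))) +
          α p * α q * ((∑ r ∈ I, α r * (if r = q then 1 else 0)) *
            (∑ s ∈ I, α s * (if s = p then 1 else 0))) := by
          simp only [Finset.sum_add_distrib, ← Finset.mul_sum, ← Finset.sum_mul]
      _ = 2 * (α p ^ 2 * α q ^ 2) := by
          rw [h3 p hp, h3 q hq]
          ring
  calc _ ≤ ∑ p ∈ I, ∑ q ∈ I, 2 * (α p ^ 2 * α q ^ 2) :=
        Finset.sum_le_sum fun p hp => Finset.sum_le_sum fun q hq => h1 p hp q hq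
    _ = 2 * (∑ n ∈ I, α n ^ 2) ^ 2 := by
        simp only [← Finset.mul_sum, ← Finset.sum_mul]
        ring

include h0 hα in
lemma diag2 : ∑ p ∈ Finset.Icc 2 P, ∑ q ∈ Finset.Icc 2 P, ∑ r ∈ Finset.Icc 2 P,
    ∑ s ∈ Finset.Icc 2 P, α p * α q * α r * α s * (if p * r = q * s then 1 else 0) ≤
      2 * (∑ n ∈ Finset.Icc 2 P, α n ^ 2) ^ 2 := by
  refine le_trans (le_of_eq ?_) (diag1 (P := P) h0 hα)
  apply Finset.sum_congr rfl
  intro p _
  rw [Finset.sum_comm]
  apply Finset.sum_congr rfl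
  intro q _
  apply Finset.sum_congr rfl
  intro r _
  apply Finset.sum_congr rfl
  intro s _
  ring

include h0 hα in
lemma diag3 : ∑ p ∈ Finset.Icc 2 P, ∑ q ∈ Finset.Icc 2 P, ∑ r ∈ Finset.Icc 2 P,
    ∑ s ∈ Finset.Icc 2 P, α p * α q * α r * α s * (if p * s = q * r then 1 else 0) ≤
      2 * (∑ n ∈ Finset.Icc 2 P, α n ^ 2) ^ 2 := by
  refine le_trans (le_of_eq ?_) (diag2 (P := P) h0 hα)
  apply Finset.sum_congr rfl
  intro p _
  apply Finset.sum_congr rfl
  intro q _
  rw [Finset.sum_comm]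
  apply Finset.sum_congr rfl
  intro r _
  apply Finset.sum_congr rfl
  intro s _
  ring

include h0 hα in
/-- the fourth moment -/
lemma mW4 (τ H : ℝ) (hH : 0 < H) : ∫ t, om τ H t * WW α P t ^ 4 ≤
    Real.sqrt (2 * Real.pi) * H * (12 * (∑ n ∈ Finset.Icc 2 P, α n ^ 2) ^ 2 +
      16 * (∑ n ∈ Finset.Icc 2 P, α n) ^ 4 *
        Real.exp (-(H ^ 2) / (8 * ((P : ℝ) * P) ^ 2))) := by
  set I := Finset.Icc 2 P with hI
  set e := Real.exp (-(H ^ 2) / (8 * ((P : ℝ) * P) ^ 2)) with he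
  set W := Real.sqrt (2 * Real.pi) * H with hW
  have hW0 : 0 ≤ W := by positivity
  set k : ℕ → ℕ → ℕ → ℕ → ℝ → ℝ := fun p q r s t => om τ H t * (Real.cos (t * Real.log p) *
    Real.cos (t * Real.log q) * Real.cos (t * Real.log r) * Real.cos (t * Real.log s)) with hk
  have hki : ∀ p q r s, Integrable (k p q r s) := by
    intro p q r s
    refine om_mul_integrable (K := 1) hH (by fun_prop) fun t => ?_
    rw [abs_mul, abs_mul, abs_mul]
    have a1 := Real.abs_cos_le_one (t * Real.log p)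
    have a2 := Real.abs_cos_le_one (t * Real.log q)
    have a3 := Real.abs_cos_le_one (t * Real.log r)
    have a4 := Real.abs_cos_le_one (t * Real.log s)
    exact mul_le_one₀ (mul_le_one₀ (mul_le_one₀ a1 (abs_nonneg _) a2) (abs_nonneg _) a3)
      (abs_nonneg _) a4
  have e1 : ∀ t, om τ H t * WW α P t ^ 4 = ∑ p ∈ I, ∑ q ∈ I, ∑ r ∈ I, ∑ s ∈ I,
      (16 * (α p * α q * α r * α s)) * k p q r s t := by
    intro t
    rw [WW_eq, pow4_expand]
    simp only [Finset.mul_sum, hk]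
    refine Finset.sum_congr rfl fun p _ => Finset.sum_congr rfl fun q _ =>
      Finset.sum_congr rfl fun r _ => Finset.sum_congr rfl fun s _ => ?_
    ring
  simp_rw [e1]
  have i4 : ∀ p q r s, Integrable (fun t => (16 * (α p * α q * α r * α s)) * k p q r s t) :=
    fun p q r s => (hki p q r s).const_mul _
  have i3 : ∀ p q r, Integrable (fun t => ∑ s ∈ I,
      (16 * (α p * α q * α r * α s)) * k p q r s t) := fun p q r =>
    integrable_finsetSum _ fun s _ => i4 p q r s
  have i2 : ∀ p q, Integrable (fun t => ∑ r ∈ I, ∑ s ∈ I,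
      (16 * (α p * α q * α r * α s)) * k p q r s t) := fun p q =>
    integrable_finsetSum _ fun r _ => i3 p q r
  have i1 : ∀ p, Integrable (fun t => ∑ q ∈ I, ∑ r ∈ I, ∑ s ∈ I,
      (16 * (α p * α q * α r * α s)) * k p q r s t) := fun p =>
    integrable_finsetSum _ fun q _ => i2 p q
  rw [integral_finsetSum _ (fun p _ => i1 p)]
  have e2 : ∀ p ∈ I, ∫ t, ∑ q ∈ I, ∑ r ∈ I, ∑ s ∈ I,
      (16 * (α p * α q * α r * α s)) * k p q r s t =
      ∑ q ∈ I, ∑ r ∈ I, ∑ s ∈ I, (16 * (α p * α q * α r * α s)) * ∫ t, k p q r s t := by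
    intro p _
    rw [integral_finsetSum _ (fun q _ => i2 p q)]
    refine Finset.sum_congr rfl fun q _ => ?_
    rw [integral_finsetSum _ (fun r _ => i3 p q r)]
    refine Finset.sum_congr rfl fun r _ => ?_
    rw [integral_finsetSum _ (fun s _ => i4 p q r s)]
    refine Finset.sum_congr rfl fun s _ => ?_
    rw [integral_const_mul]
  rw [Finset.sum_congr rfl e2]
  have h1 : ∀ p ∈ I, ∀ q ∈ I, ∀ r ∈ I, ∀ s ∈ I, (16 * (α p * α q * α r * α s)) *
      ∫ t, k p q r s t ≤ W * (2 * (α p * α q * α r * α s * (if p * q = r * s then 1 else 0)) +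
        2 * (α p * α q * α r * α s * (if p * r = q * s then 1 else 0)) +
        2 * (α p * α q * α r * α s * (if p * s = q * r then 1 else 0)) +
        16 * e * (α p * α q * α r * α s)) := by
    intro p hp q hq r hr s hs
    have hnn : 0 ≤ α p * α q * α r * α s :=
      mul_nonneg (mul_nonneg (mul_nonneg (h0 p) (h0 q)) (h0 r)) (h0 s)
    by_cases hall : p.Prime ∧ q.Prime ∧ r.Prime ∧ s.Prime
    · obtain ⟨a1, a2, a3, a4⟩ := hall
      have h2 := cos4 τ H hH a1 a2 a3 a4 (Finset.mem_Icc.1 hp).2 (Finset.mem_Icc.1 hq).2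
        (Finset.mem_Icc.1 hr).2 (Finset.mem_Icc.1 hs).2
      have h3 := mul_le_mul_of_nonneg_left h2 (mul_nonneg (by norm_num : (0 : ℝ) ≤ 16) hnn)
      refine h3.trans (le_of_eq ?_)
      ring
    · have hz : α p * α q * α r * α s = 0 := by
        by_contra hne
        apply hall
        refine ⟨?_, ?_, ?_, ?_⟩ <;> by_contra hnp
        · exact hne (by rw [hα p hnp]; ring)
        · exact hne (by rw [hα q hnp]; ring)
        · exact hne (by rw [hα r hnp]; ring)
        · exact hne (by rw [hα s hnp]; ring)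
      rw [hz]
      simp
  refine (Finset.sum_le_sum fun p hp => Finset.sum_le_sum fun q hq => Finset.sum_le_sum fun r hr =>
    Finset.sum_le_sum fun s hs => h1 p hp q hq r hr s hs).trans ?_
  have d1 := diag1 (P := P) h0 hα
  have d2 := diag2 (P := P) h0 hα
  have d3 := diag3 (P := P) h0 hα
  have e3 : ∑ p ∈ I, ∑ q ∈ I, ∑ r ∈ I, ∑ s ∈ I,
      W * (2 * (α p * α q * α r * α s * (if p * q = r * s then 1 else 0)) +
        2 * (α p * α q * α r * α s * (if p * r = q * s then 1 else 0)) +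
        2 * (α p * α q * α r * α s * (if p * s = q * r then 1 else 0)) +
        16 * e * (α p * α q * α r * α s)) =
      W * (2 * (∑ p ∈ I, ∑ q ∈ I, ∑ r ∈ I, ∑ s ∈ I,
          α p * α q * α r * α s * (if p * q = r * s then 1 else 0)) +
        2 * (∑ p ∈ I, ∑ q ∈ I, ∑ r ∈ I, ∑ s ∈ I,
          α p * α q * α r * α s * (if p * r = q * s then 1 else 0)) +
        2 * (∑ p ∈ I, ∑ q ∈ I, ∑ r ∈ I, ∑ s ∈ I,
          α p * α q * α r * α s * (if p * s = q * r then 1 else 0)) +
        16 * e * (∑ n ∈ I, α n) ^ 4) := by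
    rw [pow4_expand]
    simp only [Finset.mul_sum, Finset.sum_add_distrib, mul_add]
  rw [e3]
  apply mul_le_mul_of_nonneg_left _ hW0
  linarith

include h0 hα in
/-- the third moment -/
lemma mW3 (τ H : ℝ) (hH : 0 < H) : |∫ t, om τ H t * WW α P t ^ 3| ≤
    Real.sqrt (2 * Real.pi) * H * (8 * (∑ n ∈ Finset.Icc 2 P, α n) ^ 3 *
        Real.exp (-(H ^ 2) / (8 * ((P : ℝ) * P) ^ 2))) := by
  set I := Finset.Icc 2 P with hI
  set e := Real.exp (-(H ^ 2) / (8 * ((P : ℝ) * P) ^ 2)) with he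
  set W := Real.sqrt (2 * Real.pi) * H with hW
  have hW0 : 0 ≤ W := by positivity
  set k : ℕ → ℕ → ℕ → ℝ → ℝ := fun p q r t => om τ H t * (Real.cos (t * Real.log p) *
    Real.cos (t * Real.log q) * Real.cos (t * Real.log r)) with hk
  have hki : ∀ p q r, Integrable (k p q r) := by
    intro p q r
    refine om_mul_integrable (K := 1) hH (by fun_prop) fun t => ?_
    rw [abs_mul, abs_mul]
    have a1 := Real.abs_cos_le_one (t * Real.log p)
    have a2 := Real.abs_cos_le_one (t * Real.log q)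
    have a3 := Real.abs_cos_le_one (t * Real.log r)
    exact mul_le_one₀ (mul_le_one₀ a1 (abs_nonneg _) a2) (abs_nonneg _) a3
  have e1 : ∀ t, om τ H t * WW α P t ^ 3 = ∑ p ∈ I, ∑ q ∈ I, ∑ r ∈ I,
      (8 * (α p * α q * α r)) * k p q r t := by
    intro t
    rw [WW_eq, pow3_expand]
    simp only [Finset.mul_sum, hk]
    refine Finset.sum_congr rfl fun p _ => Finset.sum_congr rfl fun q _ =>
      Finset.sum_congr rfl fun r _ => ?_
    ring
  simp_rw [e1]
  have i3 : ∀ p q r, Integrable (fun t => (8 * (α p * α q * α r)) * k p q r t) :=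
    fun p q r => (hki p q r).const_mul _
  have i2 : ∀ p q, Integrable (fun t => ∑ r ∈ I,
      (8 * (α p * α q * α r)) * k p q r t) := fun p q =>
    integrable_finsetSum _ fun r _ => i3 p q r
  have i1 : ∀ p, Integrable (fun t => ∑ q ∈ I, ∑ r ∈ I,
      (8 * (α p * α q * α r)) * k p q r t) := fun p =>
    integrable_finsetSum _ fun q _ => i2 p q
  rw [integral_finsetSum _ (fun p _ => i1 p)]
  have e2 : ∀ p ∈ I, ∫ t, ∑ q ∈ I, ∑ r ∈ I, (8 * (α p * α q * α r)) * k p q r t =
      ∑ q ∈ I, ∑ r ∈ I, (8 * (α p * α q * α r)) * ∫ t, k p q r t := by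
    intro p _
    rw [integral_finsetSum _ (fun q _ => i2 p q)]
    refine Finset.sum_congr rfl fun q _ => ?_
    rw [integral_finsetSum _ (fun r _ => i3 p q r)]
    refine Finset.sum_congr rfl fun r _ => ?_
    rw [integral_const_mul]
  rw [Finset.sum_congr rfl e2]
  have h1 : ∀ p ∈ I, ∀ q ∈ I, ∀ r ∈ I, |(8 * (α p * α q * α r)) *
      ∫ t, k p q r t| ≤ 8 * (W * e) * (α p * α q * α r) := by
    intro p hp q hq r hr
    have hnn : 0 ≤ α p * α q * α r := mul_nonneg (mul_nonneg (h0 p) (h0 q)) (h0 r)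
    by_cases hall : p.Prime ∧ q.Prime ∧ r.Prime
    · obtain ⟨a1, a2, a3⟩ := hall
      have h2 := cos3 τ H hH a1 a2 a3 (Finset.mem_Icc.1 hp).2 (Finset.mem_Icc.1 hq).2
        (Finset.mem_Icc.1 hr).2
      rw [abs_mul, abs_of_nonneg (mul_nonneg (by norm_num) hnn)]
      have h3 := mul_le_mul_of_nonneg_left h2 (mul_nonneg (by norm_num : (0 : ℝ) ≤ 8) hnn)
      refine h3.trans (le_of_eq ?_)
      ring
    · have hz : α p * α q * α r = 0 := by
        by_contra hne
        apply hall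
        refine ⟨?_, ?_, ?_⟩ <;> by_contra hnp
        · exact hne (by rw [hα p hnp]; ring)
        · exact hne (by rw [hα q hnp]; ring)
        · exact hne (by rw [hα r hnp]; ring)
      rw [hz]
      simp
  have h2 : |∑ p ∈ I, ∑ q ∈ I, ∑ r ∈ I, (8 * (α p * α q * α r)) * ∫ t, k p q r t| ≤
      ∑ p ∈ I, ∑ q ∈ I, ∑ r ∈ I, 8 * (W * e) * (α p * α q * α r) := by
    refine (Finset.abs_sum_le_sum_abs _ _).trans (Finset.sum_le_sum fun p hp => ?_)
    refine (Finset.abs_sum_le_sum_abs _ _).trans (Finset.sum_le_sum fun q hq => ?_)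
    exact (Finset.abs_sum_le_sum_abs _ _).trans (Finset.sum_le_sum fun r hr => h1 p hp q hq r hr)
  refine h2.trans (le_of_eq ?_)
  rw [pow3_expand]
  simp only [Finset.mul_sum, Finset.sum_mul]
  refine Finset.sum_congr rfl fun p _ => Finset.sum_congr rfl fun q _ =>
    Finset.sum_congr rfl fun r _ => ?_
  ring

include h0 in
/-- the second and the first moment -/
lemma mW12 (hP : 1 ≤ P) (τ H : ℝ) (hH : 0 < H) :
    |(∫ t, om τ H t * WW α P t ^ 2) - Real.sqrt (2 * Real.pi) * H *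
      (2 * ∑ n ∈ Finset.Icc 2 P, α n ^ 2)| ≤ Real.sqrt (2 * Real.pi) * H *
      ((2 * (∑ n ∈ Finset.Icc 2 P, α n) + 1) ^ 2 *
        Real.exp (-(H ^ 2) / (8 * ((P : ℝ) * P) ^ 2))) ∧
    |∫ t, om τ H t * WW α P t| ≤ Real.sqrt (2 * Real.pi) * H *
      ((2 * (∑ n ∈ Finset.Icc 2 P, α n) + 1) ^ 2 *
        Real.exp (-(H ^ 2) / (8 * ((P : ℝ) * P) ^ 2))) := by
  set e := Real.exp (-(H ^ 2) / (8 * ((P : ℝ) * P) ^ 2)) with he
  have he0 : 0 < e := Real.exp_pos _
  set W := Real.sqrt (2 * Real.pi) * H with hW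
  have hW0 : 0 ≤ W := by positivity
  set A := ∑ n ∈ Finset.Icc 2 P, α n with hA
  have hA0 : 0 ≤ A := Finset.sum_nonneg fun n _ => h0 n
  have hAabs : ∑ n ∈ Finset.Icc 2 P, |α n| = A :=
    Finset.sum_congr rfl fun n _ => abs_of_nonneg (h0 n)
  have t0 := tri1 α α P P 0 τ H hH hP hP
  have t1 := tri1 α α P P 1 τ H hH hP hP
  simp only [DD_self] at t0 t1
  have s0 : sz α α P P 0 = 2 * A := by unfold sz; rw [hAabs]; simp; ring
  have s1 : sz α α P P 1 = 2 * A + 1 := by unfold sz; rw [hAabs]; simp; ring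
  rw [s0] at t0
  rw [s1] at t1
  rw [← he, ← hW] at t0 t1
  simp only [add_zero] at t0
  have b0 : (2 * A) ^ 2 * e ≤ (2 * A + 1) ^ 2 * e := by
    apply mul_le_mul_of_nonneg_right _ he0.le
    nlinarith
  have b0' : W * ((2 * A) ^ 2 * e) ≤ W * ((2 * A + 1) ^ 2 * e) :=
    mul_le_mul_of_nonneg_left b0 hW0
  set S := ∑ n ∈ Finset.Icc 2 P, α n ^ 2 with hS
  have c1 : |(∫ t, om τ H t * WW α P t ^ 2) - W * (2 * S)| ≤ W * ((2 * A + 1) ^ 2 * e) := by
    have e1 : W * (2 * S) = W * (S + S + 0 ^ 2) := by ring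
    rw [e1]
    exact t0.trans b0'
  refine ⟨c1, ?_⟩
  -- first moment
  have hb : ∀ t, |WW α P t| ≤ 2 * A := by
    intro t
    rw [← hAabs]
    exact WW_abs α P t
  have i1 : Integrable (fun t => om τ H t * WW α P t) :=
    om_mul_integrable hH (WW_cont α P) hb
  have i2 : Integrable (fun t => om τ H t * WW α P t ^ 2) := by
    refine om_mul_integrable (K := (2 * A) ^ 2) hH ((WW_cont α P).pow 2) fun t => ?_
    rw [abs_pow]
    exact pow_le_pow_left₀ (abs_nonneg _) (hb t) 2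
  have i0 := om_integrable τ H hH
  have e2 : ∫ t, om τ H t * (WW α P t + 1) ^ 2 = (∫ t, om τ H t * WW α P t ^ 2) +
      2 * (∫ t, om τ H t * WW α P t) + W := by
    have e3 : ∀ t, om τ H t * (WW α P t + 1) ^ 2 = om τ H t * WW α P t ^ 2 +
      2 * (om τ H t * WW α P t) + om τ H t := by intro t; ring
    simp_rw [e3]
    have i12 : Integrable (fun t => om τ H t * WW α P t ^ 2 + 2 * (om τ H t * WW α P t)) :=
      i2.add (i1.const_mul 2)
    rw [integral_add i12 i0, integral_add i2 (i1.const_mul 2), integral_const_mul,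
      om_integral τ H hH]
  rw [e2] at t1
  have d1 := abs_le.1 c1
  have d2 := abs_le.1 t1
  rw [abs_le]
  constructor
  · nlinarith [d1.1, d1.2, d2.1, d2.2]
  · nlinarith [d1.1, d1.2, d2.1, d2.2]

end

end Pool.Agent.Y747
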