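import Pool.Agent.Y747.Kern

/-! Pieces of the numerical certificates. -/

namespace Pool.Agent.Y747

open Pool.Agent.TH873.EW

lemma piece0 {c0 c1 c2 lam rc x : ℝ} (hN : ∀ p : ℝ, 0 ≤ p → 0 ≤ Np c0 c1 c2 p) (hx : 0 ≤ x)
    (hx1 : x ≤ 13 / 20)
    (h : (rc - c0 + lam - lam * x) * (1 - x ^ 2) ^ 2 ≤ 2 * (Np c0 c1 c2 (x ^ 2) * Lp x ^ 2)) :
    rc ≤ c0 + 2 * ct (gk c0 c1 c2) x + lam * (x - 1) := by
  have := lb_zero hN hx (by linarith) (Lp_nonneg (by rw [abs_of_nonneg hx]; exact hx1)) h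
  linarith

lemma piece1 {c0 c1 c2 lam rc x : ℝ} (hN : ∀ p : ℝ, 0 ≤ p → 0 ≤ Np c0 c1 c2 p) (hx : 0 < x)
    (hx0 : 7 / 20 ≤ x) (hx1 : x ≤ 33 / 20)
    (h : (rc - c0 + lam - lam * x) * (x ^ 2 * (1 + x) ^ 2) ≤
      2 * (Np c0 c1 c2 (x ^ 2) * Lp (x - 1) ^ 2)) :
    rc ≤ c0 + 2 * ct (gk c0 c1 c2) x + lam * (x - 1) := by
  have := lb_one hN hx (Lp_nonneg (by rw [abs_le]; constructor <;> linarith)) h
  linarith

end Pool.Agent.Y747
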