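import Pool.Agent.Y747.Mo5
import Pool.Agent.Y747.Dmg

/-! Local averages over the zeros and the void set. -/

open Complex Filter Topology Set MeasureTheory

namespace Pool.Agent.Y747

open TC

/-- shifted coefficients -/
noncomputable def ap (α : ℕ → ℝ) (s : ℝ) (n : ℕ) : ℝ :=
  α n * (Real.cos (s * Real.log n) + Real.sin (s * Real.log n))

/-- shifted coefficients -/
noncomputable def am (α : ℕ → ℝ) (s : ℝ) (n : ℕ) : ℝ :=
  α n * (Real.cos (s * Real.log n) - Real.sin (s * Real.log n))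

lemma ap_abs (α : ℕ → ℝ) (s : ℝ) (n : ℕ) : |ap α s n| ≤ 2 * |α n| := by
  unfold ap
  rw [abs_mul, mul_comm]
  apply mul_le_mul_of_nonneg_right _ (abs_nonneg _)
  have h1 := Real.abs_cos_le_one (s * Real.log n)
  have h2 := Real.abs_sin_le_one (s * Real.log n)
  exact (abs_add_le _ _).trans (by linarith)

lemma am_abs (α : ℕ → ℝ) (s : ℝ) (n : ℕ) : |am α s n| ≤ 2 * |α n| := by
  unfold am
  rw [abs_mul, mul_comm]
  apply mul_le_mul_of_nonneg_right _ (abs_nonneg _)
  have h1 := Real.abs_cos_le_one (s * Real.log n)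
  have h2 := Real.abs_sin_le_one (s * Real.log n)
  exact (abs_sub _ _).trans (by linarith)

lemma apm_sq (α : ℕ → ℝ) (s : ℝ) (n : ℕ) : ap α s n ^ 2 + am α s n ^ 2 = 2 * α n ^ 2 := by
  unfold ap am
  have := Real.sin_sq_add_cos_sq (s * Real.log n)
  nlinarith [this]

lemma apm_add (α : ℕ → ℝ) (s : ℝ) (n : ℕ) :
    ap α s n + am α s n = 2 * α n * Real.cos (s * Real.log n) := by
  unfold ap am
  ring

lemma shift_id (α : ℕ → ℝ) (P : ℕ) (c g s : ℝ) :
    (WW α P (g + s) + c) ^ 2 + (WW α P (g - s) + c) ^ 2 =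
      2 * ‖DD (ap α s) (am α s) P P c g‖ ^ 2 := by
  set A : ℂ := ∑ n ∈ Finset.Icc 2 P, ((α n * Real.cos (s * Real.log n) : ℝ) : ℂ) *
    cexp (((-(g * Real.log n) : ℝ) : ℂ) * I) with hA
  set B : ℂ := ∑ n ∈ Finset.Icc 2 P, ((α n * Real.sin (s * Real.log n) : ℝ) : ℂ) *
    cexp (((-(g * Real.log n) : ℝ) : ℂ) * I) with hB
  have hexp : ∀ x : ℝ, cexp (((x : ℝ) : ℂ) * I) = ((Real.cos x : ℝ) : ℂ) + ((Real.sin x : ℝ) : ℂ) * I := by
    intro x
    rw [Complex.exp_mul_I, Complex.ofReal_cos, Complex.ofReal_sin]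
  have e1 : DP α P (g + s) = A - I * B := by
    unfold DP
    rw [hA, hB, Finset.mul_sum, ← Finset.sum_sub_distrib]
    apply Finset.sum_congr rfl
    intro n _
    have : ((-((g + s) * Real.log n) : ℝ) : ℂ) * I = ((-(g * Real.log n) : ℝ) : ℂ) * I +
        ((-(s * Real.log n) : ℝ) : ℂ) * I := by
      push_cast; ring
    rw [this, Complex.exp_add, hexp (-(s * Real.log n)), Real.cos_neg, Real.sin_neg]
    push_cast
    ring
  have e2 : DP α P (g - s) = A + I * B := by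
    unfold DP
    rw [hA, hB, Finset.mul_sum, ← Finset.sum_add_distrib]
    apply Finset.sum_congr rfl
    intro n _
    have : ((-((g - s) * Real.log n) : ℝ) : ℂ) * I = ((-(g * Real.log n) : ℝ) : ℂ) * I +
        ((s * Real.log n : ℝ) : ℂ) * I := by
      push_cast; ring
    rw [this, Complex.exp_add, hexp (s * Real.log n)]
    push_cast
    ring
  have e3 : DP (ap α s) P g = A + B := by
    unfold DP ap
    rw [hA, hB, ← Finset.sum_add_distrib]
    apply Finset.sum_congr rfl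
    intro n _
    push_cast
    ring
  have e4 : DP (am α s) P g = A - B := by
    unfold DP am
    rw [hA, hB, ← Finset.sum_sub_distrib]
    apply Finset.sum_congr rfl
    intro n _
    push_cast
    ring
  have e5 : DD (ap α s) (am α s) P P c g = ((2 * A.re + c : ℝ) : ℂ) + ((2 * B.im : ℝ) : ℂ) * I := by
    unfold DD
    rw [e3, e4]
    apply Complex.ext
    · simp
      ring
    · simp
      ring
  have e6 : ‖DD (ap α s) (am α s) P P c g‖ ^ 2 = (2 * A.re + c) ^ 2 + (2 * B.im) ^ 2 := by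
    rw [e5, ← Complex.normSq_eq_norm_sq, Complex.normSq_add_mul_I]
  have e7 : WW α P (g + s) = 2 * A.re + 2 * B.im := by
    unfold WW
    rw [e1]
    simp
    ring
  have e8 : WW α P (g - s) = 2 * A.re - 2 * B.im := by
    unfold WW
    rw [e2]
    simp
    ring
  rw [e6, e7, e8]
  ring

lemma loc_int {F : ℝ → ℝ} (hF : Continuous F) (g h : ℝ) :
    ∫ t in (g - h)..(g + h), F t = ∫ s in (0 : ℝ)..h, (F (g + s) + F (g - s)) := by
  have i1 : ∀ a b, IntervalIntegrable F volume a b := fun a b => hF.intervalIntegrable a b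
  have c1 : Continuous fun s => F (g + s) := hF.comp (by fun_prop)
  have c2 : Continuous fun s => F (g - s) := hF.comp (by fun_prop)
  rw [intervalIntegral.integral_add (c1.intervalIntegrable _ _) (c2.intervalIntegrable _ _),
    intervalIntegral.integral_comp_add_left F g, intervalIntegral.integral_comp_sub_left F g,
    add_zero, sub_zero]
  have := intervalIntegral.integral_add_adjacent_intervals (i1 (g - h) g) (i1 g (g + h))
  linarith

lemma cos_int (h x : ℝ) (hx : x ≠ 0) : ∫ s in (0 : ℝ)..h, Real.cos (s * x) = Real.sin (h * x) / x := by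
  rw [intervalIntegral.integral_comp_mul_right (fun y => Real.cos y) hx, integral_cos, zero_mul,
    Real.sin_zero, sub_zero, smul_eq_mul, inv_mul_eq_div]

/-- the sum `∑ α(n) q(n) sin(h log n)/log n` -/
noncomputable def Rq (α : ℕ → ℝ) (P : ℕ) (L h : ℝ) : ℝ :=
  ∑ n ∈ Finset.Icc 2 P, α n * qf L n * (Real.sin (h * Real.log n) / Real.log n)

/-- the weight is almost constant over short intervals -/
lemma om_shift {τ H T g t h η : ℝ} (hH : 0 < H) (hh1 : h ≤ 1) (hg : |g - τ| ≤ T)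
    (ht : |t - g| ≤ h) (hexp : Real.exp ((2 * T + 1) / (2 * H ^ 2)) ≤ 1 + η) :
    om τ H t ≤ (1 + η) * om τ H g := by
  have h1 : om τ H t = Real.exp (((g - τ) ^ 2 - (t - τ) ^ 2) / (2 * H ^ 2)) * om τ H g := by
    unfold om
    rw [← Real.exp_add]
    congr 1
    field_simp
    ring
  rw [h1]
  apply mul_le_mul_of_nonneg_right _ (om_pos τ H g).le
  refine le_trans (Real.exp_le_exp.2 ?_) hexp
  apply div_le_div_of_nonneg_right _ (by positivity)
  have h2 : (g - τ) ^ 2 - (t - τ) ^ 2 = (g - t) * (2 * (g - τ) + (t - g)) := by ring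
  rw [h2]
  refine (le_abs_self _).trans ?_
  rw [abs_mul]
  have h3 : |g - t| ≤ 1 := by rw [abs_sub_comm]; exact ht.trans hh1
  have h4 : |2 * (g - τ) + (t - g)| ≤ 2 * T + 1 := by
    refine (abs_add_le _ _).trans ?_
    rw [abs_mul, abs_of_pos (by norm_num : (0 : ℝ) < 2)]
    linarith
  calc |g - t| * |2 * (g - τ) + (t - g)| ≤ 1 * (2 * T + 1) :=
        mul_le_mul h3 h4 (abs_nonneg _) zero_le_one
    _ = 2 * T + 1 := one_mul _

/-- the void set -/
def UU (Z : Finset ℝ) (h : ℝ) : Set ℝ := {t | ∀ g ∈ Z, h < |t - g|}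

lemma UU_meas (Z : Finset ℝ) (h : ℝ) : MeasurableSet (UU Z h) := by
  have : UU Z h = ⋂ g ∈ Z, {t : ℝ | h < |t - g|} := by
    ext t
    simp [UU]
  rw [this]
  apply Finset.measurableSet_biInter
  intro g _
  exact measurableSet_lt measurable_const (by fun_prop)

/-- the quartic -/
noncomputable def AA (a0 a1 a2 a3 a4 w : ℝ) : ℝ := a0 + a1 * w + a2 * w ^ 2 + a3 * w ^ 3 + a4 * w ^ 4

lemma void_pt {Z : Finset ℝ} {m : ℝ → ℕ} (hm : ∀ g ∈ Z, 1 ≤ m g) {h τ H κ c : ℝ} (hκ : 0 ≤ κ)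
    {a0 a1 a2 a3 a4 : ℝ} (hA1 : ∀ w, AA a0 a1 a2 a3 a4 w ≤ 1)
    (hA2 : ∀ w, AA a0 a1 a2 a3 a4 w ≤ κ * (w + c) ^ 2) (w : ℝ → ℝ) (t : ℝ) :
    om τ H t * AA a0 a1 a2 a3 a4 (w t) ≤ (UU Z h).indicator (om τ H) t +
      κ * ∑ g ∈ Z, (m g : ℝ) * (Icc (g - h) (g + h)).indicator
        (fun t => om τ H t * (w t + c) ^ 2) t := by
  have hom := om_pos τ H t
  have hnn : ∀ g ∈ Z, 0 ≤ (m g : ℝ) * (Icc (g - h) (g + h)).indicator
        (fun t => om τ H t * (w t + c) ^ 2) t := by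
    intro g _
    apply mul_nonneg (Nat.cast_nonneg _)
    apply indicator_nonneg
    intro t _
    exact mul_nonneg (om_pos τ H t).le (sq_nonneg _)
  by_cases hU : t ∈ UU Z h
  · rw [indicator_of_mem hU]
    have h1 : om τ H t * AA a0 a1 a2 a3 a4 (w t) ≤ om τ H t * 1 :=
      mul_le_mul_of_nonneg_left (hA1 _) hom.le
    have h2 := mul_nonneg hκ (Finset.sum_nonneg hnn)
    linarith
  · rw [indicator_of_notMem hU, zero_add]
    have hU' : ¬ ∀ g ∈ Z, h < |t - g| := hU
    push Not at hU'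
    clear hU
    have hU := hU'
    obtain ⟨g, hg, hgt⟩ := hU
    have h1 := Finset.single_le_sum hnn hg
    have hmem : t ∈ Icc (g - h) (g + h) := by
      rw [abs_le] at hgt
      constructor <;> linarith [hgt.1, hgt.2]
    rw [indicator_of_mem hmem] at h1
    have hm1 : (1 : ℝ) ≤ m g := by exact_mod_cast hm g hg
    have h2 : om τ H t * (w t + c) ^ 2 ≤ (m g : ℝ) * (om τ H t * (w t + c) ^ 2) :=
      le_mul_of_one_le_left (mul_nonneg hom.le (sq_nonneg _)) hm1
    have h3 : om τ H t * AA a0 a1 a2 a3 a4 (w t) ≤ om τ H t * (κ * (w t + c) ^ 2) :=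
      mul_le_mul_of_nonneg_left (hA2 _) hom.le
    have h4 := mul_le_mul_of_nonneg_left (h2.trans h1) hκ
    linarith

/-- the void inequality at one `τ` -/
lemma void_tau {Z : Finset ℝ} {m : ℝ → ℕ} (hm : ∀ g ∈ Z, 1 ≤ m g) {h τ H κ c : ℝ} (hκ : 0 ≤ κ)
    (hh : 0 ≤ h) (hH : 0 < H)
    {a0 a1 a2 a3 a4 : ℝ} (ha2 : 0 ≤ a2) (ha4 : a4 ≤ 0) (hA1 : ∀ w, AA a0 a1 a2 a3 a4 w ≤ 1)
    (hA2 : ∀ w, AA a0 a1 a2 a3 a4 w ≤ κ * (w + c) ^ 2) {α : ℕ → ℝ} {P : ℕ} (hP : 1 ≤ P)
    (h0 : ∀ n, 0 ≤ α n) (hα : ∀ n, ¬ n.Prime → α n = 0) :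
    Real.sqrt (2 * Real.pi) * H * (a0 + a2 * (2 * ∑ n ∈ Finset.Icc 2 P, α n ^ 2) +
      a4 * (12 * (∑ n ∈ Finset.Icc 2 P, α n ^ 2) ^ 2) -
      (|a1| + |a2| + |a3| + |a4|) * (2 * (∑ n ∈ Finset.Icc 2 P, α n) + 1) ^ 4 *
        Real.exp (-(H ^ 2) / (8 * ((P : ℝ) * P) ^ 2))) -
      κ * ∑ g ∈ Z, (m g : ℝ) * ∫ t in (g - h)..(g + h), om τ H t * (WW α P t + c) ^ 2 ≤
      ∫ t in UU Z h, om τ H t := by
  set w := WW α P with hw
  have hwc : Continuous w := WW_cont α P
  set A := ∑ n ∈ Finset.Icc 2 P, α n with hA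
  have hA0 : 0 ≤ A := Finset.sum_nonneg fun n _ => h0 n
  have hAabs : ∑ n ∈ Finset.Icc 2 P, |α n| = A :=
    Finset.sum_congr rfl fun n _ => abs_of_nonneg (h0 n)
  set S := ∑ n ∈ Finset.Icc 2 P, α n ^ 2 with hS
  set e := Real.exp (-(H ^ 2) / (8 * ((P : ℝ) * P) ^ 2)) with he
  have he0 : 0 < e := Real.exp_pos _
  set W := Real.sqrt (2 * Real.pi) * H with hW
  have hW0 : 0 ≤ W := by positivity
  have hwb : ∀ t, |w t| ≤ 2 * A := by
    intro t
    rw [← hAabs]
    exact WW_abs α P t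
  have hi : ∀ k : ℕ, Integrable (fun t => om τ H t * w t ^ k) := by
    intro k
    refine om_mul_integrable (K := (2 * A) ^ k) hH (hwc.pow k) fun t => ?_
    rw [abs_pow]
    exact pow_le_pow_left₀ (abs_nonneg _) (hwb t) k
  have i0 := om_integrable τ H hH
  have i1 : Integrable (fun t => om τ H t * w t) := by simpa using hi 1
  -- the left side
  have hL : ∫ t, om τ H t * AA a0 a1 a2 a3 a4 (w t) = a0 * W + a1 * (∫ t, om τ H t * w t) +
      a2 * (∫ t, om τ H t * w t ^ 2) + a3 * (∫ t, om τ H t * w t ^ 3) +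
      a4 * (∫ t, om τ H t * w t ^ 4) := by
    have e1 : ∀ t, om τ H t * AA a0 a1 a2 a3 a4 (w t) = a0 * om τ H t + a1 * (om τ H t * w t) +
        a2 * (om τ H t * w t ^ 2) + a3 * (om τ H t * w t ^ 3) + a4 * (om τ H t * w t ^ 4) := by
      intro t; unfold AA; ring
    simp_rw [e1]
    have j0 := i0.const_mul a0
    have j1 := i1.const_mul a1
    have j2 := (hi 2).const_mul a2
    have j3 := (hi 3).const_mul a3
    have j4 := (hi 4).const_mul a4
    have k1 : Integrable (fun t => a0 * om τ H t + a1 * (om τ H t * w t)) := j0.add j1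
    have k2 : Integrable (fun t => a0 * om τ H t + a1 * (om τ H t * w t) +
        a2 * (om τ H t * w t ^ 2)) := k1.add j2
    have k3 : Integrable (fun t => a0 * om τ H t + a1 * (om τ H t * w t) +
        a2 * (om τ H t * w t ^ 2) + a3 * (om τ H t * w t ^ 3)) := k2.add j3
    rw [integral_add k3 j4, integral_add k2 j3, integral_add k1 j2, integral_add j0 j1,
      integral_const_mul, integral_const_mul, integral_const_mul, integral_const_mul,
      integral_const_mul, om_integral τ H hH]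
  obtain ⟨m2, m1⟩ := mW12 h0 hP τ H hH
  have m3 := mW3 (P := P) h0 hα τ H hH
  have m4 := mW4 (P := P) h0 hα τ H hH
  rw [← hW, ← hA, ← he] at m1 m2 m3 m4
  rw [← hS] at m2 m4
  rw [← hw] at m1 m2 m3 m4
  set B := (2 * A + 1) ^ 4 * e with hB
  have hA1' : 1 ≤ 2 * A + 1 := by linarith
  have b2 : (2 * A + 1) ^ 2 * e ≤ B := by
    rw [hB]
    exact mul_le_mul_of_nonneg_right (pow_le_pow_right₀ hA1' (by norm_num)) he0.le
  have b3 : 8 * A ^ 3 * e ≤ B := by
    rw [hB]
    apply mul_le_mul_of_nonneg_right _ he0.le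
    calc 8 * A ^ 3 = (2 * A) ^ 3 := by ring
      _ ≤ (2 * A + 1) ^ 3 := pow_le_pow_left₀ (by positivity) (by linarith) 3
      _ ≤ _ := pow_le_pow_right₀ hA1' (by norm_num)
  have b4 : 16 * A ^ 4 * e ≤ B := by
    rw [hB]
    apply mul_le_mul_of_nonneg_right _ he0.le
    calc 16 * A ^ 4 = (2 * A) ^ 4 := by ring
      _ ≤ (2 * A + 1) ^ 4 := pow_le_pow_left₀ (by positivity) (by linarith) 4
  have hB0 : 0 ≤ W * B := by positivity
  have n1 : -(|a1| * (W * B)) ≤ a1 * (∫ t, om τ H t * w t) := by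
    have h1 := m1.trans (mul_le_mul_of_nonneg_left b2 hW0)
    have h2 : |a1 * (∫ t, om τ H t * w t)| ≤ |a1| * (W * B) := by
      rw [abs_mul]; exact mul_le_mul_of_nonneg_left h1 (abs_nonneg _)
    linarith [(abs_le.1 h2).1]
  have n2 : a2 * (W * (2 * S)) - |a2| * (W * B) ≤ a2 * (∫ t, om τ H t * w t ^ 2) := by
    have h1 := m2.trans (mul_le_mul_of_nonneg_left b2 hW0)
    have h2 := (abs_le.1 h1).1
    rw [abs_of_nonneg ha2]
    nlinarith
  have n3 : -(|a3| * (W * B)) ≤ a3 * (∫ t, om τ H t * w t ^ 3) := by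
    have h1 := m3.trans (mul_le_mul_of_nonneg_left b3 hW0)
    have h2 : |a3 * (∫ t, om τ H t * w t ^ 3)| ≤ |a3| * (W * B) := by
      rw [abs_mul]; exact mul_le_mul_of_nonneg_left h1 (abs_nonneg _)
    linarith [(abs_le.1 h2).1]
  have n4 : a4 * (W * (12 * S ^ 2)) - |a4| * (W * B) ≤ a4 * (∫ t, om τ H t * w t ^ 4) := by
    have h1 : W * (12 * S ^ 2 + 16 * A ^ 4 * e) ≤ W * (12 * S ^ 2 + B) := by gcongr
    have h2 := m4.trans h1
    rw [abs_of_nonpos ha4]
    nlinarith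
  -- the right side
  have hR : ∫ t, om τ H t * AA a0 a1 a2 a3 a4 (w t) ≤ (∫ t in UU Z h, om τ H t) +
      κ * ∑ g ∈ Z, (m g : ℝ) * ∫ t in (g - h)..(g + h), om τ H t * (w t + c) ^ 2 := by
    have q1 : Integrable ((UU Z h).indicator (om τ H)) := i0.indicator (UU_meas Z h)
    have q2 : Integrable (fun t => om τ H t * (w t + c) ^ 2) := by
      have : ∀ t, om τ H t * (w t + c) ^ 2 = om τ H t * w t ^ 2 + (2 * c) * (om τ H t * w t) +
          c ^ 2 * om τ H t := by intro t; ring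
      simp_rw [this]
      exact ((hi 2).add (i1.const_mul _)).add (i0.const_mul _)
    have q3 : ∀ g : ℝ, Integrable (fun t => (m g : ℝ) * (Icc (g - h) (g + h)).indicator
        (fun t => om τ H t * (w t + c) ^ 2) t) := fun g =>
      (q2.indicator measurableSet_Icc).const_mul _
    have q4 : Integrable (fun t => ∑ g ∈ Z, (m g : ℝ) * (Icc (g - h) (g + h)).indicator
        (fun t => om τ H t * (w t + c) ^ 2) t) := integrable_finsetSum _ fun g _ => q3 g
    have q5 : Integrable (fun t => (UU Z h).indicator (om τ H) t +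
      κ * ∑ g ∈ Z, (m g : ℝ) * (Icc (g - h) (g + h)).indicator
        (fun t => om τ H t * (w t + c) ^ 2) t) := q1.add (q4.const_mul κ)
    have q6 : Integrable (fun t => om τ H t * AA a0 a1 a2 a3 a4 (w t)) := by
      have e1 : ∀ t, om τ H t * AA a0 a1 a2 a3 a4 (w t) = a0 * om τ H t + a1 * (om τ H t * w t) +
        a2 * (om τ H t * w t ^ 2) + a3 * (om τ H t * w t ^ 3) + a4 * (om τ H t * w t ^ 4) := by
        intro t; unfold AA; ring
      simp_rw [e1]
      exact ((((i0.const_mul a0).add (i1.const_mul a1)).add ((hi 2).const_mul a2)).add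
        ((hi 3).const_mul a3)).add ((hi 4).const_mul a4)
    have h1 := integral_mono q6 q5 (fun t => void_pt (Z := Z) (m := m) hm hκ hA1 hA2 w t)
    refine h1.trans (le_of_eq ?_)
    rw [integral_add q1 (q4.const_mul κ), integral_indicator (UU_meas Z h), integral_const_mul,
      integral_finsetSum _ fun g _ => q3 g]
    congr 2
    apply Finset.sum_congr rfl
    intro g _
    rw [integral_const_mul, integral_indicator measurableSet_Icc,
      intervalIntegral.integral_of_le (by linarith), integral_Icc_eq_integral_Ioc]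
  rw [hL] at hR
  have hfin : W * (a0 + a2 * (2 * S) + a4 * (12 * S ^ 2) -
      (|a1| + |a2| + |a3| + |a4|) * (2 * A + 1) ^ 4 * e) =
      a0 * W + (-(|a1| * (W * B))) + (a2 * (W * (2 * S)) - |a2| * (W * B)) +
      (-(|a3| * (W * B))) + (a4 * (W * (12 * S ^ 2)) - |a4| * (W * B)) := by
    rw [hB]
    ring
  rw [hfin]
  linarith

end Pool.Agent.Y747
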