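import Pool.Agent.Y747.Ar
import Pool.Agent.Y747.Nf
import Pool.Agent.W198.TC.BlockD

/-! The measure of the void set of a block. -/

open Complex Filter Topology Set MeasureTheory

namespace Pool.Agent.Y747

open TC

/-- the value of the certificate -/
noncomputable def vl (a0 a2 a4 κ c I1 I2 η : ℝ) : ℝ :=
  a0 + a2 * (2 * (I1 - η)) + a4 * (12 * (I1 + η) ^ 2) - 2 * η -
    κ * ((1 + η) * (2 * (I1 + η) + c ^ 2 + 4 * η - 4 * c / Real.pi * (I2 - η)))

lemma vl_cont (a0 a2 a4 κ c I1 I2 : ℝ) : Continuous (vl a0 a2 a4 κ c I1 I2) := by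
  unfold vl
  fun_prop

/-- the void inequality at one `τ`, asymptotic form -/
theorem void_tau_lim {F : ℝ → ℝ} {b k : ℝ} (hb : 0 < b) (hb1 : b < 1 / 2) (hF : ∀ u, 0 ≤ F u)
    (hk : ∀ u, F u ≤ k) (hFs : ∀ u, b ≤ u → F u = 0)
    {K1 K2 : NNReal} (hK1 : LipschitzWith K1 (fun u : ℝ => ((u * F u ^ 2 : ℝ) : ℂ)))
    (hK2 : LipschitzWith K2 (fun u : ℝ => ((F u * Real.sin (Real.pi * u) : ℝ) : ℂ)))
    {a0 a1 a2 a3 a4 κ c : ℝ} (hκ : 0 ≤ κ) (hc : 0 ≤ c) (ha2 : 0 ≤ a2) (ha4 : a4 ≤ 0)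
    (hA1 : ∀ w, AA a0 a1 a2 a3 a4 w ≤ 1) (hA2 : ∀ w, AA a0 a1 a2 a3 a4 w ≤ κ * (w + c) ^ 2)
    {ε : ℝ} (hε : 0 < ε) (hε1 : ε ≤ 1 / 10) (hεb : 2 * b ≤ 1 - 3 * ε / 4)
    {C η : ℝ} (hC : 0 < C) (hη : 0 < η) :
    ∃ T1 : ℝ, ∀ T τ : ℝ, T1 ≤ T → ∀ (Z : Finset ℝ) (m : ℝ → ℕ), EFD C T Z m →
    T + T ^ (1 - ε / 16) ≤ τ → τ ≤ 2 * T - T ^ (1 - ε / 16) →
    Real.sqrt (2 * Real.pi) * T ^ (1 - ε / 8) *
      vl a0 a2 a4 κ c (∫ u in (0 : ℝ)..1, u * F u ^ 2)
        (∫ u in (0 : ℝ)..1, F u * Real.sin (Real.pi * u)) η ≤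
      ∫ t in UU Z (Real.pi / Real.log T) ∩
        Ioc (T + T ^ (1 - ε / 16) / 2) (2 * T - T ^ (1 - ε / 16) / 2),
        om τ (T ^ (1 - ε / 8)) t := by
  set I1 := ∫ u in (0 : ℝ)..1, u * F u ^ 2 with hI1
  set I2 := ∫ u in (0 : ℝ)..1, F u * Real.sin (Real.pi * u) with hI2
  have hk0 : 0 ≤ k := (hF 0).trans (hk 0)
  obtain ⟨t1, ht1⟩ := al_sq hb hb1.le hFs hK1 η hη
  obtain ⟨t2, ht2⟩ := al_cor hb hb1.le hF hk hFs hK2 η hη
  obtain ⟨t3, ht3⟩ := nf_tau C ε (2 * k) (2 * (I1 + η) + c ^ 2) c η hC hε hε1 (by positivity) hη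
  set Q := |a1| + |a2| + |a3| + |a4| with hQ
  have hQ0 : 0 ≤ Q := by positivity
  have ev3 := ev_exp (Q * (4 * k + 1) ^ 4) 4 (5 * ε / 4) (1 / 8) η (by positivity) (by norm_num) hη
  have ev4 := ev_exp 2 0 (ε / 8) (1 / 16) η (by positivity) (by norm_num) hη
  have ev5 : ∀ᶠ T : ℝ in atTop, 1 ≤ Real.log T := Real.tendsto_log_atTop.eventually_ge_atTop _
  obtain ⟨T1, hT1⟩ := eventually_atTop.1 ((((ev3.and ev4).and ev5).and
    (eventually_ge_atTop (max (max t1 t2) (max t3 1)))))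
  refine ⟨T1, fun T τ hT Z m hE hτ1 hτ2 => ?_⟩
  obtain ⟨⟨⟨f3, f4⟩, f5⟩, f6⟩ := hT1 T hT
  have g1 : t1 ≤ T := ((le_max_left _ _).trans (le_max_left _ _)).trans f6
  have g2 : t2 ≤ T := ((le_max_right _ _).trans (le_max_left _ _)).trans f6
  have g3 : t3 ≤ T := ((le_max_left _ _).trans (le_max_right _ _)).trans f6
  have g4 : 1 ≤ T := ((le_max_right _ _).trans (le_max_right _ _)).trans f6
  have hT0 : 0 < T := by linarith
  set L := Real.log T with hL
  have hL0 : 0 < L := by linarith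
  set P := ⌊T ^ b⌋₊ with hP
  set α := al F L with hα
  have hTb : 1 ≤ T ^ b := Real.one_le_rpow g4 hb.le
  have hP1 : 1 ≤ P := (Nat.one_le_floor_iff _).2 hTb
  have hPb : (P : ℝ) ≤ T ^ b := Nat.floor_le (by linarith)
  have hPP : (P : ℝ) * P ≤ T ^ (1 - 3 * ε / 4) := by
    calc (P : ℝ) * P ≤ T ^ b * T ^ b := by gcongr
      _ = T ^ (2 * b) := by
        rw [← Real.rpow_add hT0]
        congr 1
        ring
      _ ≤ _ := Real.rpow_le_rpow_of_exponent_le g4 hεb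
  have hP1r : (1 : ℝ) ≤ P := by exact_mod_cast hP1
  have hPP1 : (1 : ℝ) ≤ (P : ℝ) * P := ax4 hP1r hP1r
  have hPT : (P : ℝ) ≤ T := by
    have h5 : (P : ℝ) ≤ P * P := le_mul_of_one_le_right (by linarith) hP1r
    have h6 : T ^ (1 - 3 * ε / 4) ≤ T := by
      conv_rhs => rw [← Real.rpow_one T]
      exact Real.rpow_le_rpow_of_exponent_le g4 (by linarith)
    linarith
  set H := T ^ (1 - ε / 8) with hH
  have hH0 : 0 < H := by positivity
  set W := Real.sqrt (2 * Real.pi) * H with hW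
  have hpi := Real.pi_pos
  have hW0 : 0 < W := by positivity
  have hαn : ∀ n, 0 ≤ α n := al_nonneg hF hL0
  have hαp : ∀ n, ¬ n.Prime → α n = 0 := fun n hn => by simp [hα, al, hn]
  have hαa := al_abs hF hk hL0
  set S := ∑ n ∈ Finset.Icc 2 P, (α n) ^ 2 with hS
  have hS0 : 0 ≤ S := Finset.sum_nonneg fun n _ => sq_nonneg _
  have r1 := ht1 T g1
  rw [← hL, ← hP, ← hα, ← hS, ← hI1] at r1
  have r2 := ht2 T g2
  rw [← hL, ← hP, ← hα, ← hI2] at r2
  have r1' := abs_le.1 r1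
  have r3 := ht3 T τ g3 Z m hE hτ1 hτ2 α P hP1 hPP hαa (by
    rw [← hS]
    linarith [r1'.2])
  rw [← hS, ← hL, ← hH, ← hW] at r3
  set h := Real.pi / L with hh
  have hh0 : 0 < h := by positivity
  have r4 := void_tau (Z := Z) (m := m) hE.one (h := h) (τ := τ) (H := H) hκ hh0.le hH0 ha2 ha4
    hA1 hA2 hP1 hαn hαp
  rw [← hS, ← hW, ← hQ] at r4
  set A := ∑ n ∈ Finset.Icc 2 P, α n with hA
  have hA0 : 0 ≤ A := Finset.sum_nonneg fun n _ => hαn n
  have hAT : 2 * A + 1 ≤ (4 * k + 1) * T := by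
    have s1 : ∀ n, |α n| ≤ k * lam n := by
      intro n
      refine (hαa n).trans ?_
      apply mul_le_mul_of_nonneg_right _ (lam_nonneg n)
      rw [div_le_iff₀ (by positivity)]
      nlinarith
    have s2 := sum_abs_le hk0 s1 P
    have s3 : A ≤ ∑ n ∈ Finset.Icc 2 P, |α n| := Finset.sum_le_sum fun n _ => le_abs_self _
    have s4 : 2 * k * (P : ℝ) ≤ 2 * k * T := by gcongr
    linarith
  set e := Real.exp (-(H ^ 2) / (8 * ((P : ℝ) * P) ^ 2)) with he
  have he0 : 0 < e := Real.exp_pos _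
  have hexp : e ≤ Real.exp (-(1 / 8 * T ^ (5 * ε / 4))) := by
    apply Real.exp_le_exp.2
    have e1 : H ^ 2 / (T ^ (1 - 3 * ε / 4)) ^ 2 = T ^ (5 * ε / 4) := by
      rw [hH, ← Real.rpow_natCast, ← Real.rpow_natCast, ← Real.rpow_mul hT0.le,
        ← Real.rpow_mul hT0.le, ← Real.rpow_sub hT0]
      congr 1
      push_cast
      ring
    have e2 : H ^ 2 / (T ^ (1 - 3 * ε / 4)) ^ 2 ≤ H ^ 2 / ((P : ℝ) * P) ^ 2 := by
      gcongr
    rw [e1] at e2
    have e3 : -(H ^ 2) / (8 * ((P : ℝ) * P) ^ 2) = -(1 / 8 * (H ^ 2 / ((P : ℝ) * P) ^ 2)) := by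
      have : ((P : ℝ) * P) ^ 2 ≠ 0 := by positivity
      field_simp
    rw [e3]
    linarith
  have herr : Q * (2 * A + 1) ^ 4 * e ≤ η := by
    calc Q * (2 * A + 1) ^ 4 * e ≤ Q * ((4 * k + 1) * T) ^ 4 *
        Real.exp (-(1 / 8 * T ^ (5 * ε / 4))) := by gcongr
      _ = Q * (4 * k + 1) ^ 4 * T ^ 4 * Real.exp (-(1 / 8 * T ^ (5 * ε / 4))) := by ring
      _ ≤ η := f3
  -- the far part
  set dd := T ^ (1 - ε / 16) / 2 with hdd
  have hdd0 : 0 < dd := by positivity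
  have hfar : Real.exp (-(dd ^ 2) / (4 * H ^ 2)) * Real.sqrt 2 ≤ η := by
    have h1 : Real.exp (-(dd ^ 2) / (4 * H ^ 2)) ≤ Real.exp (-(1 / 16 * T ^ (ε / 8))) := by
      apply Real.exp_le_exp.2
      have e1 : dd ^ 2 / (4 * H ^ 2) = 1 / 16 * T ^ (ε / 8) := by
        have e2 : (T ^ (1 - ε / 16)) ^ 2 / H ^ 2 = T ^ (ε / 8) := by
          rw [hH, ← Real.rpow_natCast, ← Real.rpow_natCast, ← Real.rpow_mul hT0.le,
            ← Real.rpow_mul hT0.le, ← Real.rpow_sub hT0]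
          congr 1
          push_cast
          ring
        rw [← e2, hdd]
        field_simp
        ring
      rw [neg_div, e1]
    have k1 : Real.sqrt 2 ≤ 2 := by
      rw [Real.sqrt_le_left (by norm_num)]; norm_num
    calc Real.exp (-(dd ^ 2) / (4 * H ^ 2)) * Real.sqrt 2 ≤
        Real.exp (-(1 / 16 * T ^ (ε / 8))) * 2 := by gcongr
      _ = 2 * T ^ 0 * Real.exp (-(1 / 16 * T ^ (ε / 8))) := by ring
      _ ≤ η := f4
  set J := Ioc (T + T ^ (1 - ε / 16) / 2) (2 * T - T ^ (1 - ε / 16) / 2) with hJ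
  have i0 := om_integrable τ H hH0
  have hH2 : 0 < Real.sqrt 2 * H := by positivity
  have i2 := om_integrable τ (Real.sqrt 2 * H) hH2
  have hsplit : ∫ t in UU Z h, om τ H t ≤ (∫ t in UU Z h ∩ J, om τ H t) + W * η := by
    have s1 : (∫ t in UU Z h ∩ J, om τ H t) + (∫ t in UU Z h \ J, om τ H t) =
        ∫ t in UU Z h, om τ H t := integral_inter_add_sdiff measurableSet_Ioc i0.integrableOn
    have s2 : ∫ t in UU Z h \ J, om τ H t ≤ W * η := by
      have s3 : ∫ t in UU Z h \ J, om τ H t ≤ ∫ t in UU Z h \ J,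
          Real.exp (-(dd ^ 2) / (4 * H ^ 2)) * om τ (Real.sqrt 2 * H) t := by
        apply setIntegral_mono_on i0.integrableOn (i2.const_mul _).integrableOn
          ((UU_meas Z h).diff measurableSet_Ioc)
        intro t ht
        apply om_far hH0 hdd0.le
        have ht2 : t ∉ J := ht.2
        rw [hJ, mem_Ioc, not_and_or, not_lt, not_le] at ht2
        have e1 : T ^ (1 - ε / 16) = 2 * dd := by rw [hdd]; ring
        rcases ht2 with h1 | h1
        · have : dd ≤ -(t - τ) := by linarith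
          exact this.trans (neg_le_abs _)
        · have : dd ≤ t - τ := by linarith
          exact this.trans (le_abs_self _)
      have s4 : ∫ t in UU Z h \ J, Real.exp (-(dd ^ 2) / (4 * H ^ 2)) *
          om τ (Real.sqrt 2 * H) t ≤ ∫ t, Real.exp (-(dd ^ 2) / (4 * H ^ 2)) *
          om τ (Real.sqrt 2 * H) t :=
        setIntegral_le_integral (i2.const_mul _) (Eventually.of_forall fun t =>
          mul_nonneg (Real.exp_pos _).le (om_pos _ _ _).le)
      have s5 : ∫ t, Real.exp (-(dd ^ 2) / (4 * H ^ 2)) * om τ (Real.sqrt 2 * H) t =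
          W * (Real.exp (-(dd ^ 2) / (4 * H ^ 2)) * Real.sqrt 2) := by
        rw [integral_const_mul, om_integral _ _ hH2, hW]
        ring
      refine (s3.trans (s4.trans s5.le)).trans ?_
      exact mul_le_mul_of_nonneg_left hfar hW0.le
    linarith
  -- final comparison
  have q1 : a2 * (2 * (I1 - η)) ≤ a2 * (2 * S) :=
    mul_le_mul_of_nonneg_left (by linarith [r1'.1]) ha2
  have q2 : a4 * (12 * (I1 + η) ^ 2) ≤ a4 * (12 * S ^ 2) := by
    apply mul_le_mul_of_nonpos_left _ ha4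
    have : S ^ 2 ≤ (I1 + η) ^ 2 := pow_le_pow_left₀ hS0 (by linarith [r1'.2]) 2
    linarith
  have q3 : 2 * S + c ^ 2 + 4 * η - 4 * c / Real.pi * Rq α P L h ≤
      2 * (I1 + η) + c ^ 2 + 4 * η - 4 * c / Real.pi * (I2 - η) := by
    have : 4 * c / Real.pi * (I2 - η) ≤ 4 * c / Real.pi * Rq α P L h :=
      mul_le_mul_of_nonneg_left r2 (by positivity)
    linarith [r1'.2]
  have q4 : (1 + η) * (W * (2 * S + c ^ 2 + 4 * η - 4 * c / Real.pi * Rq α P L h)) ≤
      W * ((1 + η) * (2 * (I1 + η) + c ^ 2 + 4 * η - 4 * c / Real.pi * (I2 - η))) := by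
    have := mul_le_mul_of_nonneg_left q3 (by positivity : 0 ≤ (1 + η) * W)
    linarith
  have q5 := mul_le_mul_of_nonneg_left (r3.trans q4) hκ
  have q6 : W * (a0 + a2 * (2 * (I1 - η)) + a4 * (12 * (I1 + η) ^ 2) - η) ≤
      W * (a0 + a2 * (2 * S) + a4 * (12 * S ^ 2) - Q * (2 * A + 1) ^ 4 * e) := by
    apply mul_le_mul_of_nonneg_left _ hW0.le
    linarith
  have q7 : W * vl a0 a2 a4 κ c I1 I2 η = W * (a0 + a2 * (2 * (I1 - η)) +
      a4 * (12 * (I1 + η) ^ 2) - η) - W * η - κ * (W * ((1 + η) * (2 * (I1 + η) + c ^ 2 + 4 * η -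
        4 * c / Real.pi * (I2 - η)))) := by
    unfold vl
    ring
  rw [q7]
  linarith

/-- the measure of the void set -/
theorem void_meas {F : ℝ → ℝ} {b k : ℝ} (hb : 0 < b) (hb1 : b < 1 / 2) (hF : ∀ u, 0 ≤ F u)
    (hk : ∀ u, F u ≤ k) (hFs : ∀ u, b ≤ u → F u = 0)
    {K1 K2 : NNReal} (hK1 : LipschitzWith K1 (fun u : ℝ => ((u * F u ^ 2 : ℝ) : ℂ)))
    (hK2 : LipschitzWith K2 (fun u : ℝ => ((F u * Real.sin (Real.pi * u) : ℝ) : ℂ)))
    {a0 a1 a2 a3 a4 κ c : ℝ} (hκ : 0 ≤ κ) (hc : 0 ≤ c) (ha2 : 0 ≤ a2) (ha4 : a4 ≤ 0)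
    (hA1 : ∀ w, AA a0 a1 a2 a3 a4 w ≤ 1) (hA2 : ∀ w, AA a0 a1 a2 a3 a4 w ≤ κ * (w + c) ^ 2)
    {C θ : ℝ} (hC : 0 < C) (hθ : θ < vl a0 a2 a4 κ c (∫ u in (0 : ℝ)..1, u * F u ^ 2)
        (∫ u in (0 : ℝ)..1, F u * Real.sin (Real.pi * u)) 0) :
    ∃ T1 : ℝ, ∀ T : ℝ, T1 ≤ T → ∀ (Z : Finset ℝ) (m : ℝ → ℕ), EFD C T Z m →
      θ * T ≤ (volume (UU Z (Real.pi / Real.log T) ∩ Ioc (T + 3) (2 * T - 3))).toReal := by
  set I1 := ∫ u in (0 : ℝ)..1, u * F u ^ 2 with hI1
  set I2 := ∫ u in (0 : ℝ)..1, F u * Real.sin (Real.pi * u) with hI2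
  set v0 := vl a0 a2 a4 κ c I1 I2 0 with hv0
  rcases le_or_gt θ 0 with hθ0 | hθ0
  · refine ⟨0, fun T hT Z m _ => ?_⟩
    have h1 : θ * T ≤ 0 := mul_nonpos_of_nonpos_of_nonneg hθ0 hT
    exact h1.trans ENNReal.toReal_nonneg
  -- choose `η`
  set θ' := (θ + v0) / 2 with hθ'
  have hθ'1 : θ < θ' := by rw [hθ']; linarith
  have hθ'2 : θ' < v0 := by rw [hθ']; linarith
  have hθ'0 : 0 < θ' := by linarith
  obtain ⟨η, hη, hηv⟩ : ∃ η : ℝ, 0 < η ∧ θ' < vl a0 a2 a4 κ c I1 I2 η := by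
    have h1 : ∀ᶠ η in 𝓝 (0 : ℝ), θ' < vl a0 a2 a4 κ c I1 I2 η :=
      (vl_cont a0 a2 a4 κ c I1 I2).continuousAt.eventually (lt_mem_nhds hθ'2)
    have h2 : ∀ᶠ η in 𝓝[>] (0 : ℝ), 0 < η := self_mem_nhdsWithin
    obtain ⟨η, h3, h4⟩ := ((h1.filter_mono (nhdsWithin_le_nhds (s := Ioi 0))).and h2).exists
    exact ⟨η, h4, h3⟩
  -- choose `ε`
  set ε := min (1 / 10) (1 - 2 * b) with hε
  have hε0 : 0 < ε := lt_min (by norm_num) (by linarith)
  have hε1 : ε ≤ 1 / 10 := min_le_left _ _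
  have hεb : 2 * b ≤ 1 - 3 * ε / 4 := by
    have : ε ≤ 1 - 2 * b := min_le_right _ _
    linarith
  obtain ⟨T0, hT0⟩ := void_tau_lim hb hb1 hF hk hFs hK1 hK2 hκ hc ha2 ha4 hA1 hA2 hε0 hε1 hεb hC hη
  -- size of the edges
  set δ := 1 - θ / θ' with hδ
  have hδ0 : 0 < δ := by
    rw [hδ, sub_pos, div_lt_one hθ'0]
    exact hθ'1
  have ev1 : ∀ᶠ T : ℝ in atTop, 2 * T ^ (1 - ε / 16) ≤ δ * T := by
    have h1 : Tendsto (fun T : ℝ => T ^ (-(ε / 16))) atTop (𝓝 0) :=
      tendsto_rpow_neg_atTop (by positivity)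
    filter_upwards [h1.eventually (ge_mem_nhds (show (0 : ℝ) < δ / 2 by positivity)),
      eventually_gt_atTop 0] with T hT hTp
    have h2 : T ^ (1 - ε / 16) = T * T ^ (-(ε / 16)) := by
      rw [sub_eq_add_neg, Real.rpow_add hTp, Real.rpow_one]
    rw [h2]
    nlinarith
  have ev2 : ∀ᶠ T : ℝ in atTop, 6 ≤ T ^ (1 - ε / 16) :=
    (tendsto_rpow_atTop (show 0 < 1 - ε / 16 by linarith)).eventually_ge_atTop 6
  have ev3 : ∀ᶠ T : ℝ in atTop, 2 * T ^ (1 - ε / 16) ≤ T := by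
    have h1 : Tendsto (fun T : ℝ => T ^ (-(ε / 16))) atTop (𝓝 0) :=
      tendsto_rpow_neg_atTop (by positivity)
    filter_upwards [h1.eventually (ge_mem_nhds (show (0 : ℝ) < 1 / 2 by norm_num)),
      eventually_gt_atTop 0] with T hT hTp
    have h2 : T ^ (1 - ε / 16) = T * T ^ (-(ε / 16)) := by
      rw [sub_eq_add_neg, Real.rpow_add hTp, Real.rpow_one]
    rw [h2]
    nlinarith
  obtain ⟨T1, hT1⟩ := eventually_atTop.1 ((((ev1.and ev2).and ev3).and
    (eventually_ge_atTop (max T0 1))))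
  refine ⟨T1, fun T hT Z m hE => ?_⟩
  obtain ⟨⟨⟨f1, f2⟩, f3⟩, f4⟩ := hT1 T hT
  have hTT0 : T0 ≤ T := (le_max_left _ _).trans f4
  have hTp : 0 < T := lt_of_lt_of_le one_pos ((le_max_right _ _).trans f4)
  set H := T ^ (1 - ε / 8) with hH
  have hH0 : 0 < H := by positivity
  have hpi := Real.pi_pos
  set W := Real.sqrt (2 * Real.pi) * H with hW
  have hW0 : 0 < W := by positivity
  set D := T ^ (1 - ε / 16) with hD
  set a := T + D with ha
  set bb := 2 * T - D with hbb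
  have hab : a ≤ bb := by linarith
  set V := UU Z (Real.pi / Real.log T) ∩ Ioc (T + D / 2) (2 * T - D / 2) with hV
  have hVm : MeasurableSet V := (UU_meas _ _).inter measurableSet_Ioc
  have hVfin : volume V < ⊤ := lt_of_le_of_lt (measure_mono inter_subset_right) (by simp)
  have h1 : ∀ τ ∈ Icc a bb, W * θ' ≤ ∫ t in V, om τ H t := by
    intro τ hτ
    have h2 := hT0 T τ hTT0 Z m hE hτ.1 hτ.2
    refine le_trans ?_ h2
    exact mul_le_mul_of_nonneg_left hηv.le hW0.le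
  haveI : IsFiniteMeasure (volume.restrict V) := ⟨by rw [Measure.restrict_apply_univ]; exact hVfin⟩
  -- integrability on the product
  have hprod : Integrable (Function.uncurry fun τ t => om τ H t)
      ((volume.restrict (Ioc a bb)).prod (volume.restrict V)) := by
    have hc2 : Continuous (Function.uncurry fun τ t => om τ H t) := by
      unfold om Function.uncurry
      fun_prop
    refine Integrable.mono' (integrable_const (1 : ℝ)) hc2.aestronglyMeasurable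
      (Eventually.of_forall fun p => ?_)
    rw [Real.norm_eq_abs, Function.uncurry, abs_of_pos (om_pos _ _ _)]
    exact om_le_one _ _ _
  have h2 : ∫ τ in a..bb, (∫ t in V, om τ H t) = ∫ t in V, (∫ τ in a..bb, om τ H t) := by
    simp_rw [intervalIntegral.integral_of_le hab]
    exact integral_integral_swap hprod
  have hcont : Continuous fun τ => ∫ t in V, om τ H t := by
    apply continuous_of_dominated (bound := fun _ => (1 : ℝ))
    · intro τ
      exact (om_cont τ H).aestronglyMeasurable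
    · intro τ
      exact Eventually.of_forall fun t => by
        rw [Real.norm_eq_abs, abs_of_pos (om_pos _ _ _)]; exact om_le_one _ _ _
    · exact integrable_const _
    · refine Eventually.of_forall fun t => ?_
      unfold om
      fun_prop
  have h3 : (bb - a) * (W * θ') ≤ ∫ τ in a..bb, (∫ t in V, om τ H t) := by
    have := intervalIntegral.integral_mono_on (μ := volume) hab
      ((continuous_const : Continuous fun _ : ℝ => W * θ').intervalIntegrable a bb)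
      (hcont.intervalIntegrable a bb) h1
    rwa [intervalIntegral.integral_const, smul_eq_mul] at this
  have h4 : ∀ t, ∫ τ in a..bb, om τ H t ≤ W := by
    intro t
    simp_rw [om_symm _ H t]
    rw [intervalIntegral.integral_of_le hab, hW, ← om_integral t H hH0]
    exact setIntegral_le_integral (om_integrable t H hH0) (Eventually.of_forall fun τ =>
      (om_pos _ _ _).le)
  have h5 : ∫ t in V, (∫ τ in a..bb, om τ H t) ≤ W * (volume V).toReal := by
    have hc3 : Continuous fun t => ∫ τ in a..bb, om τ H t := by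
      apply intervalIntegral.continuous_parametric_intervalIntegral_of_continuous'
      unfold om Function.uncurry
      fun_prop
    have h6 : ∫ t in V, (∫ τ in a..bb, om τ H t) ≤ ∫ _ in V, W := by
      apply integral_mono_of_nonneg
      · refine Eventually.of_forall fun t => ?_
        exact intervalIntegral.integral_nonneg hab fun τ _ => (om_pos _ _ _).le
      · exact integrable_const _
      · exact Eventually.of_forall fun t => h4 t
    rw [setIntegral_const, smul_eq_mul] at h6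
    unfold Measure.real at h6
    linarith
  have h6 : (bb - a) * θ' ≤ (volume V).toReal := by
    rw [h2] at h3
    have h7 := h3.trans h5
    have h8 : W * ((bb - a) * θ') ≤ W * (volume V).toReal := by linarith
    exact le_of_mul_le_mul_left h8 hW0
  have h7 : θ * T ≤ (bb - a) * θ' := by
    have h8 : bb - a = T - 2 * D := by rw [hbb, ha]; ring
    have h9 : θ' * δ = θ' - θ := by
      rw [hδ]
      field_simp
    rw [h8]
    nlinarith [mul_le_mul_of_nonneg_left f1 hθ'0.le]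
  refine (h7.trans h6).trans ?_
  apply ENNReal.toReal_mono
  · exact (lt_of_le_of_lt (measure_mono inter_subset_right) (by simp)).ne
  · apply measure_mono
    apply inter_subset_inter_right
    apply Ioc_subset_Ioc
    · linarith
    · linarith

end Pool.Agent.Y747
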