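import Pool.Agent.W249.TCF.Idx
import Pool.Agent.TH873.EW.GG

/-! Sums over the zeros of a block in terms of the enumeration of the ordinates. -/

open Complex Filter Topology Set MeasureTheory

namespace Pool.Agent.Y747

open SG (ord NZ zmult ZS)
open W200.HW (Ix mem_Ix)
open Pool.Agent.TH873.EW (ZV)

/-- indices of the ordinates in the block -/
noncomputable def Bx (V : ℝ) : Finset ℕ := (Ix (2 * V - 1)).filter (fun n => V + 1 < ord n)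

lemma mem_Bx {V : ℝ} {n : ℕ} : n ∈ Bx V ↔ 1 ≤ n ∧ V + 1 < ord n ∧ ord n ≤ 2 * V - 1 := by
  unfold Bx
  rw [Finset.mem_filter, mem_Ix]
  tauto

lemma mem_ZV {V : ℝ} (hV : 10 ≤ V) {s : ℂ} : s ∈ ZV V ↔
    s ∈ ZS (2 * V - 1) ∧ V + 1 < s.im := by
  unfold ZV H332B.Zb
  rw [H370.mem_Zf H370.good_zeta (by linarith)]
  constructor
  · rintro ⟨h1, h2, h3, h4, h5⟩
    exact ⟨⟨h5, h1, h2, by linarith, h4⟩, h3⟩
  · rintro ⟨⟨h1, h2, h3, h4, h5⟩, h6⟩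
    exact ⟨h2, h3, h6, h5, h1⟩

lemma zero_mem {RH : RiemannHypothesis} {V : ℝ} (hV : 10 ≤ V) {n : ℕ} (hn : n ∈ Bx V) :
    (1 / 2 + I * ord n : ℂ) ∈ ZV V := by
  rw [mem_Bx] at hn
  rw [mem_ZV hV]
  refine ⟨W200.HW.zero_at RH (mem_Ix.2 ⟨hn.1, hn.2.2⟩), ?_⟩
  simpa using hn.2.1

lemma fib (RH : RiemannHypothesis) {V : ℝ} (hV : 10 ≤ V) {s : ℂ} (hs : s ∈ ZV V) :
    (((Bx V).filter (fun n => (1 / 2 + I * ord n : ℂ) = s)).card : ℝ) = H343.ZSide.mz s := by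
  rw [mem_ZV hV] at hs
  obtain ⟨hs1, hs2⟩ := hs
  have h := W200.HW.ord_fib RH hs1
  have hre : s.re = 1 / 2 := W200.HW.re_half RH hs1.1 hs1.2.2.2.1
  have e : (Bx V).filter (fun n => (1 / 2 + I * ord n : ℂ) = s) =
      (Ix (2 * V - 1)).filter (fun n => ord n = s.im) := by
    ext n
    rw [Finset.mem_filter, Finset.mem_filter, mem_Bx, mem_Ix]
    constructor
    · rintro ⟨⟨h1, h2, h3⟩, h4⟩
      refine ⟨⟨h1, h3⟩, ?_⟩
      rw [← h4]; simp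
    · rintro ⟨⟨h1, h2⟩, h3⟩
      refine ⟨⟨h1, by rw [h3]; exact hs2, h2⟩, ?_⟩
      apply Complex.ext
      · simp [hre]
      · simp [h3]
  rw [e, h]
  rfl

lemma sum_ZV (RH : RiemannHypothesis) {V : ℝ} (hV : 10 ≤ V) (f : ℝ → ℝ) :
    ∑ s ∈ ZV V, H343.ZSide.mz s * f s.im = ∑ n ∈ Bx V, f (ord n) := by
  rw [← Finset.sum_fiberwise_of_maps_to (fun n hn => zero_mem (RH := RH) hV hn)
    (fun n => f (ord n))]
  apply Finset.sum_congr rfl
  intro s hs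
  rw [← fib RH hV hs, ← nsmul_eq_mul, ← Finset.sum_const]
  apply Finset.sum_congr rfl
  intro n hn
  rw [← (Finset.mem_filter.1 hn).2]
  simp

lemma sum_ZV2 (RH : RiemannHypothesis) {V : ℝ} (hV : 10 ≤ V) (F : ℝ → ℝ → ℝ) :
    ∑ s ∈ ZV V, ∑ s' ∈ ZV V, H343.ZSide.mz s * H343.ZSide.mz s' * F s.im s'.im =
      ∑ n ∈ Bx V, ∑ m ∈ Bx V, F (ord n) (ord m) := by
  rw [← sum_ZV RH hV (fun x => ∑ m ∈ Bx V, F x (ord m))]
  apply Finset.sum_congr rfl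
  intro s _
  rw [← sum_ZV RH hV (fun y => F s.im y), Finset.mul_sum]
  apply Finset.sum_congr rfl
  intro s' _
  ring

lemma card_Bx (RH : RiemannHypothesis) {V : ℝ} (hV : 10 ≤ V) :
    ((Bx V).card : ℝ) = (H370.NN riemannZeta (V + 1) (2 * V - 1) : ℝ) := by
  have h1 : (H370.NN riemannZeta (V + 1) (2 * V - 1) : ℝ) = ∑ z ∈ ZV V, H343.ZSide.mz z := by
    rw [H370.NN_eq H370.good_zeta (by linarith : (1 : ℝ) ≤ V + 1)]
    unfold ZV H332B.Zb H343.ZSide.mz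
    push_cast
    rfl
  have h2 := sum_ZV RH hV (fun _ => 1)
  simp only [mul_one, Finset.sum_const, nsmul_eq_mul] at h2
  rw [h1, h2]

/-- the number of ordinates in a unit interval -/
lemma edge (RH : RiemannHypothesis) : ∃ L : ℝ, 0 < L ∧ ∀ T : ℝ, 3 ≤ T → ∀ a b : ℝ, a ≤ b →
    (((Ix T).filter (fun n => a < ord n ∧ ord n ≤ b)).card : ℝ) ≤
      L * Real.log T * (b - a + 1) := by
  obtain ⟨L, hL, h⟩ := TC.GlobAux.loc RH
  refine ⟨L, hL, fun T hT a b hab => ?_⟩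
  have h1 := TC.GlobAux.cnt (h T hT) a b hab
  refine le_trans (le_of_eq ?_) h1
  rw [Finset.sum_filter]
  have h3 := W249.TCF.sum_ord RH T (fun g => if a < g ∧ g ≤ b then 1 else 0)
  have h4 : ∑ g ∈ TC.ordT T, (if a < g ∧ g ≤ b then (TC.mu g : ℝ) else 0) =
      ∑ g ∈ TC.ordT T, (TC.mu g : ℝ) * (if a < g ∧ g ≤ b then 1 else 0) := by
    apply Finset.sum_congr rfl
    intro g _
    split_ifs <;> simp
  rw [h4, h3, ← Finset.sum_filter, Finset.sum_const, nsmul_eq_mul, mul_one]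

end Pool.Agent.Y747
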